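import Pool.Agent.Lib.MP_1bbd88_ag.T.TDefs

set_option autoImplicit false

namespace Pool.Agent.Lib.MP_1bbd88_ag.T

open Module Polynomial Pool.Agent.Lib.MP_1bbd88_ag.S

variable {k B : Type*} [Field k] [CommRing B] [Algebra k B]

private noncomputable def G0_basis (B : Type*) [CommRing B] (a : ℕ) :
    Basis (Fin (((X : B[X]) ^ a).natDegree)) B (TP B a) :=
  AdjoinRoot.powerBasisAux' (monic_X_pow a)

private noncomputable def G0_equiv (k B : Type*) [Field k] [CommRing B] [Algebra k B] (a : ℕ) :
    TP B a ≃ₗ[k] (Fin (((X : B[X]) ^ a).natDegree) → B) :=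
  (G0_basis B a).equivFun.restrictScalars k

instance finite_TP [FiniteDimensional k B] (a : ℕ) : FiniteDimensional k (TP B a) :=
  Module.Finite.equiv (G0_equiv k B a).symm

theorem finrank_TP [FiniteDimensional k B] (a : ℕ) : finrank k (TP B a) = a * finrank k B := by
  rcases subsingleton_or_nontrivial B with h | h
  · have h1 : finrank k B = 0 := finrank_zero_of_subsingleton
    have h2 : finrank k (TP B a) = 0 := by
      rw [(G0_equiv k B a).finrank_eq, Module.finrank_pi_fintype]
      simp only [h1, Finset.sum_const_zero]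
    rw [h1, h2, mul_zero]
  · rw [(G0_equiv k B a).finrank_eq, Module.finrank_pi_fintype]
    simp only [natDegree_X_pow, Finset.sum_const, Finset.card_univ, Fintype.card_fin, smul_eq_mul]

theorem co_zero (z : B) : co k z 0 = 0 := by
  unfold co
  have : Subsingleton (B ⧸ Ideal.span {z ^ 0}) := by
    rw [Ideal.Quotient.subsingleton_iff, pow_zero]
    exact Ideal.span_singleton_one
  exact finrank_zero_of_subsingleton

theorem co_le [FiniteDimensional k B] (z : B) (t : ℕ) : co k z t ≤ finrank k B :=
  LinearMap.finrank_le_finrank_of_surjective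
    (f := (Ideal.Quotient.mkₐ k (Ideal.span {z ^ t})).toLinearMap)
    (Ideal.Quotient.mkₐ_surjective k _)

theorem co_mono [FiniteDimensional k B] (z : B) {s t : ℕ} (h : s ≤ t) : co k z s ≤ co k z t :=
  LinearMap.finrank_le_finrank_of_surjective
    (f := (Ideal.Quotient.factorₐ k (Ideal.span_singleton_le_span_singleton.2
      (pow_dvd_pow z h))).toLinearMap)
    (Ideal.Quotient.factor_surjective (Ideal.span_singleton_le_span_singleton.2
      (pow_dvd_pow z h)))

/-- `b ↦ z ^ t b` modulo `z ^ (t + 1)` -/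
private noncomputable def G0_map (k : Type*) {B : Type*} [Field k] [CommRing B] [Algebra k B]
    (z : B) (t : ℕ) : B →ₗ[k] B ⧸ Ideal.span {z ^ (t + 1)} :=
  (Ideal.Quotient.mkₐ k (Ideal.span {z ^ (t + 1)})).toLinearMap ∘ₗ LinearMap.mulLeft k (z ^ t)

private theorem G0_map_eq_zero (z : B) (t : ℕ) (b : B) :
    G0_map k z t b = 0 ↔ z ^ (t + 1) ∣ z ^ t * b := by
  show Ideal.Quotient.mk (Ideal.span {z ^ (t + 1)}) (z ^ t * b) = 0 ↔ _
  rw [Ideal.Quotient.eq_zero_iff_mem, Ideal.mem_span_singleton]

private theorem G0_range [FiniteDimensional k B] (z : B) (t : ℕ) :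
    finrank k (LinearMap.range (G0_map k z t)) + co k z t = co k z (t + 1) := by
  set π : (B ⧸ Ideal.span {z ^ (t + 1)}) →ₗ[k] B ⧸ Ideal.span {z ^ t} :=
    (Ideal.Quotient.factorₐ k (Ideal.span_singleton_le_span_singleton.2
      (pow_dvd_pow z (Nat.le_succ t)))).toLinearMap with hπ
  have hmk : ∀ b : B, π (Ideal.Quotient.mk _ b) = Ideal.Quotient.mk _ b := fun b => rfl
  have hsurj : Function.Surjective π := Ideal.Quotient.factor_surjective
    (Ideal.span_singleton_le_span_singleton.2 (pow_dvd_pow z (Nat.le_succ t)))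
  have h1 := LinearMap.finrank_range_add_finrank_ker π
  have h2 : finrank k (LinearMap.range π) = co k z t := by
    rw [LinearMap.range_eq_top.2 hsurj, finrank_top]
    rfl
  have h3 : LinearMap.ker π = LinearMap.range (G0_map k z t) := by
    ext v
    rw [LinearMap.mem_ker, LinearMap.mem_range]
    constructor
    · intro hv
      obtain ⟨b, rfl⟩ := Ideal.Quotient.mk_surjective v
      rw [hmk, Ideal.Quotient.eq_zero_iff_mem, Ideal.mem_span_singleton] at hv
      obtain ⟨c, rfl⟩ := hv
      exact ⟨c, rfl⟩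
    · rintro ⟨b, rfl⟩
      show π (Ideal.Quotient.mk _ (z ^ t * b)) = 0
      rw [hmk, Ideal.Quotient.eq_zero_iff_mem, Ideal.mem_span_singleton]
      exact Dvd.intro _ rfl
  have h4 : finrank k (B ⧸ Ideal.span {z ^ (t + 1)}) = co k z (t + 1) := rfl
  rw [h2, h3, h4] at h1
  omega

/-- `co` is concave -/
theorem co_concave [FiniteDimensional k B] (z : B) (t : ℕ) :
    co k z t + co k z (t + 2) ≤ 2 * co k z (t + 1) := by
  have h1 := G0_range (k := k) z t
  have h2 : finrank k (LinearMap.range (G0_map k z (t + 1))) + co k z (t + 1) = co k z (t + 2) :=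
    G0_range (k := k) z (t + 1)
  have h3 := LinearMap.finrank_range_add_finrank_ker (G0_map k z t)
  have h4 := LinearMap.finrank_range_add_finrank_ker (G0_map k z (t + 1))
  have h5 : LinearMap.ker (G0_map k z t) ≤ LinearMap.ker (G0_map k z (t + 1)) := by
    intro b hb
    rw [LinearMap.mem_ker, G0_map_eq_zero] at hb ⊢
    obtain ⟨c, hc⟩ := hb
    refine ⟨c, ?_⟩
    rw [pow_succ' z t, mul_assoc, hc, ← mul_assoc, ← pow_succ' z (t + 1)]
  have h6 := Submodule.finrank_mono h5
  omega

/-- `co` is invariant under isomorphisms -/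
theorem co_congr {B' : Type*} [CommRing B'] [Algebra k B'] (φ : B ≃ₐ[k] B') (z : B) (t : ℕ) :
    co k (φ z) t = co k z t := by
  unfold co
  have h : Ideal.span {φ z ^ t} = (Ideal.span {z ^ t}).map (φ : B →+* B') := by
    rw [Ideal.map_span, Set.image_singleton]
    simp
  exact (Ideal.quotientEquivAlg _ _ φ h).toLinearEquiv.finrank_eq.symm

end Pool.Agent.Lib.MP_1bbd88_ag.T
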