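import Pool.Agent.Lib.MP_1bbd88_ag.T.G0

set_option autoImplicit false

namespace Pool.Agent.Lib.MP_1bbd88_ag.T

open Module Polynomial Pool.Agent.Lib.MP_1bbd88_ag.S

variable {k : Type*} [Field k]

private theorem G1_lift {B : Type*} [CommRing B] [Algebra k B] (m q : ℕ) (b : Fin m → B)
    (hb : ∀ i, b i ^ q = 0) : ∃ F : W m q k →ₐ[k] B, ∀ i, F (wx m q k i) = b i := by
  refine ⟨Ideal.Quotient.liftₐ (powI (Fin m) k q) (MvPolynomial.aeval b) ?_, ?_⟩
  · have h : powI (Fin m) k q ≤ RingHom.ker (MvPolynomial.aeval (R := k) b) := by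
      rw [powI, Ideal.span_le]
      rintro _ ⟨i, rfl⟩
      change MvPolynomial.aeval b (MvPolynomial.X i ^ q) = 0
      rw [map_pow, MvPolynomial.aeval_X]
      exact hb i
    exact fun a ha => h ha
  · intro i
    exact MvPolynomial.aeval_X b i

private theorem G1_ext {B : Type*} [CommRing B] [Algebra k B] (m q : ℕ) (f g : W m q k →ₐ[k] B)
    (h : ∀ i, f (wx m q k i) = g (wx m q k i)) : f = g := by
  apply Ideal.Quotient.algHom_ext
  apply MvPolynomial.algHom_ext
  intro i
  exact h i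

private theorem G1_liftTP {A B : Type*} [CommRing A] [Algebra k A] [CommRing B] [Algebra k B]
    (a : ℕ) (f : A →ₐ[k] B) (b : B) (hb : b ^ a = 0) :
    ∃ F : TP A a →ₐ[k] B, (∀ x, F (tc a x) = f x) ∧ F (ty A a) = b := by
  refine ⟨Ideal.Quotient.liftₐ (Ideal.span {(X : A[X]) ^ a}) (aevalTower f b) ?_, ?_, ?_⟩
  · have h : Ideal.span {(X : A[X]) ^ a} ≤ RingHom.ker (aevalTower f b) := by
      rw [Ideal.span_le, Set.singleton_subset_iff]
      change aevalTower f b (X ^ a) = 0
      rw [map_pow, aevalTower_X]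
      exact hb
    exact fun y hy => h hy
  · intro x
    exact aevalTower_C f b x
  · exact aevalTower_X f b

private theorem G1_extTP {A B : Type*} [CommRing A] [Algebra k A] [CommRing B] [Algebra k B]
    (a : ℕ) (f g : TP A a →ₐ[k] B) (h1 : ∀ x, f (tc a x) = g (tc a x))
    (h2 : f (ty A a) = g (ty A a)) : f = g := by
  apply Ideal.Quotient.algHom_ext
  apply Polynomial.algHom_ext'
  · apply AlgHom.ext
    intro x
    exact h1 x
  · exact h2

private theorem G1_tc_hom {A : Type*} [CommRing A] [Algebra k A] (a : ℕ) :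
    ∃ T : A →ₐ[k] TP A a, ∀ x, T x = tc a x :=
  ⟨(Ideal.Quotient.mkₐ k (Ideal.span {(X : A[X]) ^ a})).comp CAlgHom, fun _ => rfl⟩

/-- splitting off the last variable -/
theorem exists_succ (d q : ℕ) : ∃ φ : W (d + 1) q k ≃ₐ[k] TP (W d q k) q,
    (∀ i : Fin d, φ (wx (d + 1) q k i.castSucc) = tc q (wx d q k i)) ∧
      φ (wx (d + 1) q k (Fin.last d)) = ty (W d q k) q := by
  obtain ⟨T, hT⟩ := G1_tc_hom (k := k) (A := W d q k) q
  -- the map to `TP`
  obtain ⟨F, hF⟩ := G1_lift (k := k) (B := TP (W d q k) q) (d + 1) q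
    (Fin.lastCases (ty (W d q k) q) fun i => tc q (wx d q k i)) (by
      intro i
      refine Fin.lastCases ?_ (fun i => ?_) i
      · rw [Fin.lastCases_last, ty, ← map_pow]
        exact Ideal.Quotient.eq_zero_iff_mem.mpr (Ideal.subset_span rfl)
      · rw [Fin.lastCases_castSucc, ← hT, ← map_pow, U0_wx_pow, map_zero])
  have hF1 : ∀ i : Fin d, F (wx (d + 1) q k i.castSucc) = tc q (wx d q k i) := by
    intro i
    rw [hF, Fin.lastCases_castSucc]
  have hF2 : F (wx (d + 1) q k (Fin.last d)) = ty (W d q k) q := by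
    rw [hF, Fin.lastCases_last]
  -- the map back
  obtain ⟨G0, hG0⟩ := G1_lift (k := k) (B := W (d + 1) q k) d q
    (fun i => wx (d + 1) q k i.castSucc) fun i => U0_wx_pow _ _ _
  obtain ⟨G, hG1, hG2⟩ := G1_liftTP (k := k) q G0 (wx (d + 1) q k (Fin.last d))
    (U0_wx_pow _ _ _)
  refine ⟨AlgEquiv.ofAlgHom F G ?_ ?_, hF1, hF2⟩
  · refine G1_extTP q _ _ (fun x => ?_) ?_
    · have h : (F.comp G).comp T = T := by
        refine G1_ext d q _ _ fun i => ?_
        rw [AlgHom.comp_apply, AlgHom.comp_apply, hT, hG1, hG0, hF1]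
      have h1 := AlgHom.congr_fun h x
      rw [AlgHom.comp_apply, hT] at h1
      rw [h1, AlgHom.id_apply]
    · rw [AlgHom.comp_apply, hG2, hF2, AlgHom.id_apply]
  · refine G1_ext (d + 1) q _ _ fun i => ?_
    refine Fin.lastCases ?_ (fun i => ?_) i
    · rw [AlgHom.comp_apply, hF2, hG2, AlgHom.id_apply]
    · rw [AlgHom.comp_apply, hF1, hG1, hG0, AlgHom.id_apply]

end Pool.Agent.Lib.MP_1bbd88_ag.T
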