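import Pool.Agent.Lib.MP_1bbd88_ag.T.G0

set_option autoImplicit false

namespace Pool.Agent.Lib.MP_1bbd88_ag.T

open Module Polynomial Pool.Agent.Lib.MP_1bbd88_ag.S

section G2aux

/-- rank-nullity for principal ideals -/
theorem G2_quot {k T : Type*} [Field k] [CommRing T] [Algebra k T] [FiniteDimensional k T] (w : T) :
    finrank k (T ⧸ Ideal.span {w}) = finrank k (LinearMap.ker (LinearMap.mulLeft k w)) := by
  have h2 := LinearMap.finrank_range_add_finrank_ker (LinearMap.mulLeft k w)
  have h3 : LinearMap.range (LinearMap.mulLeft k w) = (Ideal.span {w} : Ideal T).restrictScalars k := by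
    ext x
    rw [LinearMap.mem_range, Submodule.restrictScalars_mem, Ideal.mem_span_singleton']
    constructor
    · rintro ⟨y, rfl⟩
      exact ⟨y, by simp [mul_comm]⟩
    · rintro ⟨y, rfl⟩
      exact ⟨y, by simp [mul_comm]⟩
  have h4 : finrank k (T ⧸ Ideal.span {w}) +
      finrank k ((Ideal.span {w} : Ideal T).restrictScalars k) = finrank k T :=
    Submodule.finrank_quotient_add_finrank ((Ideal.span {w} : Ideal T).restrictScalars k)
  rw [← h3] at h4
  omega

variable {k B : Type*} [Field k] [CommRing B] [Algebra k B]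

theorem G2_ty_pow (q m : ℕ) (h : q ≤ m) : ty B q ^ m = 0 := by
  have h1 : ty B q ^ q = 0 := by
    unfold ty
    rw [← map_pow, Ideal.Quotient.eq_zero_iff_mem]
    exact Ideal.mem_span_singleton_self _
  obtain ⟨d, rfl⟩ := Nat.exists_eq_add_of_le h
  rw [pow_add, h1, zero_mul]

/-- every element is a constant plus a multiple of the variable -/
theorem G2_split (q : ℕ) (r : TP B q) : ∃ (b : B) (r' : TP B q), r = tc q b + ty B q * r' := by
  obtain ⟨p, rfl⟩ := Ideal.Quotient.mk_surjective r
  refine ⟨p.coeff 0, Ideal.Quotient.mk _ p.divX, ?_⟩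
  unfold tc ty
  rw [← map_mul, ← map_add]
  congr 1
  have := Polynomial.X_mul_divX_add p
  rw [add_comm]
  exact this.symm

theorem G2_aeval (q : ℕ) (ε : k[X]) : ∃ r : TP B q,
    aeval (ty B q) ε = algebraMap k (TP B q) (ε.coeff 0) + ty B q * r := by
  refine ⟨aeval (ty B q) ε.divX, ?_⟩
  conv_lhs => rw [← Polynomial.X_mul_divX_add ε]
  rw [map_add, map_mul, aeval_X, aeval_C]
  ring

theorem G2_pow_aeval (q : ℕ) (ε : k[X]) (i : ℕ) : ∃ r : TP B q,
    (-(aeval (ty B q) ε)) ^ i = algebraMap k (TP B q) ((-(ε.coeff 0)) ^ i) + ty B q * r := by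
  induction i with
  | zero => exact ⟨0, by simp⟩
  | succ i ih =>
    obtain ⟨r, hr⟩ := ih
    obtain ⟨r', hr'⟩ := G2_aeval (B := B) q ε
    refine ⟨r * (-(aeval (ty B q) ε)) - algebraMap k (TP B q) ((-(ε.coeff 0)) ^ i) * r', ?_⟩
    rw [pow_succ, hr, pow_succ, map_mul]
    rw [hr', map_neg]
    ring

/-- the elements `y^j g^i` -/
noncomputable def G2_e (B : Type*) {k : Type*} [Field k] [CommRing B] [Algebra k B] (q s : ℕ)
    (ε : k[X]) (m : ℕ) : TP B q :=
  ty B q ^ (m % s) * (-(ty B q ^ s * aeval (ty B q) ε)) ^ (m / s)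

theorem G2_e_eq (q s : ℕ) (ε : k[X]) (m : ℕ) :
    G2_e B q s ε m = ty B q ^ m * (-(aeval (ty B q) ε)) ^ (m / s) := by
  unfold G2_e
  have h : -(ty B q ^ s * aeval (ty B q) ε) = ty B q ^ s * (-(aeval (ty B q) ε)) := by ring
  rw [h, mul_pow, ← pow_mul, ← mul_assoc, ← pow_add]
  congr 2
  exact Nat.mod_add_div m s

theorem G2_e_zero (q s : ℕ) (ε : k[X]) (m : ℕ) (h : q ≤ m) : G2_e B q s ε m = 0 := by
  rw [G2_e_eq, G2_ty_pow q m h, zero_mul]

theorem G2_e_succ (q s : ℕ) (hs : 0 < s) (ε : k[X]) (m : ℕ) :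
    -(ty B q ^ s * aeval (ty B q) ε) * G2_e B q s ε m = G2_e B q s ε (m + s) := by
  unfold G2_e
  rw [Nat.add_mod_right, Nat.add_div_right m hs, pow_succ]
  ring

theorem G2_smul (q : ℕ) (b : B) (r : TP B q) : b • r = tc q b * r := by
  obtain ⟨p, rfl⟩ := Ideal.Quotient.mk_surjective r
  unfold tc
  rw [← map_mul, ← Polynomial.smul_eq_C_mul]
  rfl

theorem G2_tc_algebraMap (q : ℕ) (c : k) :
    tc q (algebraMap k B c) = algebraMap k (TP B q) c := rfl

theorem G2_ar1 {c i : ℕ} (h1 : i + 1 ≤ c) (h : c - 1 - i = 0) : c - 1 = i := by omega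

theorem G2_ar2 {c i : ℕ} (h1 : i + 1 ≤ c) : 0 < c := by omega

theorem G2_span (q s : ℕ) (ε : k[X]) (hε : ε.coeff 0 ≠ 0) :
    Submodule.span B (Set.range fun m : Fin q => G2_e B q s ε m) = ⊤ := by
  set N := Submodule.span B (Set.range fun m : Fin q => G2_e B q s ε m) with hN
  have key : ∀ d m : ℕ, q - m ≤ d → ∀ r : TP B q, ty B q ^ m * r ∈ N := by
    intro d
    induction d with
    | zero =>
      intro m hm r
      rw [G2_ty_pow q m (by omega), zero_mul]
      exact N.zero_mem
    | succ d ih =>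
      intro m hm r
      by_cases hq : q ≤ m
      · rw [G2_ty_pow q m hq, zero_mul]
        exact N.zero_mem
      push Not at hq
      have h1 : ∀ r' : TP B q, ty B q ^ (m + 1) * r' ∈ N := fun r' => ih (m + 1) (by omega) r'
      have h2 : ty B q ^ m ∈ N := by
        obtain ⟨r', hr'⟩ := G2_pow_aeval (B := B) q ε (m / s)
        have he : G2_e B q s ε m ∈ N := Submodule.subset_span ⟨⟨m, hq⟩, rfl⟩
        rw [G2_e_eq, hr', mul_add] at he
        have h3 : ty B q ^ m * (ty B q * r') ∈ N := by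
          have := h1 r'
          rwa [pow_succ, mul_assoc] at this
        have h4 : ty B q ^ m * algebraMap k (TP B q) ((-(ε.coeff 0)) ^ (m / s)) ∈ N := by
          have := N.sub_mem he h3
          rwa [add_sub_cancel_right] at this
        have h5 := N.smul_mem (algebraMap k B (((-(ε.coeff 0)) ^ (m / s))⁻¹)) h4
        have hne : (-(ε.coeff 0)) ^ (m / s) ≠ 0 := pow_ne_zero _ (neg_ne_zero.2 hε)
        have h6 : (algebraMap k B (((-(ε.coeff 0)) ^ (m / s))⁻¹)) •
            (ty B q ^ m * algebraMap k (TP B q) ((-(ε.coeff 0)) ^ (m / s))) = ty B q ^ m := by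
          rw [G2_smul, G2_tc_algebraMap]
          rw [show algebraMap k (TP B q) (((-(ε.coeff 0)) ^ (m / s))⁻¹) *
            (ty B q ^ m * algebraMap k (TP B q) ((-(ε.coeff 0)) ^ (m / s))) =
            ty B q ^ m * (algebraMap k (TP B q) (((-(ε.coeff 0)) ^ (m / s))⁻¹) *
              algebraMap k (TP B q) ((-(ε.coeff 0)) ^ (m / s))) by ring]
          rw [← map_mul, inv_mul_cancel₀ hne, map_one, mul_one]
        rwa [h6] at h5
      obtain ⟨b, r', rfl⟩ := G2_split q r
      rw [mul_add]
      apply N.add_mem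
      · have := N.smul_mem b h2
        rw [G2_smul] at this
        rwa [mul_comm]
      · have := h1 r'
        rwa [pow_succ, mul_assoc] at this
  rw [eq_top_iff]
  intro r _
  have := key q 0 (by omega) r
  rwa [pow_zero, one_mul] at this

/-- extension by zero -/
def G2_bt {q : ℕ} (b : Fin q → B) (m : ℕ) : B := if h : m < q then b ⟨m, h⟩ else 0

theorem G2_bt_fin {q : ℕ} (b : Fin q → B) (m : Fin q) : G2_bt b m = b m := by
  unfold G2_bt
  rw [dif_pos m.2]

/-- coordinates -/
noncomputable def G2_Psi (B : Type*) {k : Type*} [Field k] [CommRing B] [Algebra k B] (q s : ℕ)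
    (ε : k[X]) : (Fin q → B) →ₗ[B] TP B q :=
  Fintype.linearCombination B (fun m : Fin q => G2_e B q s ε m)

theorem G2_Psi_apply (q s : ℕ) (ε : k[X]) (b : Fin q → B) :
    G2_Psi B q s ε b = ∑ m ∈ Finset.range q, G2_bt b m • G2_e B q s ε m := by
  unfold G2_Psi
  rw [Fintype.linearCombination_apply, Finset.sum_range]
  apply Finset.sum_congr rfl
  intro m _
  rw [G2_bt_fin]

theorem G2_Psi_bij [FiniteDimensional k B] (q s : ℕ) (ε : k[X]) (hε : ε.coeff 0 ≠ 0) :
    Function.Bijective (G2_Psi B q s ε) := by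
  have hsurj : Function.Surjective (G2_Psi B q s ε) := by
    rw [← LinearMap.range_eq_top]
    unfold G2_Psi
    rw [Fintype.range_linearCombination]
    exact G2_span q s ε hε
  refine ⟨?_, hsurj⟩
  have h1 : finrank k (Fin q → B) = finrank k (TP B q) := by
    rw [Module.finrank_pi_fintype, finrank_TP]
    simp
  exact (LinearMap.injective_iff_surjective_of_finrank_eq_finrank
    (f := (G2_Psi B q s ε).restrictScalars k) h1).2 hsurj

/-- multiplication by `z + y^s ε` in coordinates -/
theorem G2_mul (z : B) (q s : ℕ) (hs : 0 < s) (ε : k[X]) (b : Fin q → B) :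
    (tc q z + ty B q ^ s * aeval (ty B q) ε) * G2_Psi B q s ε b =
      G2_Psi B q s ε (fun m => z * b m - (if s ≤ (m : ℕ) then G2_bt b (m - s) else 0)) := by
  rw [G2_Psi_apply, G2_Psi_apply]
  have h1 : ∀ m : ℕ, (tc q z + ty B q ^ s * aeval (ty B q) ε) * (G2_bt b m • G2_e B q s ε m) =
      (z * G2_bt b m) • G2_e B q s ε m - G2_bt b m • G2_e B q s ε (m + s) := by
    intro m
    rw [← G2_e_succ q s hs ε m, G2_smul, G2_smul, G2_smul]
    have : tc q (z * G2_bt b m) = tc q z * tc q (G2_bt b m) := by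
      unfold tc
      rw [C_mul, map_mul]
    rw [this]
    ring
  rw [Finset.mul_sum, Finset.sum_congr rfl fun m _ => h1 m, Finset.sum_sub_distrib]
  have h2 : ∀ m ∈ Finset.range q,
      G2_bt (fun m : Fin q => z * b m - (if s ≤ (m : ℕ) then G2_bt b (m - s) else 0)) m •
        G2_e B q s ε m = (z * G2_bt b m) • G2_e B q s ε m -
          (if s ≤ m then G2_bt b (m - s) else 0) • G2_e B q s ε m := by
    intro m hm
    rw [Finset.mem_range] at hm
    rw [← sub_smul]
    congr 1
    unfold G2_bt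
    rw [dif_pos hm, dif_pos hm]
  rw [Finset.sum_congr rfl h2, Finset.sum_sub_distrib]
  congr 1
  set F : ℕ → TP B q := fun m => (if s ≤ m then G2_bt b (m - s) else 0) • G2_e B q s ε m with hF
  have h3 : ∑ m ∈ Finset.range q, G2_bt b m • G2_e B q s ε (m + s) =
      ∑ m ∈ Finset.range q, F (m + s) := by
    apply Finset.sum_congr rfl
    intro m _
    simp only [hF]
    rw [if_pos (Nat.le_add_left s m), Nat.add_sub_cancel]
  rw [h3]
  have h4 : ∑ m ∈ Finset.range (s + q), F m = ∑ m ∈ Finset.range q, F (m + s) := by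
    rw [Finset.sum_range_add]
    have : ∑ m ∈ Finset.range s, F m = 0 := by
      apply Finset.sum_eq_zero
      intro m hm
      rw [Finset.mem_range] at hm
      simp only [hF]
      rw [if_neg (by omega), zero_smul]
    rw [this, zero_add]
    apply Finset.sum_congr rfl
    intro m _
    rw [add_comm]
  have h5 : ∑ m ∈ Finset.range (q + s), F m = ∑ m ∈ Finset.range q, F m := by
    rw [Finset.sum_range_add]
    have : ∑ m ∈ Finset.range s, F (q + m) = 0 := by
      apply Finset.sum_eq_zero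
      intro m hm
      simp only [hF]
      rw [G2_e_zero q s ε (q + m) (by omega), smul_zero]
    rw [this, add_zero]
  rw [← h4, add_comm s q, h5]

/-- the exponents -/
def G2_c (q s j : ℕ) : ℕ := (q - j + s - 1) / s

theorem G2_c_gt {q s m : ℕ} (hs : 0 < s) (h : m < q) : m / s + 1 ≤ G2_c q s (m % s) := by
  unfold G2_c
  rw [Nat.le_div_iff_mul_le hs]
  have h1 := Nat.mod_add_div m s
  have h2 : (m / s + 1) * s = s * (m / s) + s := by ring
  omega

theorem G2_c_lt {q s j : ℕ} (hs : 0 < s) (h : 0 < G2_c q s j) : s * (G2_c q s j - 1) + j < q := by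
  unfold G2_c at *
  have h1 := Nat.div_mul_le_self (q - j + s - 1) s
  set c := (q - j + s - 1) / s with hc
  have h2 : s * (c - 1) + s = c * s := by
    obtain ⟨c', hc'⟩ := Nat.exists_eq_succ_of_ne_zero h.ne'
    rw [hc', Nat.succ_sub_one, Nat.succ_eq_add_one]
    ring
  by_cases hj : j < q
  · omega
  · exfalso
    have h3 : q - j = 0 := by omega
    have : c = 0 := by
      rw [hc, h3]
      exact Nat.div_eq_of_lt (by omega)
    omega

/-- elements of the kernel from annihilators -/
noncomputable def G2_E (k : Type*) {B : Type*} [Field k] [CommRing B] [Algebra k B] (z : B)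
    (q s : ℕ) (hs : 0 < s) : (Fin s → B) →ₗ[k] (Fin q → B) :=
  LinearMap.pi fun m => (LinearMap.mulLeft k
    (z ^ (G2_c q s ((m : ℕ) % s) - 1 - (m : ℕ) / s))).comp
      (LinearMap.proj (⟨(m : ℕ) % s, Nat.mod_lt _ hs⟩ : Fin s))

theorem G2_E_apply (z : B) (q s : ℕ) (hs : 0 < s) (β : Fin s → B) (m : Fin q) :
    G2_E k z q s hs β m = z ^ (G2_c q s ((m : ℕ) % s) - 1 - (m : ℕ) / s) *
      β ⟨(m : ℕ) % s, Nat.mod_lt _ hs⟩ := by
  simp [G2_E]

theorem G2_E_ker (z : B) (q s : ℕ) (hs : 0 < s) (β : Fin s → B)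
    (hβ : ∀ j : Fin s, z ^ G2_c q s j * β j = 0) (m : Fin q) :
    z * G2_E k z q s hs β m =
      (if s ≤ (m : ℕ) then G2_bt (G2_E k z q s hs β) ((m : ℕ) - s) else 0) := by
  have hm := m.2
  have h1 := G2_c_gt hs hm
  rw [G2_E_apply, ← mul_assoc, ← pow_succ']
  split_ifs with h
  · have h2 : (m : ℕ) - s < q := by omega
    have h3 : ((m : ℕ) - s) % s = (m : ℕ) % s := by
      conv_rhs => rw [← Nat.sub_add_cancel h]
      rw [Nat.add_mod_right]
    have h4 : ((m : ℕ) - s) / s + 1 = (m : ℕ) / s := by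
      conv_rhs => rw [← Nat.sub_add_cancel h]
      rw [Nat.add_div_right _ hs]
    unfold G2_bt
    rw [dif_pos h2, G2_E_apply]
    have h5 : (⟨((⟨(m : ℕ) - s, h2⟩ : Fin q) : ℕ) % s, Nat.mod_lt _ hs⟩ : Fin s) =
        ⟨(m : ℕ) % s, Nat.mod_lt _ hs⟩ := Fin.ext h3
    rw [h5]
    congr 2
    simp only []
    rw [h3]
    omega
  · have h2 : (m : ℕ) / s = 0 := Nat.div_eq_of_lt (by omega)
    rw [h2] at h1 ⊢
    have h3 : G2_c q s ((m : ℕ) % s) - 1 - 0 + 1 = G2_c q s ((m : ℕ) % s) := by omega
    rw [h3]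
    exact hβ ⟨(m : ℕ) % s, Nat.mod_lt _ hs⟩

theorem G2_E_surj (z : B) (q s : ℕ) (hs : 0 < s) (b : Fin q → B)
    (hb : ∀ m : Fin q, z * b m = (if s ≤ (m : ℕ) then G2_bt b ((m : ℕ) - s) else 0)) :
    ∃ β : Fin s → B, (∀ j : Fin s, z ^ G2_c q s j * β j = 0) ∧ G2_E k z q s hs β = b := by
  have key : ∀ t m : ℕ, ∀ hm : m < q, G2_c q s (m % s) - 1 - m / s = t →
      b ⟨m, hm⟩ = z ^ t * G2_bt b (s * (G2_c q s (m % s) - 1) + m % s) := by
    intro t
    induction t with
    | zero =>
      intro m hm ht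
      have h1 := G2_c_gt hs hm
      have h2 : G2_c q s (m % s) - 1 = m / s := G2_ar1 h1 ht
      rw [h2, pow_zero, one_mul, add_comm, Nat.mod_add_div]
      unfold G2_bt
      rw [dif_pos hm]
    | succ t ih =>
      intro m hm ht
      have h0 : 0 < G2_c q s (m % s) := G2_ar2 (G2_c_gt hs hm)
      have h1 := G2_c_lt hs h0
      have h2 : m + s < q := by
        have h3 := Nat.mod_add_div m s
        have h4 : s * (m / s + 1) ≤ s * (G2_c q s (m % s) - 1) := by
          apply Nat.mul_le_mul_left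
          omega
        have h5 : s * (m / s + 1) = s * (m / s) + s := by ring
        omega
      have h3 := ih (m + s) h2 (by
        rw [Nat.add_mod_right, Nat.add_div_right m hs]
        omega)
      rw [Nat.add_mod_right] at h3
      have h4 := hb ⟨m + s, h2⟩
      simp only [] at h4
      rw [if_pos (Nat.le_add_left s m), Nat.add_sub_cancel] at h4
      have h5 : G2_bt b m = b ⟨m, hm⟩ := by
        unfold G2_bt
        rw [dif_pos hm]
      rw [← h5, ← h4, h3, ← mul_assoc, ← pow_succ']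
  refine ⟨fun j => if 0 < G2_c q s j then G2_bt b (s * (G2_c q s j - 1) + j) else 0, ?_, ?_⟩
  · intro j
    simp only []
    split_ifs with h
    · have h1 := G2_c_lt hs h
      have hj : (j : ℕ) < q := by
        have : (j : ℕ) ≤ s * (G2_c q s j - 1) + j := Nat.le_add_left _ _
        omega
      have hjs : (j : ℕ) % s = j := Nat.mod_eq_of_lt j.2
      have hjd : (j : ℕ) / s = 0 := Nat.div_eq_of_lt j.2
      have h2 := key (G2_c q s j - 1) j hj (by rw [hjs, hjd]; rfl)
      rw [hjs] at h2
      have h3 := hb ⟨j, hj⟩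
      simp only [] at h3
      rw [if_neg (by have := j.2; omega), h2, ← mul_assoc, ← pow_succ'] at h3
      have h4 : G2_c q s j - 1 + 1 = G2_c q s j := by omega
      rwa [h4] at h3
    · rw [mul_zero]
  · funext m
    rw [G2_E_apply]
    have h1 := G2_c_gt hs m.2
    have h0 : 0 < G2_c q s ((m : ℕ) % s) := G2_ar2 h1
    simp only []
    rw [if_pos h0]
    exact (key _ m m.2 rfl).symm

theorem G2_E_inj (z : B) (q s : ℕ) (hs : 0 < s) (β : Fin s → B)
    (hβ : ∀ j : Fin s, z ^ G2_c q s j * β j = 0) (h : G2_E k z q s hs β = 0) : β = 0 := by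
  funext j
  by_cases hc : 0 < G2_c q s j
  · have h1 := G2_c_lt hs hc
    have h2 := congrFun h ⟨s * (G2_c q s j - 1) + j, h1⟩
    rw [G2_E_apply] at h2
    have h3 : (s * (G2_c q s j - 1) + j) % s = j := by
      rw [Nat.mul_add_mod]
      exact Nat.mod_eq_of_lt j.2
    have h4 : (s * (G2_c q s j - 1) + j) / s = G2_c q s j - 1 := by
      rw [Nat.mul_add_div hs, Nat.div_eq_of_lt j.2, add_zero]
    simp only [Pi.zero_apply] at h2
    have h5 : (⟨(s * (G2_c q s j - 1) + j) % s, Nat.mod_lt _ hs⟩ : Fin s) = j := Fin.ext h3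
    rw [h5, h3, h4, Nat.sub_self, pow_zero, one_mul] at h2
    exact h2
  · have h1 : G2_c q s j = 0 := by omega
    have := hβ j
    rw [h1, pow_zero, one_mul] at this
    exact this

end G2aux

variable {k B : Type*} [Field k] [CommRing B] [Algebra k B] [FiniteDimensional k B]

/-- the colength of `z + y^s ε(y)` -/
theorem finrank_add_pow (z : B) (q s : ℕ) (hs : 0 < s) (ε : k[X]) (hε : ε.coeff 0 ≠ 0) :
    finrank k (TP B q ⧸ Ideal.span {tc q z + ty B q ^ s * aeval (ty B q) ε}) =
      ∑ j ∈ Finset.range s, co k z ((q - j + s - 1) / s) := by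
  rw [G2_quot]
  have hR : ∑ j ∈ Finset.range s, co k z ((q - j + s - 1) / s) =
      finrank k ((j : Fin s) → LinearMap.ker (LinearMap.mulLeft k (z ^ G2_c q s j))) := by
    rw [Module.finrank_pi_fintype, Finset.sum_range]
    apply Finset.sum_congr rfl
    intro j _
    unfold co
    rw [G2_quot]
    rfl
  rw [hR]
  symm
  have hbij := G2_Psi_bij (B := B) q s ε hε
  -- the linear map
  let Lam : ((j : Fin s) → LinearMap.ker (LinearMap.mulLeft k (z ^ G2_c q s j))) →ₗ[k]
      LinearMap.ker (LinearMap.mulLeft k (tc q z + ty B q ^ s * aeval (ty B q) ε)) :=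
    LinearMap.codRestrict _
      (((G2_Psi B q s ε).restrictScalars k).comp ((G2_E k z q s hs).comp
        (LinearMap.pi fun j => (Submodule.subtype _).comp (LinearMap.proj j))))
      (by
        intro β
        rw [LinearMap.mem_ker, LinearMap.mulLeft_apply]
        have hβ : ∀ j : Fin s, z ^ G2_c q s j * (β j : B) = 0 := by
          intro j
          have := (β j).2
          rwa [LinearMap.mem_ker, LinearMap.mulLeft_apply] at this
        change (tc q z + ty B q ^ s * aeval (ty B q) ε) *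
          G2_Psi B q s ε (G2_E k z q s hs (fun j => (β j : B))) = 0
        rw [G2_mul z q s hs ε]
        have : (fun m : Fin q => z * G2_E k z q s hs (fun j => (β j : B)) m -
            (if s ≤ (m : ℕ) then G2_bt (G2_E k z q s hs (fun j => (β j : B))) (m - s) else 0)) = 0 := by
          funext m
          rw [G2_E_ker z q s hs _ hβ m, sub_self]
          rfl
        rw [this, map_zero])
  have hLam : ∀ β, ((Lam β : LinearMap.ker (LinearMap.mulLeft k
      (tc q z + ty B q ^ s * aeval (ty B q) ε))) : TP B q) =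
        G2_Psi B q s ε (G2_E k z q s hs (fun j => (β j : B))) := fun β => rfl
  have hinj : Function.Injective Lam := by
    rw [injective_iff_map_eq_zero]
    intro β h
    have h1 : G2_Psi B q s ε (G2_E k z q s hs (fun j => (β j : B))) = 0 := by
      rw [← hLam, h]
      rfl
    have h2 : G2_E k z q s hs (fun j => (β j : B)) = 0 := by
      apply hbij.1
      rw [h1, map_zero]
    have hβ : ∀ j : Fin s, z ^ G2_c q s j * (β j : B) = 0 := by
      intro j
      have := (β j).2
      rwa [LinearMap.mem_ker, LinearMap.mulLeft_apply] at this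
    have h3 := G2_E_inj z q s hs _ hβ h2
    funext j
    apply Subtype.ext
    exact congrFun h3 j
  have hsurj : Function.Surjective Lam := by
    rintro ⟨r, hr⟩
    rw [LinearMap.mem_ker, LinearMap.mulLeft_apply] at hr
    obtain ⟨b, rfl⟩ := hbij.2 r
    rw [G2_mul z q s hs ε] at hr
    have h1 : (fun m : Fin q => z * b m -
        (if s ≤ (m : ℕ) then G2_bt b (m - s) else 0)) = 0 := by
      apply hbij.1
      rw [hr, map_zero]
    obtain ⟨β, hβ, hE⟩ := G2_E_surj (k := k) z q s hs b (fun m => sub_eq_zero.1 (congrFun h1 m))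
    refine ⟨fun j => ⟨β j, ?_⟩, ?_⟩
    · rw [LinearMap.mem_ker, LinearMap.mulLeft_apply]
      exact hβ j
    · apply Subtype.ext
      rw [hLam]
      simp only []
      rw [hE]
  exact (LinearEquiv.ofBijective Lam ⟨hinj, hsurj⟩).finrank_eq

end Pool.Agent.Lib.MP_1bbd88_ag.T
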