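import Pool.Agent.Lib.MP_1bbd88_ag.T.G0

set_option autoImplicit false

namespace Pool.Agent.Lib.MP_1bbd88_ag.T

open Module Polynomial Pool.Agent.Lib.MP_1bbd88_ag.S

variable {k B : Type*} [Field k] [CommRing B] [Algebra k B] [FiniteDimensional k B]

/-! ### auxiliary statements -/

/-- the constants of the double truncated polynomial ring -/
private noncomputable def G3_io (B : Type*) [CommRing B] (q : ℕ) : B →+* TP (TP B q) q :=
  ((Ideal.Quotient.mk _).comp C).comp ((Ideal.Quotient.mk _).comp C)

/-- substitution of `u v` -/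
private noncomputable def G3_ev (B : Type*) [CommRing B] (q : ℕ) : B[X] →+* TP (TP B q) q :=
  eval₂RingHom (G3_io B q) (tc q (ty B q) * ty (TP B q) q)

omit [FiniteDimensional k B] in
private theorem G3_alg (q : ℕ) (c : k) :
    algebraMap k (TP (TP B q) q) c = G3_io B q (algebraMap k B c) := rfl

omit [FiniteDimensional k B] in
private theorem G3_phi (q a : ℕ) (c : TP (TP B q) q)
    (h : c * (tc q (ty B q) * ty (TP B q) q) ^ a = 0) :
    ∃ φ : TP B a →ₗ[k] TP (TP B q) q, ∀ f : B[X],
      φ (Ideal.Quotient.mk _ f) = c * G3_ev B q f := by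
  let g : B[X] →ₗ[k] TP (TP B q) q :=
    { toFun := fun f => c * G3_ev B q f
      map_add' := fun f f' => by rw [map_add, mul_add]
      map_smul' := fun s f => by
        rw [RingHom.id_apply]
        refine Eq.trans ?_ (Algebra.smul_def s (c * G3_ev B q f)).symm
        rw [Algebra.smul_def, map_mul, Polynomial.algebraMap_apply, G3_alg]
        have : G3_ev B q (C (algebraMap k B s)) = G3_io B q (algebraMap k B s) := by
          unfold G3_ev
          rw [coe_eval₂RingHom, eval₂_C]
        rw [this]
        ring }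
  have hg : (Ideal.span {(X : B[X]) ^ a}).restrictScalars k ≤ LinearMap.ker g := by
    intro f hf
    rw [Submodule.restrictScalars_mem, Ideal.mem_span_singleton'] at hf
    obtain ⟨f', rfl⟩ := hf
    rw [LinearMap.mem_ker]
    change c * G3_ev B q (f' * X ^ a) = 0
    rw [map_mul, map_pow]
    have : G3_ev B q X = tc q (ty B q) * ty (TP B q) q := by
      unfold G3_ev
      rw [coe_eval₂RingHom, eval₂_X]
    rw [this, mul_left_comm, h, mul_zero]
  refine ⟨(Submodule.liftQ _ g hg) ∘ₗ
    (Submodule.Quotient.restrictScalarsEquiv k (Ideal.span {(X : B[X]) ^ a})).symm.toLinearMap,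
    fun f => ?_⟩
  rfl

/-- `co` is the dimension of the kernel -/
private theorem G3_ker {A : Type*} [CommRing A] [Algebra k A] [FiniteDimensional k A] (x : A)
    (t : ℕ) : co k x t = finrank k (LinearMap.ker (LinearMap.mulLeft k (x ^ t))) := by
  have h1 := LinearMap.finrank_range_add_finrank_ker (LinearMap.mulLeft k (x ^ t))
  have h2 : LinearMap.range (LinearMap.mulLeft k (x ^ t)) =
      (Ideal.span {x ^ t}).restrictScalars k := by
    ext y
    rw [LinearMap.mem_range, Submodule.restrictScalars_mem, Ideal.mem_span_singleton']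
    constructor
    · rintro ⟨a, ha⟩
      exact ⟨a, by rw [← ha, LinearMap.mulLeft_apply, mul_comm]⟩
    · rintro ⟨a, ha⟩
      exact ⟨a, by rw [← ha, LinearMap.mulLeft_apply, mul_comm]⟩
  have h3 := Submodule.finrank_quotient_add_finrank ((Ideal.span {x ^ t}).restrictScalars k)
  have h4 : finrank k (A ⧸ (Ideal.span {x ^ t}).restrictScalars k) = co k x t :=
    (Submodule.Quotient.restrictScalarsEquiv k (Ideal.span {x ^ t})).finrank_eq
  rw [h2] at h1
  rw [h4] at h3
  omega

private theorem G3_sum (F : ℕ → ℕ) (n : ℕ) :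
    ∑ w ∈ Finset.range n, F (n - w) = ∑ a ∈ Finset.Ico 1 (n + 1), F a := by
  rw [Finset.sum_Ico_eq_sum_range, Nat.add_sub_cancel,
    ← Finset.sum_range_reflect (fun j => F (1 + j)) n]
  refine Finset.sum_congr rfl fun j hj => ?_
  rw [Finset.mem_range] at hj
  congr 1
  omega

private theorem G3_gauss (n : ℕ) :
    ∑ a ∈ Finset.Ico 1 (n + 1), a + ∑ a ∈ Finset.Ico 1 (n - 1 + 1), a = n * n := by
  induction n with
  | zero => simp
  | succ n ih =>
    rcases Nat.eq_zero_or_pos n with h0 | h0
    · subst h0
      simp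
    · rw [Nat.sub_add_cancel h0] at ih
      rw [Nat.add_sub_cancel, Finset.sum_Ico_succ_top (by omega)]
      rw [Finset.sum_Ico_succ_top (by omega : 1 ≤ n)] at ih ⊢
      nlinarith

/-- decomposition into weight spaces -/
theorem co_mul (z : B) (q t : ℕ) :
    co k (tc q (ty B q) * ty (TP B q) q + tc q (tc q z)) t =
      Ga k z q t + 2 * ∑ a ∈ Finset.Ico 1 q, Ga k z a t := by
  classical
  set u : TP (TP B q) q := tc q (ty B q) with hu
  set v : TP (TP B q) q := ty (TP B q) q with hv
  have huq : u ^ q = 0 := by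
    have h1 : ty B q ^ q = 0 := by
      unfold ty
      rw [← map_pow, Ideal.Quotient.eq_zero_iff_mem]
      exact Ideal.subset_span rfl
    have h2 : u ^ q = tc q (ty B q ^ q) := by
      rw [hu]
      unfold tc
      rw [← map_pow, ← C_pow]
    rw [h2, h1]
    unfold tc
    rw [C_0, map_zero]
  have hvq : v ^ q = 0 := by
    rw [hv]
    unfold ty
    rw [← map_pow, Ideal.Quotient.eq_zero_iff_mem]
    exact Ideal.subset_span rfl
  -- the index set
  let I := Fin q ⊕ Fin (q - 1)
  let a : I → ℕ := Sum.elim (fun w => q - w) (fun w => q - 1 - w)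
  let c : I → TP (TP B q) q := Sum.elim (fun w => u ^ (w : ℕ)) (fun w => v ^ ((w : ℕ) + 1))
  have hc : ∀ i, c i * (u * v) ^ (a i) = 0 := by
    rintro (w | w)
    · change u ^ (w : ℕ) * (u * v) ^ (q - w) = 0
      rw [mul_pow, ← mul_assoc, ← pow_add, Nat.add_sub_cancel' w.2.le, huq, zero_mul]
    · change v ^ ((w : ℕ) + 1) * (u * v) ^ (q - 1 - w) = 0
      have e : (w : ℕ) + 1 + (q - 1 - w) = q := by
        have := w.2
        omega
      rw [mul_pow, mul_left_comm, ← pow_add, e, hvq, mul_zero]
  choose φ hφ using fun i => G3_phi (k := k) q (a i) (c i) (hc i)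
  have hevX : G3_ev B q X = u * v := by
    unfold G3_ev
    rw [coe_eval₂RingHom, eval₂_X]
  have hevC : ∀ b : B, G3_ev B q (C b) = tc q (tc q b) := by
    intro b
    unfold G3_ev
    rw [coe_eval₂RingHom, eval₂_C]
    rfl
  set e : TP (TP B q) q := u * v + tc q (tc q z) with he
  -- compatibility with the multiplications
  have hmul : ∀ i (m : TP B (a i)), φ i ((ty B (a i) + tc (a i) z) * m) = e * φ i m := by
    intro i m
    obtain ⟨f, rfl⟩ := Ideal.Quotient.mk_surjective m
    have h1 : (ty B (a i) + tc (a i) z) * Ideal.Quotient.mk _ f =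
        Ideal.Quotient.mk (Ideal.span {(X : B[X]) ^ (a i)}) ((X + C z) * f) := by
      unfold ty tc
      rw [← map_add, ← map_mul]
    rw [h1, hφ, hφ, map_mul, map_add, hevX, hevC, he]
    ring
  have hmul' : ∀ (n : ℕ) i (m : TP B (a i)),
      φ i ((ty B (a i) + tc (a i) z) ^ n * m) = e ^ n * φ i m := by
    intro n
    induction n with
    | zero =>
      intro i m
      rw [pow_zero, pow_zero, one_mul, one_mul]
    | succ n ih =>
      intro i m
      rw [pow_succ, mul_assoc, ih, hmul, pow_succ, mul_assoc]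
  -- the sum map
  let Φ : (∀ i, TP B (a i)) →ₗ[k] TP (TP B q) q := ∑ i, (φ i).comp (LinearMap.proj i)
  have hΦ : ∀ f, Φ f = ∑ i, φ i (f i) := by
    intro f
    simp [Φ]
  have hΦs : ∀ i m, Φ (Pi.single i m) = φ i m := by
    intro i m
    rw [hΦ, Finset.sum_eq_single i]
    · rw [Pi.single_eq_same]
    · intro j _ hj
      rw [Pi.single_eq_of_ne hj, map_zero]
    · intro h
      exact absurd (Finset.mem_univ i) h
  have hmon : ∀ (b : B) (i j : ℕ), tc q (tc q b) * u ^ i * v ^ j ∈ LinearMap.range Φ := by
    intro b i j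
    rcases le_or_gt j i with hij | hij
    · by_cases hq : i - j < q
      · refine ⟨Pi.single (Sum.inl ⟨i - j, hq⟩) (Ideal.Quotient.mk _ (C b * X ^ j)), ?_⟩
        rw [hΦs, hφ]
        change u ^ (i - j) * _ = _
        rw [map_mul, map_pow, hevX, hevC, mul_pow]
        have h1 : u ^ i = u ^ (i - j) * u ^ j := by rw [← pow_add, Nat.sub_add_cancel hij]
        rw [h1]
        ring
      · have h1 : u ^ i = 0 := by
          have h2 : i = q + (i - q) := by omega
          rw [h2, pow_add, huq, zero_mul]
        rw [h1, mul_zero, zero_mul]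
        exact zero_mem _
    · by_cases hq : j - i - 1 < q - 1
      · refine ⟨Pi.single (Sum.inr ⟨j - i - 1, hq⟩) (Ideal.Quotient.mk _ (C b * X ^ i)), ?_⟩
        rw [hΦs, hφ]
        change v ^ (j - i - 1 + 1) * _ = _
        rw [map_mul, map_pow, hevX, hevC, mul_pow]
        have h1 : v ^ j = v ^ (j - i - 1 + 1) * v ^ i := by
          rw [← pow_add]
          congr 1
          omega
        rw [h1]
        ring
      · have h1 : v ^ j = 0 := by
          have h2 : j = q + (j - q) := by omega
          rw [h2, pow_add, hvq, zero_mul]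
        rw [h1, mul_zero]
        exact zero_mem _
  have hsurj : Function.Surjective Φ := by
    rw [← LinearMap.range_eq_top, eq_top_iff]
    rintro r -
    obtain ⟨p, rfl⟩ := Ideal.Quotient.mk_surjective r
    induction p using Polynomial.induction_on' with
    | add p p' hp hp' =>
      rw [map_add]
      exact add_mem hp hp'
    | monomial j g =>
      obtain ⟨f, rfl⟩ := Ideal.Quotient.mk_surjective g
      induction f using Polynomial.induction_on' with
      | add f f' hf hf' =>
        rw [map_add, map_add, map_add]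
        exact add_mem hf hf'
      | monomial i b =>
        have h1 : (Ideal.Quotient.mk _ (monomial j (Ideal.Quotient.mk _ (monomial i b) : TP B q)) :
            TP (TP B q) q) = tc q (tc q b) * u ^ i * v ^ j := by
          rw [← C_mul_X_pow_eq_monomial, ← C_mul_X_pow_eq_monomial, map_mul, map_mul, map_pow,
            map_mul, map_pow, map_mul, map_pow, map_pow]
          rfl
        rw [h1]
        exact hmon b i j
  have hcount : ∀ F : ℕ → ℕ, ∑ i, F (a i) = ∑ x ∈ Finset.Ico 1 (q + 1), F x +
      ∑ x ∈ Finset.Ico 1 (q - 1 + 1), F x := by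
    intro F
    rw [Fintype.sum_sum_type, ← G3_sum, ← G3_sum, ← Fin.sum_univ_eq_sum_range (fun w => F (q - w)),
      ← Fin.sum_univ_eq_sum_range (fun w => F (q - 1 - w))]
    rfl
  have hdim : finrank k (∀ i, TP B (a i)) = finrank k (TP (TP B q) q) := by
    rw [Module.finrank_pi_fintype, finrank_TP, finrank_TP]
    simp_rw [finrank_TP]
    rw [← Finset.sum_mul, hcount (fun x => x), G3_gauss, mul_assoc]
  have hinj : Function.Injective Φ :=
    (LinearMap.injective_iff_surjective_of_finrank_eq_finrank hdim).mpr hsurj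
  -- the kernels
  have hker : finrank k (LinearMap.ker (LinearMap.mulLeft k (e ^ t))) =
      ∑ i, finrank k (LinearMap.ker (LinearMap.mulLeft k ((ty B (a i) + tc (a i) z) ^ t))) := by
    rw [← Module.finrank_pi_fintype]
    symm
    let Ψ : (∀ i, LinearMap.ker (LinearMap.mulLeft k ((ty B (a i) + tc (a i) z) ^ t))) →ₗ[k]
        LinearMap.ker (LinearMap.mulLeft k (e ^ t)) :=
      LinearMap.codRestrict _ (Φ ∘ₗ LinearMap.pi fun i =>
        (LinearMap.ker (LinearMap.mulLeft k ((ty B (a i) + tc (a i) z) ^ t))).subtype ∘ₗ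
          LinearMap.proj i) (by
        intro f
        rw [LinearMap.mem_ker, LinearMap.comp_apply, hΦ, LinearMap.mulLeft_apply, Finset.mul_sum]
        refine Finset.sum_eq_zero fun i _ => ?_
        rw [← hmul']
        have h1 := (f i).2
        rw [LinearMap.mem_ker, LinearMap.mulLeft_apply] at h1
        change φ i ((ty B (a i) + tc (a i) z) ^ t * (f i : TP B (a i))) = 0
        rw [h1, map_zero])
    have hΨ : ∀ f, (Ψ f : TP (TP B q) q) = Φ (fun i => (f i : TP B (a i))) := fun f => rfl
    refine (LinearEquiv.ofBijective Ψ ⟨?_, ?_⟩).finrank_eq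
    · intro f f' hff
      have h1 : Φ (fun i => (f i : TP B (a i))) = Φ (fun i => (f' i : TP B (a i))) := by
        rw [← hΨ, ← hΨ, hff]
      have h2 := hinj h1
      funext i
      exact Subtype.ext (congrFun h2 i)
    · rintro ⟨r, hr⟩
      obtain ⟨f, rfl⟩ := hsurj r
      rw [LinearMap.mem_ker, LinearMap.mulLeft_apply] at hr
      have h1 : Φ (fun i => (ty B (a i) + tc (a i) z) ^ t * f i) = 0 := by
        rw [← hr, hΦ, hΦ, Finset.mul_sum]
        exact Finset.sum_congr rfl fun i _ => hmul' t i (f i)
      have h2 : (fun i => (ty B (a i) + tc (a i) z) ^ t * f i) = 0 := hinj (by rw [h1, map_zero])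
      refine ⟨fun i => ⟨f i, ?_⟩, ?_⟩
      · rw [LinearMap.mem_ker, LinearMap.mulLeft_apply]
        exact congrFun h2 i
      · apply Subtype.ext
        rw [hΨ]
  rw [G3_ker, hker]
  have hGa : ∀ x : ℕ, finrank k (LinearMap.ker (LinearMap.mulLeft k ((ty B x + tc x z) ^ t))) =
      Ga k z x t := by
    intro x
    unfold Ga
    rw [G3_ker]
  simp_rw [hGa]
  rw [hcount (fun x => Ga k z x t)]
  rcases Nat.eq_zero_or_pos q with h0 | h0
  · have h1 : Ga k z q t = 0 := by
      have h2 : Ga k z q t ≤ finrank k (TP B q) := co_le _ _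
      rw [finrank_TP, h0, zero_mul] at h2
      rw [h0]
      exact Nat.le_zero.mp h2
    rw [h1]
    subst h0
    simp
  · rw [Nat.sub_add_cancel h0, Finset.sum_Ico_succ_top (by omega)]
    ring

end Pool.Agent.Lib.MP_1bbd88_ag.T
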