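import Pool.Agent.Lib.MP_1bbd88_ag.T.G0

set_option autoImplicit false

namespace Pool.Agent.Lib.MP_1bbd88_ag.T

open Module Polynomial Pool.Agent.Lib.MP_1bbd88_ag.S

variable {k B : Type*} [Field k] [CommRing B] [Algebra k B] [FiniteDimensional k B]

private noncomputable def G4_ev (f : B[X]) : B[X] := contract 2 f

private noncomputable def G4_od (f : B[X]) : B[X] := contract 2 (divX f)

omit [FiniteDimensional k B] in
private theorem G4_uniq {a b a' b' : B[X]}
    (h : expand B 2 a + X * expand B 2 b = expand B 2 a' + X * expand B 2 b') : a = a' ∧ b = b' := by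
  have key : ∀ (u v : B[X]) (n : ℕ), (expand B 2 u + X * expand B 2 v).coeff (2 * n) = u.coeff n ∧
      (expand B 2 u + X * expand B 2 v).coeff (2 * n + 1) = v.coeff n := by
    intro u v n
    constructor
    · rw [coeff_add, mul_comm 2 n, coeff_expand_mul (by norm_num)]
      rcases n with _ | n
      · simp
      · have e : (n + 1) * 2 = (2 * n + 1) + 1 := by ring
        rw [e, coeff_X_mul, coeff_expand (by norm_num), if_neg (by omega), add_zero]
    · rw [coeff_add, coeff_X_mul, mul_comm 2 n, coeff_expand_mul (by norm_num),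
        coeff_expand (by norm_num), if_neg (by omega), zero_add]
  constructor
  · ext n
    rw [← (key a b n).1, h, (key a' b' n).1]
  · ext n
    rw [← (key a b n).2, h, (key a' b' n).2]

omit [FiniteDimensional k B] in
private theorem G4_split (f : B[X]) :
    f = expand B 2 (G4_ev f) + X * expand B 2 (G4_od f) := by
  ext n
  rcases Nat.even_or_odd' n with ⟨m, rfl | rfl⟩
  · rw [coeff_add, mul_comm 2 m, coeff_expand_mul (by norm_num)]
    unfold G4_ev
    rw [coeff_contract (by norm_num)]
    rcases m with _ | m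
    · simp
    · have e : (m + 1) * 2 = (2 * m + 1) + 1 := by ring
      rw [e, coeff_X_mul, coeff_expand (by norm_num), if_neg (by omega), add_zero]
  · rw [coeff_add, coeff_X_mul, mul_comm 2 m, coeff_expand_mul (by norm_num),
      coeff_expand (by norm_num), if_neg (by omega), zero_add]
    unfold G4_od
    rw [coeff_contract (by norm_num), coeff_divX]

omit [FiniteDimensional k B] in
private theorem G4_eq {f a b : B[X]} (h : f = expand B 2 a + X * expand B 2 b) :
    G4_ev f = a ∧ G4_od f = b := by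
  have h1 := G4_split f
  rw [h] at h1
  have h2 := G4_uniq h1
  rw [← h] at h2
  exact ⟨h2.1.symm, h2.2.symm⟩

omit [FiniteDimensional k B] in
private theorem G4_dq (I : Ideal B[X]) (p : B[X]) :
    Nonempty (((B[X] ⧸ I) ⧸ Ideal.span {Ideal.Quotient.mk I p}) ≃ₗ[k] (B[X] ⧸ (I ⊔ Ideal.span {p}))) := by
  have e1 : Ideal.span {Ideal.Quotient.mk I p} =
      Ideal.map (Ideal.Quotient.mkₐ k I) (Ideal.span {p}) := by
    rw [Ideal.map_span, Set.image_singleton]; rfl
  exact ⟨((Ideal.quotientEquivAlgOfEq k e1).trans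
    (DoubleQuot.quotQuotEquivQuotSupₐ k I (Ideal.span {p}))).toLinearEquiv⟩

private theorem G4_Ga (z : B) (a t : ℕ) :
    Module.Finite k (B[X] ⧸ (Ideal.span {(X : B[X]) ^ a} ⊔ Ideal.span {(X + C z) ^ t})) ∧
    Ga k z a t = finrank k (B[X] ⧸ (Ideal.span {(X : B[X]) ^ a} ⊔ Ideal.span {(X + C z) ^ t})) := by
  obtain ⟨e⟩ := G4_dq (k := k) (Ideal.span {(X : B[X]) ^ a}) ((X + C z) ^ t)
  have hf : Module.Finite k (TP B a) := finite_TP a
  have e0 : (ty B a + tc a z) ^ t = Ideal.Quotient.mk (Ideal.span {(X : B[X]) ^ a}) ((X + C z) ^ t) := by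
    unfold ty tc
    rw [← map_add, ← map_pow]
  constructor
  · exact Module.Finite.equiv e
  · unfold Ga co
    rw [e0]
    exact e.finrank_eq

/-- decomposition into even and odd powers -/
theorem co_sq (z : B) (q t : ℕ) :
    co k (ty B q ^ 2 + tc q z) t = Ga k z ((q + 1) / 2) t + Ga k z (q / 2) t := by
  obtain ⟨hf0, h0⟩ := G4_Ga (k := k) z ((q + 1) / 2) t
  obtain ⟨hf1, h1⟩ := G4_Ga (k := k) z (q / 2) t
  rw [h0, h1]
  set I0 : Ideal B[X] := Ideal.span {(X : B[X]) ^ ((q + 1) / 2)} ⊔ Ideal.span {(X + C z) ^ t} with hI0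
  set I1 : Ideal B[X] := Ideal.span {(X : B[X]) ^ (q / 2)} ⊔ Ideal.span {(X + C z) ^ t} with hI1
  set I : Ideal B[X] := Ideal.span {(X : B[X]) ^ q} ⊔ Ideal.span {(X ^ 2 + C z) ^ t} with hI
  obtain ⟨e⟩ := G4_dq (k := k) (Ideal.span {(X : B[X]) ^ q}) ((X ^ 2 + C z) ^ t)
  have e0 : (ty B q ^ 2 + tc q z) ^ t =
      Ideal.Quotient.mk (Ideal.span {(X : B[X]) ^ q}) ((X ^ 2 + C z) ^ t) := by
    unfold ty tc
    rw [← map_pow, ← map_add, ← map_pow]
  have h2 : co k (ty B q ^ 2 + tc q z) t = finrank k (B[X] ⧸ I) := by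
    unfold co
    rw [e0]
    exact e.finrank_eq
  rw [h2]
  -- the linear maps
  let ev : B[X] →ₗ[k] B[X] :=
    { toFun := G4_ev
      map_add' := fun f g => by
        ext n; simp [G4_ev, coeff_contract]
      map_smul' := fun c f => by
        ext n; simp [G4_ev, coeff_contract] }
  let od : B[X] →ₗ[k] B[X] :=
    { toFun := G4_od
      map_add' := fun f g => by
        ext n; simp [G4_od, coeff_contract, coeff_divX]
      map_smul' := fun c f => by
        ext n; simp [G4_od, coeff_contract, coeff_divX] }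
  let ψ : B[X] →ₗ[k] (B[X] ⧸ I0) × (B[X] ⧸ I1) :=
    LinearMap.prod ((Ideal.Quotient.mkₐ k I0).toLinearMap ∘ₗ ev)
      ((Ideal.Quotient.mkₐ k I1).toLinearMap ∘ₗ od)
  have hψ : ∀ f, ψ f = (Ideal.Quotient.mk I0 (G4_ev f), Ideal.Quotient.mk I1 (G4_od f)) :=
    fun f => rfl
  have hexp : expand B 2 (X + C z) = X ^ 2 + C z := by
    rw [map_add, expand_X, expand_C]
  have hXq0 : ∀ a : B[X], X ^ ((q + 1) / 2) * a ∈ I0 := fun a =>
    Ideal.mul_mem_right _ _ (Ideal.mem_sup_left (Ideal.mem_span_singleton_self _))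
  have hXq1 : ∀ a : B[X], X ^ (q / 2) * a ∈ I1 := fun a =>
    Ideal.mul_mem_right _ _ (Ideal.mem_sup_left (Ideal.mem_span_singleton_self _))
  have hker : LinearMap.ker ψ = I.restrictScalars k := by
    ext f
    rw [LinearMap.mem_ker, hψ, Prod.mk_eq_zero, Ideal.Quotient.eq_zero_iff_mem,
      Ideal.Quotient.eq_zero_iff_mem, Submodule.restrictScalars_mem]
    constructor
    · rintro ⟨he, ho⟩
      have hIe : ∀ a : B[X], a ∈ I0 → expand B 2 a ∈ I := by
        intro a ha
        obtain ⟨u, hu, v, hv, rfl⟩ := Submodule.mem_sup.1 ha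
        obtain ⟨u', rfl⟩ := Ideal.mem_span_singleton.1 hu
        obtain ⟨v', rfl⟩ := Ideal.mem_span_singleton.1 hv
        rw [map_add, map_mul, map_mul, map_pow, map_pow, expand_X, hexp, ← pow_mul]
        refine I.add_mem (Ideal.mul_mem_right _ _ (Ideal.mem_sup_left ?_))
          (Ideal.mul_mem_right _ _ (Ideal.mem_sup_right (Ideal.mem_span_singleton_self _)))
        exact Ideal.mem_span_singleton.2 (pow_dvd_pow X (by omega))
      have hIo : ∀ a : B[X], a ∈ I1 → X * expand B 2 a ∈ I := by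
        intro a ha
        obtain ⟨u, hu, v, hv, rfl⟩ := Submodule.mem_sup.1 ha
        obtain ⟨u', rfl⟩ := Ideal.mem_span_singleton.1 hu
        obtain ⟨v', rfl⟩ := Ideal.mem_span_singleton.1 hv
        rw [map_add, map_mul, map_mul, map_pow, map_pow, expand_X, hexp, ← pow_mul, mul_add,
          ← mul_assoc, ← pow_succ', ← mul_assoc, mul_comm X, mul_assoc]
        refine I.add_mem (Ideal.mul_mem_right _ _ (Ideal.mem_sup_left ?_))
          (Ideal.mul_mem_right _ _ (Ideal.mem_sup_right (Ideal.mem_span_singleton_self _)))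
        exact Ideal.mem_span_singleton.2 (pow_dvd_pow X (by omega))
      rw [G4_split f]
      exact I.add_mem (hIe _ he) (hIo _ ho)
    · intro hf
      obtain ⟨u, hu, v, hv, rfl⟩ := Submodule.mem_sup.1 hf
      obtain ⟨a, rfl⟩ := Ideal.mem_span_singleton.1 hu
      obtain ⟨b, rfl⟩ := Ideal.mem_span_singleton.1 hv
      have hb : (X ^ 2 + C z) ^ t * b = expand B 2 ((X + C z) ^ t * G4_ev b) +
          X * expand B 2 ((X + C z) ^ t * G4_od b) := by
        conv_lhs => rw [G4_split b]
        rw [map_mul, map_mul, map_pow, hexp]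
        ring
      obtain ⟨hb1, hb2⟩ := G4_eq hb
      rcases Nat.even_or_odd' q with ⟨m, hm | hm⟩
      · have ha : X ^ q * a = expand B 2 (X ^ m * G4_ev a) + X * expand B 2 (X ^ m * G4_od a) := by
          conv_lhs => rw [G4_split a]
          rw [map_mul, map_mul, map_pow, expand_X, hm, pow_mul]
          ring
        obtain ⟨h3, h4⟩ := G4_eq (show X ^ q * a + (X ^ 2 + C z) ^ t * b =
          expand B 2 (X ^ m * G4_ev a + (X + C z) ^ t * G4_ev b) +
          X * expand B 2 (X ^ m * G4_od a + (X + C z) ^ t * G4_od b) by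
            rw [ha, hb, map_add, map_add]; ring)
        rw [h3, h4]
        have q1 : (q + 1) / 2 = m := by omega
        have q2 : q / 2 = m := by omega
        rw [q1] at hXq0
        rw [q2] at hXq1
        exact ⟨I0.add_mem (hXq0 _) (Ideal.mul_mem_right _ _ (Ideal.mem_sup_right
            (Ideal.mem_span_singleton_self _))),
          I1.add_mem (hXq1 _) (Ideal.mul_mem_right _ _ (Ideal.mem_sup_right
            (Ideal.mem_span_singleton_self _)))⟩
      · have ha : X ^ q * a = expand B 2 (X ^ (m + 1) * G4_od a) +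
            X * expand B 2 (X ^ m * G4_ev a) := by
          conv_lhs => rw [G4_split a]
          rw [map_mul, map_mul, map_pow, map_pow, expand_X, hm]
          ring
        obtain ⟨h3, h4⟩ := G4_eq (show X ^ q * a + (X ^ 2 + C z) ^ t * b =
          expand B 2 (X ^ (m + 1) * G4_od a + (X + C z) ^ t * G4_ev b) +
          X * expand B 2 (X ^ m * G4_ev a + (X + C z) ^ t * G4_od b) by
            rw [ha, hb, map_add, map_add]; ring)
        rw [h3, h4]
        have q1 : (q + 1) / 2 = m + 1 := by omega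
        have q2 : q / 2 = m := by omega
        rw [q1] at hXq0
        rw [q2] at hXq1
        exact ⟨I0.add_mem (hXq0 _) (Ideal.mul_mem_right _ _ (Ideal.mem_sup_right
            (Ideal.mem_span_singleton_self _))),
          I1.add_mem (hXq1 _) (Ideal.mul_mem_right _ _ (Ideal.mem_sup_right
            (Ideal.mem_span_singleton_self _)))⟩
  have hsurj : Function.Surjective ψ := by
    rintro ⟨x, y⟩
    obtain ⟨a, rfl⟩ := Ideal.Quotient.mk_surjective x
    obtain ⟨b, rfl⟩ := Ideal.Quotient.mk_surjective y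
    refine ⟨expand B 2 a + X * expand B 2 b, ?_⟩
    obtain ⟨h3, h4⟩ := G4_eq (rfl : expand B 2 a + X * expand B 2 b = expand B 2 a + X * expand B 2 b)
    rw [hψ, h3, h4]
  have E : (B[X] ⧸ I) ≃ₗ[k] (B[X] ⧸ I0) × (B[X] ⧸ I1) :=
    (Submodule.Quotient.restrictScalarsEquiv k I).symm.trans
      ((Submodule.quotEquivOfEq _ _ hker.symm).trans (ψ.quotKerEquivOfSurjective hsurj))
  rw [E.finrank_eq, Module.finrank_prod]

end Pool.Agent.Lib.MP_1bbd88_ag.T
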