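import Pool.Agent.Lib.MP_1bbd88_ag.T.G0

set_option autoImplicit false

namespace Pool.Agent.Lib.MP_1bbd88_ag.T

open Module Polynomial Pool.Agent.Lib.MP_1bbd88_ag.S

variable {k B : Type*} [Field k] [CommRing B] [Algebra k B] [FiniteDimensional k B]

/-- the map from a quotient to a smaller quotient -/
private theorem G5_quot_le {A : Type*} [CommRing A] [Algebra k A] {I J : Ideal A} (h : I ≤ J)
    [Module.Finite k (A ⧸ I)] : finrank k (A ⧸ J) ≤ finrank k (A ⧸ I) := by
  have hs : Function.Surjective (Ideal.quotientMapₐ (R₁ := k) J (AlgHom.id k A)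
      (show I ≤ J.comap (AlgHom.id k A) from fun x hx => h hx)) := by
    intro x
    obtain ⟨a, rfl⟩ := Ideal.Quotient.mk_surjective x
    exact ⟨Ideal.Quotient.mk I a, rfl⟩
  exact LinearMap.finrank_le_finrank_of_surjective (f := (Ideal.quotientMapₐ (R₁ := k) J
    (AlgHom.id k A) (show I ≤ J.comap (AlgHom.id k A) from fun x hx => h hx)).toLinearMap) hs

private theorem G5_finite (a : ℕ) (J : Ideal B[X]) :
    Module.Finite k (B[X] ⧸ (Ideal.span {(X : B[X]) ^ a} ⊔ J)) := by
  have := finite_TP (k := k) (B := B) a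
  exact Module.Finite.equiv
    (DoubleQuot.quotQuotEquivQuotSupₐ k (Ideal.span {(X : B[X]) ^ a}) J).toLinearEquiv

private theorem G5_Ga (z : B) (a t : ℕ) : Ga k z a t =
    finrank k (B[X] ⧸ (Ideal.span {(X : B[X]) ^ a} ⊔ Ideal.span {((X : B[X]) + C z) ^ t})) := by
  rw [← (DoubleQuot.quotQuotEquivQuotSupₐ k (Ideal.span {(X : B[X]) ^ a})
    (Ideal.span {((X : B[X]) + C z) ^ t})).toLinearEquiv.finrank_eq]
  unfold Ga co ty tc
  have h : Ideal.span {((Ideal.Quotient.mk (Ideal.span {(X : B[X]) ^ a}) X : TP B a) +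
      Ideal.Quotient.mk (Ideal.span {(X : B[X]) ^ a}) (C z)) ^ t} =
      (Ideal.span {((X : B[X]) + C z) ^ t}).map
        (Ideal.Quotient.mkₐ k (Ideal.span {(X : B[X]) ^ a})) := by
    rw [Ideal.map_span, Set.image_singleton, map_pow, map_add]
    rfl
  rw [h]

private theorem G5_co (z : B) (a N : ℕ) : a * co k z N =
    finrank k (B[X] ⧸ (Ideal.span {(X : B[X]) ^ a} ⊔ Ideal.span {(C z : B[X]) ^ N})) := by
  set J : Ideal B := Ideal.span {z ^ N} with hJ
  have h1 : finrank k (TP (B ⧸ J) a) = a * co k z N := finrank_TP (k := k) (B := B ⧸ J) a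
  rw [← h1]
  -- the map `B[X] → TP (B ⧸ J) a`
  set ψ : B[X] →ₐ[k] TP (B ⧸ J) a := (Ideal.Quotient.mkₐ k (Ideal.span {(X : (B ⧸ J)[X]) ^ a})).comp
    (mapAlgHom (Ideal.Quotient.mkₐ k J)) with hψ
  have hψa : ∀ f : B[X], ψ f = Ideal.Quotient.mk (Ideal.span {(X : (B ⧸ J)[X]) ^ a})
      (f.map (Ideal.Quotient.mk J)) := fun f => rfl
  have hsur : Function.Surjective ψ := by
    intro y
    obtain ⟨g, rfl⟩ := Ideal.Quotient.mk_surjective y
    obtain ⟨f, hf⟩ := Polynomial.map_surjective (Ideal.Quotient.mk J)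
      Ideal.Quotient.mk_surjective g
    exact ⟨f, by rw [hψa, hf]⟩
  have hker : RingHom.ker ψ = Ideal.span {(X : B[X]) ^ a} ⊔ Ideal.span {(C z : B[X]) ^ N} := by
    apply le_antisymm
    · intro f hf
      have h2 : ψ f = 0 := hf
      rw [hψa, Ideal.Quotient.eq_zero_iff_mem, Ideal.mem_span_singleton, X_pow_dvd_iff] at h2
      rw [f.as_sum_range_C_mul_X_pow]
      refine Ideal.sum_mem _ fun i _ => ?_
      by_cases hi : i < a
      · have h3 := h2 i hi
        rw [coeff_map, Ideal.Quotient.eq_zero_iff_mem, hJ, Ideal.mem_span_singleton] at h3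
        obtain ⟨c, hc⟩ := h3
        rw [hc]
        apply Ideal.mem_sup_right
        apply Ideal.mul_mem_right
        rw [C_mul, C_pow]
        exact Ideal.mul_mem_right _ _ (Ideal.mem_span_singleton_self _)
      · apply Ideal.mem_sup_left
        apply Ideal.mul_mem_left
        rw [Ideal.mem_span_singleton]
        exact pow_dvd_pow _ (not_lt.1 hi)
    · apply sup_le
      · rw [Ideal.span_singleton_le_iff_mem]
        show ψ (X ^ a) = 0
        rw [hψa, Polynomial.map_pow, map_X, Ideal.Quotient.eq_zero_iff_mem]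
        exact Ideal.mem_span_singleton_self _
      · rw [Ideal.span_singleton_le_iff_mem]
        show ψ (C z ^ N) = 0
        rw [hψa, ← C_pow, map_C]
        have h4 : Ideal.Quotient.mk J (z ^ N) = 0 := by
          rw [Ideal.Quotient.eq_zero_iff_mem, hJ]
          exact Ideal.mem_span_singleton_self _
        rw [h4, C_0, map_zero]
  rw [← hker]
  exact (Ideal.quotientKerAlgEquivOfSurjective hsur).toLinearEquiv.finrank_eq.symm

theorem Ga_le (z : B) (a t : ℕ) (ha : 1 ≤ a) : Ga k z a t ≤ a * co k z (t + a - 1) := by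
  rw [G5_Ga, G5_co]
  have := G5_finite (k := k) (B := B) a (Ideal.span {(C z : B[X]) ^ (t + a - 1)})
  apply G5_quot_le
  refine sup_le le_sup_left ?_
  rw [Ideal.span_singleton_le_iff_mem]
  have h2 : (C z : B[X]) ^ (t + a - 1) = (((X : B[X]) + C z) + (-(X : B[X]))) ^ (t + a - 1) := by
    congr 1
    ring
  rw [h2, add_pow ((X : B[X]) + C z) (-(X : B[X]))]
  refine Ideal.sum_mem _ fun m hm => ?_
  apply Ideal.mul_mem_right
  by_cases hmt : t ≤ m
  · apply Ideal.mem_sup_right
    apply Ideal.mul_mem_right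
    rw [Ideal.mem_span_singleton]
    exact pow_dvd_pow _ hmt
  · apply Ideal.mem_sup_left
    apply Ideal.mul_mem_left
    rw [Ideal.mem_span_singleton, neg_pow]
    apply Dvd.dvd.mul_left
    exact pow_dvd_pow _ (by omega)

theorem le_Ga (z : B) (a t : ℕ) : a * co k z (t + 1 - a) ≤ Ga k z a t := by
  rw [G5_Ga, G5_co]
  have := G5_finite (k := k) (B := B) a (Ideal.span {((X : B[X]) + C z) ^ t})
  apply G5_quot_le
  refine sup_le le_sup_left ?_
  rw [Ideal.span_singleton_le_iff_mem, add_pow]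
  refine Ideal.sum_mem _ fun m hm => ?_
  have hm' : m < t + 1 := Finset.mem_range.1 hm
  apply Ideal.mul_mem_right
  by_cases hma : a ≤ m
  · apply Ideal.mem_sup_left
    apply Ideal.mul_mem_right
    rw [Ideal.mem_span_singleton]
    exact pow_dvd_pow _ hma
  · apply Ideal.mem_sup_right
    apply Ideal.mul_mem_left
    rw [Ideal.mem_span_singleton]
    exact pow_dvd_pow _ (by omega)

theorem Ga_mono (z : B) (a t : ℕ) : Ga k z a t ≤ Ga k z (a + 1) t := by
  rw [G5_Ga, G5_Ga]
  have := G5_finite (k := k) (B := B) (a + 1) (Ideal.span {((X : B[X]) + C z) ^ t})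
  apply G5_quot_le
  refine sup_le (le_sup_of_le_left ?_) le_sup_right
  rw [Ideal.span_singleton_le_span_singleton]
  exact pow_dvd_pow _ (Nat.le_succ a)

theorem Ga_succ_le (z : B) (a t : ℕ) : Ga k z (a + 1) t ≤ Ga k z a t + finrank k B := by
  rw [G5_Ga, G5_Ga]
  set I : Ideal B[X] := Ideal.span {(X : B[X]) ^ (a + 1)} ⊔ Ideal.span {((X : B[X]) + C z) ^ t}
    with hI
  set J : Ideal B[X] := Ideal.span {(X : B[X]) ^ a} ⊔ Ideal.span {((X : B[X]) + C z) ^ t} with hJ
  have : Module.Finite k (B[X] ⧸ I) :=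
    G5_finite (k := k) (B := B) (a + 1) (Ideal.span {((X : B[X]) + C z) ^ t})
  have hIJ : I ≤ J := by
    refine sup_le (le_sup_of_le_left ?_) le_sup_right
    rw [Ideal.span_singleton_le_span_singleton]
    exact pow_dvd_pow _ (Nat.le_succ a)
  set π : (B[X] ⧸ I) →ₐ[k] (B[X] ⧸ J) := Ideal.quotientMapₐ (R₁ := k) J (AlgHom.id k B[X])
    (show I ≤ J.comap (AlgHom.id k B[X]) from fun x hx => hIJ hx) with hπ
  have hπa : ∀ f : B[X], π (Ideal.Quotient.mk I f) = Ideal.Quotient.mk J f := fun f => rfl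
  have hs : Function.Surjective π := by
    intro x
    obtain ⟨b, rfl⟩ := Ideal.Quotient.mk_surjective x
    exact ⟨Ideal.Quotient.mk I b, rfl⟩
  -- the map `b ↦ b X ^ a`
  let β : B →ₗ[k] (B[X] ⧸ I) :=
    (LinearMap.mulRight k (Ideal.Quotient.mk I ((X : B[X]) ^ a))).comp
      ((Ideal.Quotient.mkₐ k I).toLinearMap.comp (CAlgHom (R := k) (A := B)).toLinearMap)
  have hβ : ∀ b : B, β b = Ideal.Quotient.mk I (C b) * Ideal.Quotient.mk I (X ^ a) := fun b => rfl
  have hker : LinearMap.ker π.toLinearMap ≤ LinearMap.range β := by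
    intro q hq
    obtain ⟨f, rfl⟩ := Ideal.Quotient.mk_surjective q
    have h1 : π (Ideal.Quotient.mk I f) = 0 := hq
    rw [hπa, Ideal.Quotient.eq_zero_iff_mem, hJ, Submodule.mem_sup] at h1
    obtain ⟨u, hu, v, hv, huv⟩ := h1
    rw [Ideal.mem_span_singleton] at hu
    obtain ⟨g, hg⟩ := hu
    refine ⟨g.coeff 0, ?_⟩
    rw [hβ, ← map_mul, Ideal.Quotient.eq]
    have h2 : C (g.coeff 0) * X ^ a - f = -(X ^ (a + 1) * g.divX) - v := by
      have h3 : g = g.divX * X + C (g.coeff 0) := (divX_mul_X_add g).symm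
      have h4 : f = X ^ a * g + v := by rw [← hg, huv]
      rw [h4]
      conv_lhs => rw [h3]
      simp only [coeff_add, mul_coeff_zero, coeff_X_zero, mul_zero, coeff_C_zero, zero_add]
      ring
    rw [h2]
    refine Ideal.sub_mem _ (Ideal.neg_mem_iff _ |>.2 ?_) ?_
    · apply Ideal.mem_sup_left
      exact Ideal.mul_mem_right _ _ (Ideal.mem_span_singleton_self _)
    · exact Ideal.mem_sup_right hv
  have h1 := LinearMap.finrank_range_add_finrank_ker π.toLinearMap
  have h2 : finrank k (LinearMap.range π.toLinearMap) = finrank k (B[X] ⧸ J) := by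
    rw [LinearMap.range_eq_top.2 hs, finrank_top]
  have h3 : finrank k (LinearMap.ker π.toLinearMap) ≤ finrank k (LinearMap.range β) :=
    Submodule.finrank_mono hker
  have h4 : finrank k (LinearMap.range β) ≤ finrank k B := LinearMap.finrank_range_le β
  omega

end Pool.Agent.Lib.MP_1bbd88_ag.T
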