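import Pool.Agent.Lib.MP_1bbd88_ag.T.G1
import Pool.Agent.Lib.MP_1bbd88_ag.T.G3
import Pool.Agent.Lib.MP_1bbd88_ag.T.G4

set_option autoImplicit false

namespace Pool.Agent.Lib.MP_1bbd88_ag.T

open Module Polynomial Pool.Agent.Lib.MP_1bbd88_ag.S

variable {k : Type*} [Field k]

/-- the constants as a ring homomorphism -/
noncomputable def G7_tcH {B : Type*} [CommRing B] (a : ℕ) : B →+* TP B a :=
  (Ideal.Quotient.mk (Ideal.span {(X : B[X]) ^ a})).comp C

theorem G7_tc {B : Type*} [CommRing B] (a : ℕ) (b : B) : tc a b = G7_tcH a b := rfl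

/-- truncated polynomial rings of isomorphic rings -/
theorem G7_tp {B B' : Type*} [CommRing B] [Algebra k B] [CommRing B'] [Algebra k B']
    (φ : B ≃ₐ[k] B') (a : ℕ) : ∃ Φ : TP B a ≃ₐ[k] TP B' a,
      (∀ b, Φ (tc a b) = tc a (φ b)) ∧ Φ (ty B a) = ty B' a := by
  have h1 : (Polynomial.mapAlgEquiv φ) (X : B[X]) = X := by
    simp [Polynomial.mapAlgEquiv]
  have h2 : ∀ b : B, (Polynomial.mapAlgEquiv φ) (C b) = C (φ b) := by
    intro b
    simp [Polynomial.mapAlgEquiv]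
  have hI : Ideal.span {(X : B'[X]) ^ a} =
      Ideal.map (Polynomial.mapAlgEquiv φ : B[X] →+* B'[X]) (Ideal.span {(X : B[X]) ^ a}) := by
    rw [Ideal.map_span, Set.image_singleton]
    congr 1
    congr 1
    show (X : B'[X]) ^ a = (Polynomial.mapAlgEquiv φ) ((X : B[X]) ^ a)
    rw [map_pow, h1]
  refine ⟨Ideal.quotientEquivAlg _ _ (Polynomial.mapAlgEquiv φ) hI, fun b => ?_, ?_⟩
  · show Ideal.Quotient.mk _ ((Polynomial.mapAlgEquiv φ) (C b)) = _
    rw [h2]
    rfl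
  · show Ideal.Quotient.mk _ ((Polynomial.mapAlgEquiv φ) X) = _
    rw [h1]
    rfl

theorem G7_map_sq {d q : ℕ} (φ : W (d + 1) q k ≃ₐ[k] TP (W d q k) q)
    (h : ∀ i : Fin d, φ (wx (d + 1) q k i.castSucc) = tc q (wx d q k i)) :
    φ (∑ i : Fin d, wx (d + 1) q k i.castSucc ^ 2) = tc q (sq k d q) := by
  rw [map_sum, sq, G7_tc, map_sum]
  refine Finset.sum_congr rfl fun i _ => ?_
  rw [map_pow, map_pow, h, G7_tc]

/-- splitting off one variable -/
theorem ph_succ (d q t : ℕ) :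
    ph k (d + 1) q t = Ga k (sq k d q) ((q + 1) / 2) t + Ga k (sq k d q) (q / 2) t := by
  obtain ⟨φ, h1, h2⟩ := exists_succ (k := k) d q
  rw [← co_sq, ph, ← co_congr φ]
  congr 1
  rw [sq, Fin.sum_univ_castSucc, map_add, G7_map_sq φ h1, map_pow, h2, add_comm]

theorem G7_ext {A : Type*} [CommRing A] [Algebra k A] (m q : ℕ) {φ ψ : W m q k →ₐ[k] A}
    (h : ∀ i, φ (wx m q k i) = ψ (wx m q k i)) : φ = ψ := by
  apply Ideal.Quotient.algHom_ext
  apply MvPolynomial.algHom_ext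
  intro i
  exact h i

/-- the linear change of the last two variables -/
noncomputable def G7_w (d q : ℕ) (a b c e : k) (i : Fin (d + 2)) : W (d + 2) q k :=
  Fin.lastCases (c • wx (d + 2) q k (Fin.last d).castSucc + e • wx (d + 2) q k (Fin.last (d + 1)))
    (fun i => Fin.lastCases
      (a • wx (d + 2) q k (Fin.last d).castSucc + b • wx (d + 2) q k (Fin.last (d + 1)))
      (fun i => wx (d + 2) q k i.castSucc.castSucc) i) i

theorem G7_w_last (d q : ℕ) (a b c e : k) : G7_w d q a b c e (Fin.last (d + 1)) =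
    c • wx (d + 2) q k (Fin.last d).castSucc + e • wx (d + 2) q k (Fin.last (d + 1)) := by
  rw [G7_w, Fin.lastCases_last]

theorem G7_w_mid (d q : ℕ) (a b c e : k) : G7_w d q a b c e (Fin.last d).castSucc =
    a • wx (d + 2) q k (Fin.last d).castSucc + b • wx (d + 2) q k (Fin.last (d + 1)) := by
  rw [G7_w, Fin.lastCases_castSucc, Fin.lastCases_last]

theorem G7_w_low (d q : ℕ) (a b c e : k) (i : Fin d) : G7_w d q a b c e i.castSucc.castSucc =
    wx (d + 2) q k i.castSucc.castSucc := by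
  rw [G7_w, Fin.lastCases_castSucc, Fin.lastCases_castSucc]

theorem G7_wx_mem (m q : ℕ) (i : Fin m) : wx m q k i ∈ wm m q k :=
  Ideal.subset_span (Set.mem_range_self i)

theorem G7_smul_mem {m q : ℕ} (c : k) {x : W m q k} (h : x ∈ wm m q k) : c • x ∈ wm m q k := by
  exact Submodule.smul_of_tower_mem (wm m q k) c h

theorem G7_hom {p : ℕ} [Fact p.Prime] [CharP k p] (d f : ℕ) (a b c e : k) :
    ∃ φ : W (d + 2) (p ^ f) k →ₐ[k] W (d + 2) (p ^ f) k,
      φ (wx (d + 2) (p ^ f) k (Fin.last (d + 1))) =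
        c • wx (d + 2) (p ^ f) k (Fin.last d).castSucc + e • wx (d + 2) (p ^ f) k (Fin.last (d + 1)) ∧
      φ (wx (d + 2) (p ^ f) k (Fin.last d).castSucc) =
        a • wx (d + 2) (p ^ f) k (Fin.last d).castSucc + b • wx (d + 2) (p ^ f) k (Fin.last (d + 1)) ∧
      ∀ i : Fin d, φ (wx (d + 2) (p ^ f) k i.castSucc.castSucc) =
        wx (d + 2) (p ^ f) k i.castSucc.castSucc := by
  obtain ⟨φ, hφ⟩ := CC_hom (d + 2) f (G7_w d (p ^ f) a b c e) (by
    intro i
    refine Fin.lastCases ?_ (fun i => ?_) i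
    · rw [G7_w_last]
      exact Ideal.add_mem _ (G7_smul_mem c (G7_wx_mem _ _ _)) (G7_smul_mem e (G7_wx_mem _ _ _))
    · refine Fin.lastCases ?_ (fun i => ?_) i
      · rw [G7_w_mid]
        exact Ideal.add_mem _ (G7_smul_mem a (G7_wx_mem _ _ _)) (G7_smul_mem b (G7_wx_mem _ _ _))
      · rw [G7_w_low]
        exact G7_wx_mem _ _ _)
  refine ⟨φ, ?_, ?_, fun i => ?_⟩
  · rw [hφ, G7_w_last]
  · rw [hφ, G7_w_mid]
  · rw [hφ, G7_w_low]

/-- the change of variables as an automorphism -/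
theorem G7_equiv {p : ℕ} [Fact p.Prime] [CharP k p] (hp : p ≠ 2) {ι : k} (hι : ι ^ 2 = -1) (d f : ℕ) :
    ∃ θ : W (d + 2) (p ^ f) k ≃ₐ[k] W (d + 2) (p ^ f) k,
      θ (wx (d + 2) (p ^ f) k (Fin.last (d + 1))) =
        wx (d + 2) (p ^ f) k (Fin.last d).castSucc - ι • wx (d + 2) (p ^ f) k (Fin.last (d + 1)) ∧
      θ (wx (d + 2) (p ^ f) k (Fin.last d).castSucc) =
        wx (d + 2) (p ^ f) k (Fin.last d).castSucc + ι • wx (d + 2) (p ^ f) k (Fin.last (d + 1)) ∧
      ∀ i : Fin d, θ (wx (d + 2) (p ^ f) k i.castSucc.castSucc) =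
        wx (d + 2) (p ^ f) k i.castSucc.castSucc := by
  have h2 : (2 : k) ≠ 0 := by
    intro h
    have h3 : ((2 : ℕ) : k) = 0 := by exact_mod_cast h
    rw [CharP.cast_eq_zero_iff k p] at h3
    have h4 := (Nat.prime_dvd_prime_iff_eq (Fact.out : p.Prime) Nat.prime_two).1 h3
    exact hp h4
  have hι0 : ι ≠ 0 := by
    rintro rfl
    rw [zero_pow two_ne_zero] at hι
    exact one_ne_zero (by linear_combination hι : (1 : k) = 0)
  obtain ⟨φ, a1, a2, a3⟩ := G7_hom (k := k) (p := p) d f 1 ι 1 (-ι)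
  obtain ⟨ψ, b1, b2, b3⟩ := G7_hom (k := k) (p := p) d f (1 / 2) (1 / 2) (1 / (2 * ι)) (-(1 / (2 * ι)))
  have c1 : φ.comp ψ = AlgHom.id k _ := by
    apply G7_ext
    intro i
    refine Fin.lastCases ?_ (fun i => ?_) i
    · rw [AlgHom.comp_apply, b1, map_add, map_smul, map_smul, a1, a2, AlgHom.id_apply]
      simp only [smul_add, smul_smul]
      have e1 : 1 / (2 * ι) * 1 + -(1 / (2 * ι)) * 1 = (0 : k) := by ring
      have e2 : 1 / (2 * ι) * ι + -(1 / (2 * ι)) * -ι = (1 : k) := by field_simp; ring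
      calc _ = (1 / (2 * ι) * 1 + -(1 / (2 * ι)) * 1) • wx (d + 2) (p ^ f) k (Fin.last d).castSucc +
            (1 / (2 * ι) * ι + -(1 / (2 * ι)) * -ι) • wx (d + 2) (p ^ f) k (Fin.last (d + 1)) := by
            rw [add_smul, add_smul]
            abel
        _ = _ := by rw [e1, e2, zero_smul, one_smul, zero_add]
    · refine Fin.lastCases ?_ (fun i => ?_) i
      · rw [AlgHom.comp_apply, b2, map_add, map_smul, map_smul, a1, a2, AlgHom.id_apply]
        simp only [smul_add, smul_smul]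
        have e1 : 1 / 2 * 1 + 1 / 2 * 1 = (1 : k) := by field_simp; ring
        have e2 : 1 / 2 * ι + 1 / 2 * -ι = (0 : k) := by ring
        calc _ = (1 / 2 * 1 + 1 / 2 * 1 : k) • wx (d + 2) (p ^ f) k (Fin.last d).castSucc +
              (1 / 2 * ι + 1 / 2 * -ι : k) • wx (d + 2) (p ^ f) k (Fin.last (d + 1)) := by
              rw [add_smul, add_smul]
              abel
          _ = _ := by rw [e1, e2, zero_smul, one_smul, add_zero]
      · rw [AlgHom.comp_apply, b3, a3, AlgHom.id_apply]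
  have c2 : ψ.comp φ = AlgHom.id k _ := by
    apply G7_ext
    intro i
    refine Fin.lastCases ?_ (fun i => ?_) i
    · rw [AlgHom.comp_apply, a1, map_add, map_smul, map_smul, b1, b2, AlgHom.id_apply]
      simp only [smul_add, smul_smul]
      have e1 : 1 * (1 / 2) + -ι * (1 / (2 * ι)) = (0 : k) := by field_simp; ring
      have e2 : 1 * (1 / 2) + -ι * -(1 / (2 * ι)) = (1 : k) := by field_simp; ring
      calc _ = (1 * (1 / 2) + -ι * (1 / (2 * ι))) • wx (d + 2) (p ^ f) k (Fin.last d).castSucc +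
            (1 * (1 / 2) + -ι * -(1 / (2 * ι))) • wx (d + 2) (p ^ f) k (Fin.last (d + 1)) := by
            rw [add_smul, add_smul]
            abel
        _ = _ := by rw [e1, e2, zero_smul, one_smul, zero_add]
    · refine Fin.lastCases ?_ (fun i => ?_) i
      · rw [AlgHom.comp_apply, a2, map_add, map_smul, map_smul, b1, b2, AlgHom.id_apply]
        simp only [smul_add, smul_smul]
        have e1 : 1 * (1 / 2) + ι * (1 / (2 * ι)) = (1 : k) := by field_simp; ring
        have e2 : 1 * (1 / 2) + ι * -(1 / (2 * ι)) = (0 : k) := by field_simp; ring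
        calc _ = (1 * (1 / 2) + ι * (1 / (2 * ι))) • wx (d + 2) (p ^ f) k (Fin.last d).castSucc +
              (1 * (1 / 2) + ι * -(1 / (2 * ι))) • wx (d + 2) (p ^ f) k (Fin.last (d + 1)) := by
              rw [add_smul, add_smul]
              abel
          _ = _ := by rw [e1, e2, zero_smul, one_smul, add_zero]
      · rw [AlgHom.comp_apply, a3, b3, AlgHom.id_apply]
  refine ⟨AlgEquiv.ofAlgHom φ ψ c1 c2, ?_, ?_, fun i => ?_⟩
  · rw [AlgEquiv.ofAlgHom_apply, a1, one_smul, neg_smul, sub_eq_add_neg]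
  · rw [AlgEquiv.ofAlgHom_apply, a2, one_smul]
  · rw [AlgEquiv.ofAlgHom_apply, a3]

theorem G7_core {ι : k} (hι : ι ^ 2 = -1) (d q t : ℕ) (θ : W (d + 2) q k ≃ₐ[k] W (d + 2) q k)
    (t1 : θ (wx (d + 2) q k (Fin.last (d + 1))) =
      wx (d + 2) q k (Fin.last d).castSucc - ι • wx (d + 2) q k (Fin.last (d + 1)))
    (t2 : θ (wx (d + 2) q k (Fin.last d).castSucc) =
      wx (d + 2) q k (Fin.last d).castSucc + ι • wx (d + 2) q k (Fin.last (d + 1)))
    (t3 : ∀ i : Fin d, θ (wx (d + 2) q k i.castSucc.castSucc) =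
      wx (d + 2) q k i.castSucc.castSucc) :
    ph k (d + 2) q t = Ga k (sq k d q) q t + 2 * ∑ a ∈ Finset.Ico 1 q, Ga k (sq k d q) a t := by
  obtain ⟨φ, h1, h2⟩ := exists_succ (k := k) (d + 1) q
  obtain ⟨φ', h1', h2'⟩ := exists_succ (k := k) d q
  obtain ⟨Φ, g1, g2⟩ := G7_tp φ' q
  have e1 : sq k (d + 2) q = θ (wx (d + 2) q k (Fin.last d).castSucc *
      wx (d + 2) q k (Fin.last (d + 1)) + ∑ i : Fin d, wx (d + 2) q k i.castSucc.castSucc ^ 2) := by
    have hθZ : θ (∑ i : Fin d, wx (d + 2) q k i.castSucc.castSucc ^ 2) =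
        ∑ i : Fin d, wx (d + 2) q k i.castSucc.castSucc ^ 2 := by
      rw [map_sum]
      refine Finset.sum_congr rfl fun i _ => ?_
      rw [map_pow, t3]
    rw [map_add, map_mul, t1, t2, hθZ, sq, Fin.sum_univ_castSucc, Fin.sum_univ_castSucc]
    have e2 : ∀ x y : W (d + 2) q k, (x + ι • y) * (x - ι • y) = x ^ 2 + y ^ 2 := by
      intro x y
      have e3 : (ι • y) * (ι • y) = -(y ^ 2) := by
        rw [smul_mul_smul_comm, ← _root_.pow_two, hι, neg_one_smul, ← _root_.pow_two]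
      calc (x + ι • y) * (x - ι • y) = x ^ 2 - (ι • y) * (ι • y) := by ring
        _ = _ := by rw [e3]; ring
    rw [e2]
    have e5 : ∀ a b c : W (d + 2) q k, a + b + c = b + c + a := fun a b c => by ring
    exact e5 _ _ _
  rw [← co_mul, ph, e1, co_congr θ, ← co_congr φ, ← co_congr Φ]
  congr 1
  have e4 : φ (∑ i : Fin d, wx (d + 2) q k i.castSucc.castSucc ^ 2) =
      tc q (∑ i : Fin d, wx (d + 1) q k i.castSucc ^ 2) := by
    rw [map_sum, G7_tc, map_sum]
    refine Finset.sum_congr rfl fun i _ => ?_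
    rw [map_pow, map_pow, h1, G7_tc]
  rw [map_add, map_mul, map_add, map_mul, h1, h2, e4, g1, g1, g2, h2', G7_map_sq φ' h1']

/-- splitting off two variables -/
theorem ph_add_two {p : ℕ} [Fact p.Prime] [CharP k p] (hp : p ≠ 2) {ι : k} (hι : ι ^ 2 = -1)
    (d e t : ℕ) : ph k (d + 2) (p ^ e) t = Ga k (sq k d (p ^ e)) (p ^ e) t +
      2 * ∑ a ∈ Finset.Ico 1 (p ^ e), Ga k (sq k d (p ^ e)) a t := by
  obtain ⟨θ, t1, t2, t3⟩ := G7_equiv (k := k) hp hι d e
  exact G7_core hι d (p ^ e) t θ t1 t2 t3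

end Pool.Agent.Lib.MP_1bbd88_ag.T
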