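import Pool.Agent.Lib.MP_1bbd88_ag.T.G2
import Pool.Agent.Lib.MP_1bbd88_ag.T.G7

set_option autoImplicit false

namespace Pool.Agent.Lib.MP_1bbd88_ag.T

open Module Polynomial Pool.Agent.Lib.MP_1bbd88_ag.S

variable {k : Type*} [Field k]

theorem G9_zero (q : ℕ) : finrank k (W 0 q k) = 1 := by
  have h0 : powI (Fin 0) k q = ⊥ := by
    rw [powI]
    rw [Set.range_eq_empty, Ideal.span_empty]
  have e1 : W 0 q k ≃ₐ[k] (MvPolynomial (Fin 0) k ⧸ (⊥ : Ideal (MvPolynomial (Fin 0) k))) :=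
    Ideal.quotientEquivAlgOfEq k h0
  have e2 : (MvPolynomial (Fin 0) k ⧸ (⊥ : Ideal (MvPolynomial (Fin 0) k))) ≃ₐ[k]
      MvPolynomial (Fin 0) k := AlgEquiv.quotientBot k (MvPolynomial (Fin 0) k)
  have e3 : MvPolynomial (Fin 0) k ≃ₐ[k] k := MvPolynomial.isEmptyAlgEquiv k (Fin 0)
  rw [((e1.trans e2).trans e3).toLinearEquiv.finrank_eq, finrank_self]

theorem finrank_W (d q : ℕ) : finrank k (W d q k) = q ^ d := by
  induction d with
  | zero => rw [G9_zero, pow_zero]
  | succ d ih =>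
    obtain ⟨φ, _⟩ := exists_succ (k := k) d q
    rw [φ.toLinearEquiv.finrank_eq, finrank_TP, ih, pow_succ, mul_comm]

theorem G9_Ga_one {B : Type*} [CommRing B] [Algebra k B] [FiniteDimensional k B] (z : B) (a : ℕ) :
    Ga k z a 1 = co k z a := by
  have h1 := finrank_add_pow (k := k) z a 1 one_pos 1 (by simp)
  rw [Finset.sum_range_one, map_one, mul_one, pow_one, Nat.sub_zero, Nat.add_sub_cancel,
    Nat.div_one] at h1
  rw [← h1, Ga, co, pow_one, add_comm]

theorem ph_one_le (d q : ℕ) : ph k (d + 1) q 1 ≤ 2 * q ^ d := by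
  rw [ph_succ, G9_Ga_one, G9_Ga_one]
  have h1 := co_le (k := k) (sq k d q) ((q + 1) / 2)
  have h2 := co_le (k := k) (sq k d q) (q / 2)
  rw [finrank_W] at h1 h2
  omega

theorem G9_co_zero {B : Type*} [CommRing B] [Algebra k B] (m : ℕ) :
    co k (0 : B) m = if m = 0 then 0 else finrank k B := by
  split_ifs with h
  · rw [h, co_zero]
  · rw [co, zero_pow h, Ideal.span_singleton_zero]
    exact (AlgEquiv.quotientBot k B).toLinearEquiv.finrank_eq

theorem G9_min {B : Type*} [CommRing B] [Algebra k B] [FiniteDimensional k B]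
    (hB : finrank k B = 1) (a t : ℕ) : Ga k (0 : B) a t = min a t := by
  rcases Nat.eq_zero_or_pos t with ht | ht
  · rw [ht, Ga, co_zero, Nat.min_zero]
  · have h1 := finrank_add_pow (k := k) (0 : B) a t ht 1 (by simp)
    have h0 : tc a (0 : B) = 0 := by
      rw [tc, map_zero, map_zero]
    rw [map_one, mul_one, h0, zero_add] at h1
    rw [Ga, co, h0, add_zero, h1]
    have h2 : ∀ j ∈ Finset.range t, co k (0 : B) ((a - j + t - 1) / t) = if j < a then 1 else 0 := by
      intro j _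
      rw [G9_co_zero, hB]
      by_cases hj : j < a
      · rw [if_pos hj, if_neg]
        have h3 : 1 ≤ (a - j + t - 1) / t := by
          rw [Nat.one_le_div_iff ht]
          omega
        omega
      · rw [if_neg hj, if_pos]
        apply Nat.div_eq_of_lt
        omega
    rw [Finset.sum_congr rfl h2, ← Finset.card_filter]
    have h4 : (Finset.range t).filter (fun j => j < a) = Finset.range (min a t) := by
      ext j
      simp only [Finset.mem_filter, Finset.mem_range, lt_min_iff]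
      exact and_comm
    rw [h4, Finset.card_range]

theorem G9_sum (t q : ℕ) (ht : 1 ≤ t) (htq : t ≤ q) :
    t + 2 * ∑ a ∈ Finset.Ico 1 q, min a t + t ^ 2 = 2 * q * t := by
  induction q, htq using Nat.le_induction with
  | base =>
    have h1 : ∑ a ∈ Finset.Ico 1 t, min a t = ∑ a ∈ Finset.Ico 1 t, a := by
      refine Finset.sum_congr rfl fun a ha => ?_
      exact min_eq_left (Finset.mem_Ico.1 ha).2.le
    have h2 : ∑ a ∈ Finset.range t, a = ∑ a ∈ Finset.Ico 1 t, a := by
      rw [Finset.range_eq_Ico, Finset.sum_eq_sum_Ico_succ_bot (by omega)]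
      simp
    have h3 := Finset.sum_range_id_mul_two t
    rw [h1, ← h2]
    obtain ⟨s, rfl⟩ : ∃ s, t = s + 1 := ⟨t - 1, by omega⟩
    rw [Nat.add_sub_cancel] at h3
    nlinarith
  | succ q hq ih =>
    rw [Finset.sum_Ico_succ_top (by omega), min_eq_right hq]
    nlinarith

theorem ph_two {p : ℕ} [Fact p.Prime] [CharP k p] (hp : p ≠ 2) {ι : k} (hι : ι ^ 2 = -1)
    (e t : ℕ) (ht : t ≤ p ^ e) : ph k 2 (p ^ e) t + t ^ 2 = 2 * p ^ e * t := by
  have h1 := ph_add_two (k := k) hp hι 0 e t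
  have h2 : sq k 0 (p ^ e) = 0 := by
    rw [sq]
    simp
  rw [zero_add, h2] at h1
  simp only [G9_min (G9_zero (k := k) (p ^ e))] at h1
  rw [h1, min_eq_right ht]
  rcases Nat.eq_zero_or_pos t with h0 | h0
  · rw [h0]
    simp
  · exact G9_sum t (p ^ e) h0 ht

theorem G9_tc_sum (d q : ℕ) {φ : W (d + 1) q k ≃ₐ[k] TP (W d q k) q}
    (hφ : ∀ i : Fin d, φ (wx (d + 1) q k i.castSucc) = tc q (wx d q k i)) :
    φ (∑ i : Fin d, wx (d + 1) q k i.castSucc ^ 2) = tc q (sq k d q) := by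
  rw [map_sum, sq]
  have h1 : tc q (∑ i, wx d q k i ^ 2) = ∑ i, tc q (wx d q k i) ^ 2 := by
    unfold tc
    rw [map_sum, map_sum]
    refine Finset.sum_congr rfl fun i _ => ?_
    rw [map_pow, map_pow]
  rw [h1]
  refine Finset.sum_congr rfl fun i _ => ?_
  rw [map_pow, hφ]

theorem G9_quot {A A' : Type*} [CommRing A] [CommRing A'] [Algebra k A] [Algebra k A']
    (φ : A ≃ₐ[k] A') (a : A) (b : A') (h : φ a = b) :
    finrank k (A ⧸ Ideal.span {a}) = finrank k (A' ⧸ Ideal.span {b}) := by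
  have h1 := co_congr φ a 1
  rw [co, co, pow_one, pow_one, h] at h1
  exact h1.symm

/-- the colength of the quadric -/
theorem Nq_eq (d q : ℕ) : Nq k (d + 1) q = D2 (ph k d q) q := by
  obtain ⟨φ, hφ1, hφ2⟩ := exists_succ (k := k) d q
  have h1 := finrank_add_pow (k := k) (sq k d q) q 2 two_pos 1 (by simp)
  rw [map_one, mul_one] at h1
  have e0 : (q - 0 + 2 - 1) / 2 = (q + 1) / 2 := by omega
  have e1 : (q - 1 + 2 - 1) / 2 = q / 2 := by omega
  rw [Nq, G9_quot φ _ (tc q (sq k d q) + ty (W d q k) q ^ 2), h1, Finset.sum_range_succ,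
    Finset.sum_range_one, e0, e1, D2, ph, ph]
  · rw [Fin.sum_univ_castSucc, map_add, G9_tc_sum d q hφ1, map_pow, hφ2]

/-- the colength of the `A_2` singularity -/
theorem cusp_eq (d q : ℕ) : finrank k (W (d + 1) q k ⧸ Ideal.span
    {∑ i : Fin d, wx (d + 1) q k i.castSucc ^ 2 + wx (d + 1) q k (Fin.last d) ^ 3}) =
      D3 (ph k d q) q := by
  obtain ⟨φ, hφ1, hφ2⟩ := exists_succ (k := k) d q
  have h1 := finrank_add_pow (k := k) (sq k d q) q 3 three_pos 1 (by simp)
  rw [map_one, mul_one] at h1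
  have e0 : (q - 0 + 3 - 1) / 3 = (q + 2) / 3 := by omega
  have e1 : (q - 1 + 3 - 1) / 3 = (q + 1) / 3 := by omega
  have e2 : (q - 2 + 3 - 1) / 3 = q / 3 := by omega
  rw [G9_quot φ _ (tc q (sq k d q) + ty (W d q k) q ^ 3), h1, Finset.sum_range_succ,
    Finset.sum_range_succ, Finset.sum_range_one, e0, e1, e2, D3, ph, ph, ph]
  · rw [map_add, G9_tc_sum d q hφ1, map_pow, hφ2]

end Pool.Agent.Lib.MP_1bbd88_ag.T
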