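import Pool.Agent.Lib.MP_1bbd88_ag.T.TDefs
import Pool.Agent.Lib.MP_1bbd88_ag.S.E3a

set_option autoImplicit false

namespace Pool.Agent.Lib.MP_1bbd88_ag.T

open Module Polynomial Pool.Agent.Lib.MP_1bbd88_ag.S

variable {k : Type*} [Field k] {p : ℕ} [Fact p.Prime] [CharP k p]

/-- products of elements of `wm` -/
private theorem H0_mem_cube (m q : ℕ) (a : W m q k) (ha : a ∈ wm m q k) (i j : Fin m) :
    a * (wx m q k i * wx m q k j) ∈ wm m q k ^ 3 := by
  have h1 : ∀ i, wx m q k i ∈ wm m q k := fun i => Ideal.subset_span ⟨i, rfl⟩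
  have h2 : wx m q k i * wx m q k j ∈ wm m q k ^ 2 := by
    rw [pow_two]
    exact Ideal.mul_mem_mul (h1 i) (h1 j)
  rw [pow_succ']
  exact Ideal.mul_mem_mul ha h2

/-- every element of `wm ^ 2` has a quadratic part -/
theorem exists_hasQ (hp : p ≠ 2) (m q : ℕ) (G : W m q k) (hG : G ∈ wm m q k ^ 2) :
    ∃ h0 : Matrix (Fin m) (Fin m) k, h0.IsSymm ∧ HasQ G h0 := by
  obtain ⟨h, hs, hh⟩ := exists_symm (p := p) hp m q G hG
  choose c hc using exists_const (k := k) m q
  refine ⟨fun i j => c (h i j), ?_, ?_⟩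
  · ext i j
    show c (h j i) = c (h i j)
    rw [hs.apply i j]
  · unfold HasQ
    have e : G - ∑ i, ∑ j, algebraMap k (W m q k) (c (h i j)) * (wx m q k i * wx m q k j) =
        ∑ i, ∑ j, (h i j - algebraMap k (W m q k) (c (h i j))) * (wx m q k i * wx m q k j) := by
      rw [hh, ← Finset.sum_sub_distrib]
      refine Finset.sum_congr rfl fun i _ => ?_
      rw [← Finset.sum_sub_distrib]
      refine Finset.sum_congr rfl fun j _ => ?_
      rw [sub_mul]
    rw [e]
    exact Ideal.sum_mem _ fun i _ => Ideal.sum_mem _ fun j _ => H0_mem_cube m q _ (hc _) i j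

/-- elements of `wm ^ 3` are quadratic forms with coefficients in `wm` -/
theorem exists_symm_of_cube (hp : p ≠ 2) (m q : ℕ) (G : W m q k) (hG : G ∈ wm m q k ^ 3) :
    ∃ h : Matrix (Fin m) (Fin m) (W m q k), h.IsSymm ∧ (∀ i j, h i j ∈ wm m q k) ∧
      G = ∑ i, ∑ j, h i j * (wx m q k i * wx m q k j) := by
  rw [pow_succ'] at hG
  refine Submodule.mul_induction_on hG ?_ ?_
  · intro a ha b hb
    obtain ⟨h, hs, hh⟩ := exists_symm (p := p) hp m q b hb
    refine ⟨fun i j => a * h i j, ?_, fun i j => Ideal.mul_mem_right _ _ ha, ?_⟩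
    · ext i j
      show a * h j i = a * h i j
      rw [hs.apply i j]
    · rw [hh, Finset.mul_sum]
      refine Finset.sum_congr rfl fun i _ => ?_
      rw [Finset.mul_sum]
      refine Finset.sum_congr rfl fun j _ => ?_
      rw [mul_assoc]
  · rintro x y ⟨h, hs, hm, hh⟩ ⟨h', hs', hm', hh'⟩
    refine ⟨h + h', hs.add hs', fun i j => Ideal.add_mem _ (hm i j) (hm' i j), ?_⟩
    rw [hh, hh', ← Finset.sum_add_distrib]
    refine Finset.sum_congr rfl fun i _ => ?_
    rw [← Finset.sum_add_distrib]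
    refine Finset.sum_congr rfl fun j _ => ?_
    rw [Matrix.add_apply, add_mul]

/-- quadratic forms in terms of matrices -/
private theorem H0_form {R : Type*} [CommRing R] {m : ℕ} (M : Matrix (Fin m) (Fin m) R)
    (u : Fin m → R) : ∑ i, ∑ j, M i j * (u i * u j) = dotProduct u (M.mulVec u) := by
  unfold dotProduct Matrix.mulVec dotProduct
  refine Finset.sum_congr rfl fun i _ => ?_
  rw [Finset.mul_sum]
  refine Finset.sum_congr rfl fun j _ => ?_
  ring

/-- a linear change of coordinates transforms the quadratic part -/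
theorem hasQ_linear (m e : ℕ) (G : W m (p ^ e) k) (h0 : Matrix (Fin m) (Fin m) k)
    (hG : HasQ G h0) (B : Matrix (Fin m) (Fin m) k) (hB : IsUnit B.det) :
    ∃ θ : W m (p ^ e) k ≃ₐ[k] W m (p ^ e) k, (∀ i, θ (wx m (p ^ e) k i) =
      ∑ j, algebraMap k (W m (p ^ e) k) (B i j) * wx m (p ^ e) k j) ∧
      HasQ (θ G) (B.transpose * h0 * B) ∧
      (∀ n, ∀ x ∈ wm m (p ^ e) k ^ n, θ x ∈ wm m (p ^ e) k ^ n) := by
  have hE : IsUnit (B.map (algebraMap k (W m (p ^ e) k))).det := by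
    have h := hB.map (algebraMap k (W m (p ^ e) k))
    rwa [RingHom.map_det] at h
  obtain ⟨θ, hθ⟩ := coord_change (p := p) m e (B.map (algebraMap k (W m (p ^ e) k))) hE
  have hmem : ∀ n, ∀ x ∈ wm m (p ^ e) k ^ n, θ x ∈ wm m (p ^ e) k ^ n := by
    intro n x hx
    have h1 : (wm m (p ^ e) k).map (θ : W m (p ^ e) k →+* W m (p ^ e) k) ≤ wm m (p ^ e) k := by
      unfold wm
      rw [Ideal.map_span, Ideal.span_le]
      rintro _ ⟨_, ⟨i, rfl⟩, rfl⟩
      show θ (wx m (p ^ e) k i) ∈ _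
      rw [hθ]
      exact Ideal.sum_mem _ fun j _ => Ideal.mul_mem_left _ _ (Ideal.subset_span ⟨j, rfl⟩)
    have h2 := Ideal.mem_map_of_mem (θ : W m (p ^ e) k →+* W m (p ^ e) k) hx
    rw [Ideal.map_pow] at h2
    exact Ideal.pow_right_mono h1 n h2
  refine ⟨θ, fun i => hθ i, ?_, hmem⟩
  unfold HasQ at hG ⊢
  have h1 := hmem 3 _ hG
  have h2 : θ (G - ∑ i, ∑ j, algebraMap k (W m (p ^ e) k) (h0 i j) *
      (wx m (p ^ e) k i * wx m (p ^ e) k j)) =
      θ G - ∑ i, ∑ j, algebraMap k (W m (p ^ e) k) ((B.transpose * h0 * B) i j) *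
        (wx m (p ^ e) k i * wx m (p ^ e) k j) := by
    rw [map_sub]
    congr 1
    have e1 : θ (∑ i, ∑ j, algebraMap k (W m (p ^ e) k) (h0 i j) *
        (wx m (p ^ e) k i * wx m (p ^ e) k j)) =
        ∑ i, ∑ j, (h0.map (algebraMap k (W m (p ^ e) k))) i j *
          (((B.map (algebraMap k (W m (p ^ e) k))).mulVec (wx m (p ^ e) k)) i *
            ((B.map (algebraMap k (W m (p ^ e) k))).mulVec (wx m (p ^ e) k)) j) := by
      rw [map_sum]
      refine Finset.sum_congr rfl fun i _ => ?_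
      rw [map_sum]
      refine Finset.sum_congr rfl fun j _ => ?_
      rw [map_mul, map_mul, AlgEquiv.commutes, hθ, hθ]
      rfl
    rw [e1, H0_form]
    have e2 : ∑ i, ∑ j, algebraMap k (W m (p ^ e) k) ((B.transpose * h0 * B) i j) *
        (wx m (p ^ e) k i * wx m (p ^ e) k j) =
        ∑ i, ∑ j, ((B.transpose * h0 * B).map (algebraMap k (W m (p ^ e) k))) i j *
        (wx m (p ^ e) k i * wx m (p ^ e) k j) := rfl
    rw [e2, H0_form, Matrix.map_mul, Matrix.map_mul, Matrix.transpose_map, ← Matrix.mulVec_mulVec,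
      ← Matrix.mulVec_mulVec, Matrix.dotProduct_mulVec (wx m (p ^ e) k), Matrix.vecMul_transpose]
  rw [← h2]
  exact h1

/-- colengths are invariant under automorphisms -/
theorem finrank_theta {m q : ℕ} (θ : W m q k ≃ₐ[k] W m q k) (I : Ideal (W m q k)) :
    finrank k (W m q k ⧸ I.map (θ : W m q k →+* W m q k)) = finrank k (W m q k ⧸ I) :=
  (Ideal.quotientEquivAlg I (I.map (θ : W m q k →+* W m q k)) θ rfl).toLinearEquiv.finrank_eq.symm

end Pool.Agent.Lib.MP_1bbd88_ag.T
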