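import Pool.Agent.Lib.MP_1bbd88_ag.T.TDefs

set_option autoImplicit false

namespace Pool.Agent.Lib.MP_1bbd88_ag.T

open Module Polynomial Pool.Agent.Lib.MP_1bbd88_ag.S

variable {k : Type*} [Field k]

/-- a degenerate symmetric matrix can be transformed so that the last row and column vanish -/
theorem exists_kernel_last (d : ℕ) (h0 : Matrix (Fin (d + 1)) (Fin (d + 1)) k) (hs : h0.IsSymm)
    (hd : h0.det = 0) : ∃ B : Matrix (Fin (d + 1)) (Fin (d + 1)) k, IsUnit B.det ∧
      (∀ i, (B.transpose * h0 * B) i (Fin.last d) = 0) ∧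
      (∀ i, (B.transpose * h0 * B) (Fin.last d) i = 0) := by
  obtain ⟨v, hv, hv0⟩ := Matrix.exists_mulVec_eq_zero_iff.2 hd
  obtain ⟨i0, hi0⟩ := Function.ne_iff.1 hv
  set B : Matrix (Fin (d + 1)) (Fin (d + 1)) k :=
    ((1 : Matrix (Fin (d + 1)) (Fin (d + 1)) k).updateCol i0 v).submatrix id
      (Equiv.swap i0 (Fin.last d)) with hB
  have hdet : B.det = (Equiv.Perm.sign (Equiv.swap i0 (Fin.last d)) : ℤˣ) * v i0 := by
    rw [hB, Matrix.det_permute', ← Matrix.cramer_apply, Matrix.cramer_one]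
    rfl
  have hlast : ∀ i, B i (Fin.last d) = v i := by
    intro i
    rw [hB, Matrix.submatrix_apply, Equiv.swap_apply_right, Matrix.updateCol_self]
    rfl
  have h1 : ∀ i, (B.transpose * h0 * B) i (Fin.last d) = 0 := by
    intro i
    have h2 : (B.transpose * h0 * B) i (Fin.last d) = ((B.transpose * h0).mulVec v) i := by
      rw [Matrix.mul_apply, Matrix.mulVec, dotProduct]
      exact Finset.sum_congr rfl fun j _ => by rw [hlast]
    rw [h2, ← Matrix.mulVec_mulVec, hv0, Matrix.mulVec_zero, Pi.zero_apply]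
  refine ⟨B, ?_, h1, fun i => ?_⟩
  · rw [hdet]
    refine IsUnit.mul ?_ (isUnit_iff_ne_zero.2 hi0)
    rcases Int.units_eq_one_or (Equiv.Perm.sign (Equiv.swap i0 (Fin.last d))) with h | h
    · rw [h]
      simp
    · rw [h]
      simp
  · have hsym : (B.transpose * h0 * B).transpose = B.transpose * h0 * B := by
      rw [Matrix.transpose_mul, Matrix.transpose_mul, Matrix.transpose_transpose, hs.eq,
        Matrix.mul_assoc]
    rw [← hsym, Matrix.transpose_apply]
    exact h1 i

end Pool.Agent.Lib.MP_1bbd88_ag.T
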