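import Pool.Agent.Lib.MP_1bbd88_ag.T.TDefs

set_option autoImplicit false

namespace Pool.Agent.Lib.MP_1bbd88_ag.T

open Module Polynomial Pool.Agent.Lib.MP_1bbd88_ag.S

variable {k : Type*} [Field k] [Infinite k]

theorem H2_aux {A : Type*} [CommRing A] [Algebra k A] [FiniteDimensional k A] (G S : A) (E : k[X])
    (hE : E ≠ 0) : ∃ c : k, E.eval c ≠ 0 ∧ finrank k (A ⧸ Ideal.span {G + algebraMap k A c * S}) ≤
      finrank k (A ⧸ Ideal.span {G}) := by
  obtain ⟨c, hc, h⟩ := semicont_avoid (k := k) (A := A) (ι := Unit) (fun _ => C G + X * C S) E hE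
  refine ⟨c, hc, ?_⟩
  have h1 : ∀ t : A, (C G + X * C S).eval t = G + t * S := fun t => by
    rw [eval_add, eval_mul, eval_C, eval_X, eval_C]
  have e1 : (Set.range fun _ : Unit => (C G + X * C S).eval (algebraMap k A c)) =
      {G + algebraMap k A c * S} := by rw [Set.range_const, h1]
  have e2 : (Set.range fun _ : Unit => (C G + X * C S).eval 0) = {G} := by
    rw [Set.range_const, h1, zero_mul, add_zero]
  rw [e1, e2] at h
  exact h

/-- the path to a good position -/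
theorem exists_good (d q : ℕ) (G : W (d + 1) q k) (E : k[X]) (hE : E ≠ 0) :
    ∃ c : k, E.eval c ≠ 0 ∧ finrank k (W (d + 1) q k ⧸ Ideal.span
      {G + algebraMap k (W (d + 1) q k) c * (∑ i : Fin d, wx (d + 1) q k i.castSucc ^ 2 +
        wx (d + 1) q k (Fin.last d) ^ 3)}) ≤ finrank k (W (d + 1) q k ⧸ Ideal.span {G}) := by
  obtain ⟨S, hS⟩ : ∃ S : W (d + 1) q k, S = ∑ i : Fin d, wx (d + 1) q k i.castSucc ^ 2 +
      wx (d + 1) q k (Fin.last d) ^ 3 := ⟨_, rfl⟩
  rw [← hS]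
  exact H2_aux G S E hE

end Pool.Agent.Lib.MP_1bbd88_ag.T
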