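import Pool.Agent.Lib.MP_1bbd88_ag.T.TDefs
import Pool.Agent.Lib.MP_1bbd88_ag.S.E3b
import Pool.Agent.Lib.MP_1bbd88_ag.S.E3c
import Pool.Agent.Lib.MP_1bbd88_ag.S.E3d

set_option autoImplicit false

namespace Pool.Agent.Lib.MP_1bbd88_ag.T

open Module Polynomial Pool.Agent.Lib.MP_1bbd88_ag.S

variable {k : Type*} [Field k] [IsAlgClosed k] {p : ℕ} [Fact p.Prime] [CharP k p]

private theorem H3_alg {R : Type*} [CommRing R] {d : ℕ} (E h : Matrix (Fin d) (Fin d) R)
    (u v b : Fin d → R) (x : R) (hE : E.transpose * E = h) (hv : E.transpose.mulVec v = b) :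
    ∑ i, (∑ j, E i j * u j + v i * x) ^ 2 = ∑ i, ∑ j, h i j * (u i * u j) +
      2 * x * ∑ i, b i * u i + x ^ 2 * ∑ i, v i ^ 2 := by
  have h1 : ∀ i, (∑ j, E i j * u j + v i * x) ^ 2 =
      (∑ j, E i j * u j) ^ 2 + 2 * x * (v i * ∑ j, E i j * u j) + x ^ 2 * v i ^ 2 := by
    intro i
    ring
  have h2 : ∑ i, v i * ∑ j, E i j * u j = ∑ j, b j * u j := by
    rw [Finset.sum_congr rfl fun i _ => Finset.mul_sum _ _ _, Finset.sum_comm]
    refine Finset.sum_congr rfl fun j _ => ?_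
    rw [← hv, Matrix.mulVec, dotProduct, Finset.sum_mul]
    refine Finset.sum_congr rfl fun i _ => ?_
    rw [Matrix.transpose_apply]
    ring
  rw [Finset.sum_congr rfl fun i _ => h1 i, Finset.sum_add_distrib, Finset.sum_add_distrib,
    ← Finset.mul_sum, ← Finset.mul_sum, h2, E3d_sum E h u hE]

/-- the matrix of the new coordinates -/
private def H3_E {R : Type*} [CommRing R] {d : ℕ} (E : Matrix (Fin d) (Fin d) R) (v : Fin d → R) :
    Matrix (Fin (d + 1)) (Fin (d + 1)) R := fun i =>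
  Fin.snoc (α := fun _ => Fin (d + 1) → R) (fun i' => Fin.snoc (α := fun _ => R) (E i') (v i'))
    (Fin.snoc (α := fun _ => R) (fun _ => 0) 1) i

private theorem H3_E_cc {R : Type*} [CommRing R] {d : ℕ} (E : Matrix (Fin d) (Fin d) R)
    (v : Fin d → R) (i j : Fin d) : H3_E E v i.castSucc j.castSucc = E i j := by
  unfold H3_E
  rw [Fin.snoc_castSucc, Fin.snoc_castSucc]

private theorem H3_E_cl {R : Type*} [CommRing R] {d : ℕ} (E : Matrix (Fin d) (Fin d) R)
    (v : Fin d → R) (i : Fin d) : H3_E E v i.castSucc (Fin.last d) = v i := by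
  unfold H3_E
  rw [Fin.snoc_castSucc, Fin.snoc_last]

private theorem H3_E_lc {R : Type*} [CommRing R] {d : ℕ} (E : Matrix (Fin d) (Fin d) R)
    (v : Fin d → R) (j : Fin d) : H3_E E v (Fin.last d) j.castSucc = 0 := by
  unfold H3_E
  rw [Fin.snoc_last, Fin.snoc_castSucc]

private theorem H3_E_ll {R : Type*} [CommRing R] {d : ℕ} (E : Matrix (Fin d) (Fin d) R)
    (v : Fin d → R) : H3_E E v (Fin.last d) (Fin.last d) = 1 := by
  unfold H3_E
  rw [Fin.snoc_last, Fin.snoc_last]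

private theorem H3_E_det {R : Type*} [CommRing R] {d : ℕ} (E : Matrix (Fin d) (Fin d) R)
    (v : Fin d → R) : (H3_E E v).det = E.det := by
  rw [Matrix.det_succ_row (H3_E E v) (Fin.last d), Fin.sum_univ_castSucc]
  rw [Finset.sum_eq_zero (fun j _ => by rw [H3_E_lc]; ring), H3_E_ll, zero_add]
  have h1 : (H3_E E v).submatrix (Fin.last d).succAbove (Fin.last d).succAbove = E := by
    ext i j
    rw [Matrix.submatrix_apply, Fin.succAbove_last]
    exact H3_E_cc E v i j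
  rw [h1, Even.neg_one_pow ⟨_, rfl⟩, one_mul, one_mul]

/-- `MM` is invariant -/
private theorem H3_inv {k : Type*} [Field k] {d q : ℕ} (θ : W (d + 1) q k ≃ₐ[k] W (d + 1) q k)
    (h1 : ∀ i : Fin (d + 1), θ (wx (d + 1) q k i) ∈ wm (d + 1) q k)
    (h2 : ∀ i : Fin d, θ (wx (d + 1) q k i.castSucc) ∈ MM k d q)
    (a : W (d + 1) q k) (ha : θ a ∈ MM k d q) : a ∈ MM k d q := by
  have hwm : (wm (d + 1) q k).map (θ : W (d + 1) q k →+* W (d + 1) q k) ≤ wm (d + 1) q k := by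
    rw [wm, Ideal.map_span, Ideal.span_le]
    rintro _ ⟨_, ⟨i, rfl⟩, rfl⟩
    exact h1 i
  have hle : (MM k d q).map (θ : W (d + 1) q k →+* W (d + 1) q k) ≤ MM k d q := by
    rw [MM, Ideal.map_sup, Ideal.map_span, Ideal.map_pow]
    refine sup_le ?_ ?_
    · rw [Ideal.span_le]
      rintro _ ⟨_, ⟨i, rfl⟩, rfl⟩
      exact h2 i
    · exact (Ideal.pow_right_mono hwm 2).trans le_sup_right
  have hlin : ((MM k d q).restrictScalars k).map (θ.toLinearEquiv : W (d + 1) q k →ₗ[k] W (d + 1) q k) ≤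
      (MM k d q).restrictScalars k := by
    rintro _ ⟨b, hb, rfl⟩
    exact hle (Ideal.mem_map_of_mem (θ : W (d + 1) q k →+* W (d + 1) q k) hb)
  have heq := Submodule.eq_of_le_of_finrank_eq hlin (LinearEquiv.finrank_map_eq θ.toLinearEquiv _)
  have hm : θ a ∈ (MM k d q).restrictScalars k := ha
  rw [← heq] at hm
  obtain ⟨b, hb, hba⟩ := hm
  have : b = a := θ.injective hba
  rw [← this]
  exact hb

/-- diagonalisation of the non degenerate block -/
theorem split_block (hp : p ≠ 2) (d e : ℕ) (h0 : Matrix (Fin d) (Fin d) k) (hs0 : h0.IsSymm)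
    (hd : IsUnit h0.det) (h : Matrix (Fin d) (Fin d) (W (d + 1) (p ^ e) k)) (hs : h.IsSymm)
    (hh : ∀ i j, h i j - algebraMap k (W (d + 1) (p ^ e) k) (h0 i j) ∈ wm (d + 1) (p ^ e) k)
    (b : Fin d → W (d + 1) (p ^ e) k) (hb : ∀ i, b i ∈ wm (d + 1) (p ^ e) k)
    (g : W (d + 1) (p ^ e) k) (γ : k)
    (hg : g - algebraMap k (W (d + 1) (p ^ e) k) γ * wx (d + 1) (p ^ e) k (Fin.last d) ∈
      MM k d (p ^ e)) :
    ∃ (θ : W (d + 1) (p ^ e) k ≃ₐ[k] W (d + 1) (p ^ e) k) (g1 : W (d + 1) (p ^ e) k),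
      θ (∑ i : Fin d, wx (d + 1) (p ^ e) k i.castSucc ^ 2 +
        wx (d + 1) (p ^ e) k (Fin.last d) ^ 2 * g1) =
      ∑ i, ∑ j, h i j * (wx (d + 1) (p ^ e) k i.castSucc * wx (d + 1) (p ^ e) k j.castSucc) +
        2 * wx (d + 1) (p ^ e) k (Fin.last d) * ∑ i, b i * wx (d + 1) (p ^ e) k i.castSucc +
        wx (d + 1) (p ^ e) k (Fin.last d) ^ 2 * g ∧
      g1 - algebraMap k (W (d + 1) (p ^ e) k) γ * wx (d + 1) (p ^ e) k (Fin.last d) ∈
        MM k d (p ^ e) := by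
  have h2 : (2 : k) ≠ 0 := by
    intro h
    have h3 : ((2 : ℕ) : k) = 0 := by exact_mod_cast h
    rw [CharP.cast_eq_zero_iff k p] at h3
    rcases (Nat.dvd_prime Nat.prime_two).1 h3 with h4 | h4
    · exact (Fact.out : p.Prime).one_lt.ne' h4
    · exact hp h4
  obtain ⟨B, hB, hH0⟩ := exists_transpose_mul h2 h0 hs0 hd
  obtain ⟨A0, hA0⟩ : ∃ A0, A0 = h0.map (algebraMap k (W (d + 1) (p ^ e) k)) := ⟨_, rfl⟩
  obtain ⟨B0, hB0⟩ : ∃ B0, B0 = B.map (algebraMap k (W (d + 1) (p ^ e) k)) := ⟨_, rfl⟩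
  have hAs : A0.IsSymm := by
    rw [hA0, Matrix.IsSymm, ← Matrix.transpose_map, hs0]
  have hAd : IsUnit A0.det := by
    rw [hA0]
    have h3 := hd.map (algebraMap k (W (d + 1) (p ^ e) k))
    rwa [RingHom.map_det] at h3
  have hBd : IsUnit B0.det := by
    rw [hB0]
    have h3 := hB.map (algebraMap k (W (d + 1) (p ^ e) k))
    rwa [RingHom.map_det] at h3
  have hAB : A0 = B0.transpose * B0 := by
    rw [hA0, hB0, hH0, Matrix.map_mul, Matrix.transpose_map]
  have hAZ : A0 * (A0⁻¹ * (h - A0)) = h - A0 := Matrix.mul_nonsing_inv_cancel_left A0 _ hAd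
  have hZ : ∀ i j, (A0⁻¹ * (h - A0)) i j ∈ wm (d + 1) (p ^ e) k := by
    intro i j
    rw [Matrix.mul_apply]
    refine Ideal.sum_mem _ fun l _ => Ideal.mul_mem_left _ _ ?_
    rw [Matrix.sub_apply, hA0, Matrix.map_apply]
    exact hh l j
  obtain ⟨C, hC, hCH⟩ := exists_sqrt hp (wm (d + 1) (p ^ e) k) (wm_nilp (d + 1) (p ^ e)) A0
    (A0⁻¹ * (h - A0)) hAs hZ (by rw [hAZ]; exact hs.sub hAs)
  obtain ⟨E, hEdef⟩ : ∃ E, E = B0 * C := ⟨_, rfl⟩
  have hE : IsUnit E.det := by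
    rw [hEdef, Matrix.det_mul]
    exact hBd.mul hC
  have hEE : E.transpose * E = h := by
    rw [hEdef, Matrix.transpose_mul]
    calc C.transpose * B0.transpose * (B0 * C) = C.transpose * (B0.transpose * B0) * C := by
          simp only [Matrix.mul_assoc]
      _ = A0 * (1 + A0⁻¹ * (h - A0)) := by rw [← hAB, hCH]
      _ = h := by rw [Matrix.mul_add, Matrix.mul_one, hAZ, add_sub_cancel]
  have hEt : IsUnit E.transpose.det := by
    rw [Matrix.det_transpose]
    exact hE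
  obtain ⟨v, hvdef⟩ : ∃ v, v = (E.transpose)⁻¹.mulVec b := ⟨_, rfl⟩
  have hv : E.transpose.mulVec v = b := by
    rw [hvdef, Matrix.mulVec_mulVec, Matrix.mul_nonsing_inv _ hEt, Matrix.one_mulVec]
  have hvm : ∀ i, v i ∈ wm (d + 1) (p ^ e) k := by
    intro i
    rw [hvdef, Matrix.mulVec, dotProduct]
    exact Ideal.sum_mem _ fun l _ => Ideal.mul_mem_left _ _ (hb l)
  have hxm : ∀ i, wx (d + 1) (p ^ e) k i ∈ wm (d + 1) (p ^ e) k := fun i =>
    Ideal.subset_span (Set.mem_range_self i)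
  obtain ⟨θ, hθ⟩ := coord_change (d + 1) e (H3_E E v) (by rw [H3_E_det]; exact hE)
  have hθc : ∀ i : Fin d, θ (wx (d + 1) (p ^ e) k i.castSucc) =
      ∑ j, E i j * wx (d + 1) (p ^ e) k j.castSucc + v i * wx (d + 1) (p ^ e) k (Fin.last d) := by
    intro i
    rw [hθ, Fin.sum_univ_castSucc, H3_E_cl]
    congr 1
    exact Finset.sum_congr rfl fun j _ => by rw [H3_E_cc]
  have hθl : θ (wx (d + 1) (p ^ e) k (Fin.last d)) = wx (d + 1) (p ^ e) k (Fin.last d) := by
    rw [hθ, Fin.sum_univ_castSucc, H3_E_ll, one_mul,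
      Finset.sum_eq_zero (fun j _ => by rw [H3_E_lc, zero_mul]), zero_add]
  refine ⟨θ, θ.symm (g - ∑ i, v i ^ 2), ?_, ?_⟩
  · rw [map_add, map_sum, map_mul, map_pow, hθl, AlgEquiv.apply_symm_apply]
    have h5 : ∀ i : Fin d, θ (wx (d + 1) (p ^ e) k i.castSucc ^ 2) =
        (∑ j, E i j * wx (d + 1) (p ^ e) k j.castSucc +
          v i * wx (d + 1) (p ^ e) k (Fin.last d)) ^ 2 := by
      intro i
      rw [map_pow, hθc i]
    rw [Finset.sum_congr rfl fun i _ => h5 i,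
      H3_alg E h (fun j => wx (d + 1) (p ^ e) k j.castSucc) v b
        (wx (d + 1) (p ^ e) k (Fin.last d)) hEE hv]
    ring
  · apply H3_inv θ
    · intro i
      refine Fin.lastCases ?_ (fun i => ?_) i
      · rw [hθl]
        exact hxm _
      · rw [hθc]
        exact Ideal.add_mem _ (Ideal.sum_mem _ fun j _ => Ideal.mul_mem_left _ _ (hxm _))
          (Ideal.mul_mem_left _ _ (hxm _))
    · intro i
      rw [hθc]
      refine Ideal.add_mem _ (Ideal.sum_mem _ fun j _ => Ideal.mul_mem_left _ _ ?_) ?_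
      · exact Ideal.mem_sup_left (Ideal.subset_span (Set.mem_range_self j))
      · refine Ideal.mem_sup_right ?_
        rw [pow_two]
        exact Ideal.mul_mem_mul (hvm i) (hxm _)
    · rw [map_sub, AlgEquiv.apply_symm_apply, map_mul, AlgEquiv.commutes, hθl]
      have h6 : g - ∑ i, v i ^ 2 - algebraMap k (W (d + 1) (p ^ e) k) γ *
          wx (d + 1) (p ^ e) k (Fin.last d) =
          (g - algebraMap k (W (d + 1) (p ^ e) k) γ * wx (d + 1) (p ^ e) k (Fin.last d)) -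
            ∑ i, v i ^ 2 := by ring
      rw [h6]
      refine Ideal.sub_mem _ hg (Ideal.sum_mem _ fun i _ => Ideal.mem_sup_right ?_)
      exact Ideal.pow_mem_pow (hvm i) 2

end Pool.Agent.Lib.MP_1bbd88_ag.T
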