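import Pool.Agent.Lib.MP_1bbd88_ag.T.TDefs

set_option autoImplicit false

namespace Pool.Agent.Lib.MP_1bbd88_ag.T

open Module Polynomial Pool.Agent.Lib.MP_1bbd88_ag.S

variable {k : Type*} [Field k] {p : ℕ} [Fact p.Prime] [CharP k p]

/-- decomposition of an element along the last axis -/
theorem exists_axis (d q : ℕ) (g : W (d + 1) q k) : ∃ (ψ : k[X]) (r : Fin d → W (d + 1) q k),
    g = aeval (wx (d + 1) q k (Fin.last d)) ψ + ∑ i, r i * wx (d + 1) q k i.castSucc := by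
  obtain ⟨f, rfl⟩ := Ideal.Quotient.mk_surjective g
  induction f using MvPolynomial.induction_on with
  | C c =>
    refine ⟨C c, 0, ?_⟩
    rw [aeval_C]
    simp only [Pi.zero_apply, zero_mul, Finset.sum_const_zero, add_zero]
    rfl
  | add f g hf hg =>
    obtain ⟨ψ1, r1, h1⟩ := hf
    obtain ⟨ψ2, r2, h2⟩ := hg
    refine ⟨ψ1 + ψ2, r1 + r2, ?_⟩
    rw [map_add, h1, h2, map_add]
    simp only [Pi.add_apply, add_mul, Finset.sum_add_distrib]
    ring
  | mul_X f i hf =>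
    obtain ⟨ψ1, r1, h1⟩ := hf
    have hX : (Ideal.Quotient.mk (powI (Fin (d + 1)) k q)) (MvPolynomial.X i) =
      wx (d + 1) q k i := rfl
    rw [map_mul, hX]
    induction i using Fin.lastCases with
    | last =>
      refine ⟨ψ1 * X, fun i => r1 i * wx (d + 1) q k (Fin.last d), ?_⟩
      rw [h1, map_mul, aeval_X, add_mul, Finset.sum_mul]
      congr 1
      refine Finset.sum_congr rfl fun i _ => ?_
      ring
    | cast j =>
      refine ⟨0, Pi.single j ((Ideal.Quotient.mk (powI (Fin (d + 1)) k q)) f), ?_⟩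
      rw [map_zero, zero_add, Finset.sum_eq_single j]
      · rw [Pi.single_eq_same]
      · intro b _ hb
        rw [Pi.single_eq_of_ne hb, zero_mul]
      · intro h
        exact absurd (Finset.mem_univ j) h

theorem H4_sq (d q : ℕ) : wm (d + 1) q k ^ 2 ≤
    Ideal.span {wx (d + 1) q k (Fin.last d) ^ 2} ⊔
      Ideal.span (Set.range fun i : Fin d => wx (d + 1) q k i.castSucc) := by
  have h1 : wm (d + 1) q k ≤ Ideal.span {wx (d + 1) q k (Fin.last d)} ⊔
      Ideal.span (Set.range fun i : Fin d => wx (d + 1) q k i.castSucc) := by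
    rw [wm, Ideal.span_le]
    rintro _ ⟨i, rfl⟩
    induction i using Fin.lastCases with
    | last => exact Ideal.mem_sup_left (Ideal.mem_span_singleton_self _)
    | cast j => exact Ideal.mem_sup_right (Ideal.subset_span ⟨j, rfl⟩)
  rw [pow_two, Ideal.mul_le]
  intro r hr s hs
  obtain ⟨r1, hr1, r2, hr2, rfl⟩ := Submodule.mem_sup.1 (h1 hr)
  obtain ⟨s1, hs1, s2, hs2, rfl⟩ := Submodule.mem_sup.1 (h1 hs)
  obtain ⟨a, rfl⟩ := Ideal.mem_span_singleton'.1 hr1
  obtain ⟨b, rfl⟩ := Ideal.mem_span_singleton'.1 hs1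
  have e : (a * wx (d + 1) q k (Fin.last d) + r2) * (b * wx (d + 1) q k (Fin.last d) + s2) =
      a * b * wx (d + 1) q k (Fin.last d) ^ 2 +
        ((a * wx (d + 1) q k (Fin.last d)) * s2 + (b * wx (d + 1) q k (Fin.last d) + s2) * r2) := by
    ring
  rw [e]
  refine Submodule.add_mem_sup (Ideal.mem_span_singleton'.2 ⟨a * b, rfl⟩) ?_
  exact Ideal.add_mem _ (Ideal.mul_mem_left _ _ hs2) (Ideal.mul_mem_left _ _ hr2)

theorem exists_axis_of_mem (d q : ℕ) (g : W (d + 1) q k) (γ : k)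
    (hg : g - algebraMap k (W (d + 1) q k) γ * wx (d + 1) q k (Fin.last d) ∈ MM k d q) :
    ∃ (ψ : k[X]) (r : Fin d → W (d + 1) q k), ψ.coeff 0 = 0 ∧ ψ.coeff 1 = γ ∧
      g = aeval (wx (d + 1) q k (Fin.last d)) ψ + ∑ i, r i * wx (d + 1) q k i.castSucc := by
  have h1 : MM k d q ≤ Ideal.span {wx (d + 1) q k (Fin.last d) ^ 2} ⊔
      Ideal.span (Set.range fun i : Fin d => wx (d + 1) q k i.castSucc) := by
    rw [MM]
    exact sup_le le_sup_right (H4_sq d q)
  obtain ⟨a, ha, b, hb, hab⟩ := Submodule.mem_sup.1 (h1 hg)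
  obtain ⟨h, rfl⟩ := Ideal.mem_span_singleton'.1 ha
  obtain ⟨r1, hr1⟩ := (Ideal.mem_span_range_iff_exists_fun).1 hb
  obtain ⟨ψ, r, hψ⟩ := exists_axis d q h
  refine ⟨C γ * X + X ^ 2 * ψ,
    fun i => r1 i + r i * wx (d + 1) q k (Fin.last d) ^ 2, ?_, ?_, ?_⟩
  · simp
  · rw [coeff_add, coeff_C_mul, coeff_X_one, mul_one, coeff_X_pow_mul', if_neg (by norm_num),
      add_zero]
  · have e1 : g = algebraMap k (W (d + 1) q k) γ * wx (d + 1) q k (Fin.last d) +
        (h * wx (d + 1) q k (Fin.last d) ^ 2 + b) := by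
      rw [hab]
      ring
    rw [e1, ← hr1]
    simp only [map_add, map_mul, aeval_C, aeval_X, map_pow, add_mul, Finset.sum_add_distrib]
    have e2 : h * wx (d + 1) q k (Fin.last d) ^ 2 =
        wx (d + 1) q k (Fin.last d) ^ 2 * aeval (wx (d + 1) q k (Fin.last d)) ψ +
          ∑ i : Fin d, r i * wx (d + 1) q k (Fin.last d) ^ 2 * wx (d + 1) q k i.castSucc := by
      conv_lhs => rw [hψ]
      rw [add_mul, Finset.sum_mul]
      congr 1
      · ring
      · refine Finset.sum_congr rfl fun i _ => ?_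
        ring
    rw [e2]
    ring

/-- the matrix of the coordinate change -/
noncomputable def H4_E (d q n : ℕ) (s : Fin d → W (d + 1) q k) :
    Matrix (Fin (d + 1)) (Fin (d + 1)) (W (d + 1) q k) := fun i j =>
  (1 : Matrix (Fin (d + 1)) (Fin (d + 1)) (W (d + 1) q k)) i j +
    if j = Fin.last d then Fin.lastCases (motive := fun _ => W (d + 1) q k) 0
      (fun a => wx (d + 1) q k (Fin.last d) ^ n * s a) i else 0

theorem H4_det (d q n : ℕ) (s : Fin d → W (d + 1) q k) : (H4_E d q n s).det = 1 := by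
  have h : (H4_E d q n s).BlockTriangular id := by
    intro i j hij
    have hij' : j < i := hij
    have hj : j ≠ Fin.last d := fun h => by
      rw [h] at hij'
      exact absurd hij' (not_lt.2 (Fin.le_last i))
    unfold H4_E
    rw [if_neg hj, add_zero, Matrix.one_apply_ne (ne_of_gt hij')]
  rw [Matrix.det_of_isUpperTriangular h]
  refine Finset.prod_eq_one fun i _ => ?_
  unfold H4_E
  rw [Matrix.one_apply_eq]
  by_cases hi : i = Fin.last d
  · subst hi
    rw [if_pos rfl, Fin.lastCases_last, add_zero]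
  · rw [if_neg hi, add_zero]

theorem H4_coord (d e n : ℕ) (s : Fin d → W (d + 1) (p ^ e) k) :
    ∃ θ : W (d + 1) (p ^ e) k ≃ₐ[k] W (d + 1) (p ^ e) k,
      θ (wx (d + 1) (p ^ e) k (Fin.last d)) = wx (d + 1) (p ^ e) k (Fin.last d) ∧
      ∀ i : Fin d, θ (wx (d + 1) (p ^ e) k i.castSucc) = wx (d + 1) (p ^ e) k i.castSucc +
        wx (d + 1) (p ^ e) k (Fin.last d) ^ (n + 1) * s i := by
  obtain ⟨θ, hθ⟩ := coord_change (p := p) (d + 1) e (H4_E d (p ^ e) n s)
    (by rw [H4_det]; exact isUnit_one)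
  have key : ∀ i, θ (wx (d + 1) (p ^ e) k i) = wx (d + 1) (p ^ e) k i +
      Fin.lastCases (motive := fun _ => W (d + 1) (p ^ e) k) 0
        (fun a => wx (d + 1) (p ^ e) k (Fin.last d) ^ n * s a) i *
        wx (d + 1) (p ^ e) k (Fin.last d) := by
    intro i
    rw [hθ i]
    unfold H4_E
    simp only [add_mul, Finset.sum_add_distrib, ite_mul, zero_mul]
    congr 1
    · rw [Finset.sum_eq_single i]
      · rw [Matrix.one_apply_eq, one_mul]
      · intro b _ hb
        rw [Matrix.one_apply_ne hb.symm, zero_mul]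
      · intro h
        exact absurd (Finset.mem_univ i) h
    · rw [Finset.sum_ite_eq' Finset.univ (Fin.last d), if_pos (Finset.mem_univ _)]
  refine ⟨θ, ?_, fun i => ?_⟩
  · rw [key, Fin.lastCases_last, zero_mul, add_zero]
  · rw [key, Fin.lastCases_castSucc]
    ring

/-- one step of the splitting lemma -/
theorem split_step (hp : p ≠ 2) (d e n : ℕ) (hn : 2 ≤ n) (ψ : k[X])
    (r : Fin d → W (d + 1) (p ^ e) k) :
    ∃ (θ : W (d + 1) (p ^ e) k ≃ₐ[k] W (d + 1) (p ^ e) k) (ψ' : k[X])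
      (r' : Fin d → W (d + 1) (p ^ e) k), ψ'.coeff 0 = ψ.coeff 0 ∧ ψ'.coeff 1 = ψ.coeff 1 ∧
      θ (∑ i : Fin d, wx (d + 1) (p ^ e) k i.castSucc ^ 2 +
        wx (d + 1) (p ^ e) k (Fin.last d) ^ 2 * aeval (wx (d + 1) (p ^ e) k (Fin.last d)) ψ' +
        wx (d + 1) (p ^ e) k (Fin.last d) ^ (2 * n) *
          ∑ i, r' i * wx (d + 1) (p ^ e) k i.castSucc) =
      ∑ i : Fin d, wx (d + 1) (p ^ e) k i.castSucc ^ 2 +
        wx (d + 1) (p ^ e) k (Fin.last d) ^ 2 * aeval (wx (d + 1) (p ^ e) k (Fin.last d)) ψ +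
        wx (d + 1) (p ^ e) k (Fin.last d) ^ n *
          ∑ i, r i * wx (d + 1) (p ^ e) k i.castSucc := by
  have h2k : (2 : k) ≠ 0 := by
    intro h0
    have h1 : ((2 : ℕ) : k) = 0 := by exact_mod_cast h0
    rw [CharP.cast_eq_zero_iff k p] at h1
    exact hp ((Nat.prime_dvd_prime_iff_eq Fact.out Nat.prime_two).1 h1)
  obtain ⟨hf, hhf⟩ : ∃ hf : W (d + 1) (p ^ e) k, 2 * hf = 1 := by
    refine ⟨algebraMap k _ (2⁻¹), ?_⟩
    have : (2 : W (d + 1) (p ^ e) k) = algebraMap k _ 2 := by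
      rw [map_ofNat]
    rw [this, ← map_mul, mul_inv_cancel₀ h2k, map_one]
  obtain ⟨m, rfl⟩ : ∃ m, n = m + 2 := ⟨n - 2, by omega⟩
  obtain ⟨θ, hx, hu⟩ := H4_coord (p := p) d e (m + 1) (fun i => hf * r i)
  obtain ⟨ρ, r', hr'⟩ := exists_axis d (p ^ e) (θ.symm (hf ^ 2 * ∑ i, r i ^ 2))
  have hs : hf ^ 2 * ∑ i, r i ^ 2 = aeval (wx (d + 1) (p ^ e) k (Fin.last d)) ρ +
      ∑ i, θ (r' i) * θ (wx (d + 1) (p ^ e) k i.castSucc) := by
    have := congrArg θ hr'
    rw [AlgEquiv.apply_symm_apply, map_add, map_sum] at this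
    rw [this]
    congr 1
    · have e1 := Polynomial.aeval_algHom_apply (θ : W (d + 1) (p ^ e) k →ₐ[k] W (d + 1) (p ^ e) k)
        (wx (d + 1) (p ^ e) k (Fin.last d)) ρ
      have e2 : (θ : W (d + 1) (p ^ e) k →ₐ[k] W (d + 1) (p ^ e) k)
        (wx (d + 1) (p ^ e) k (Fin.last d)) = wx (d + 1) (p ^ e) k (Fin.last d) := hx
      rw [e2] at e1
      exact e1.symm
    · refine Finset.sum_congr rfl fun i _ => ?_
      rw [map_mul]
  have hψ : ∀ ψ0 : k[X], θ (aeval (wx (d + 1) (p ^ e) k (Fin.last d)) ψ0) =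
      aeval (wx (d + 1) (p ^ e) k (Fin.last d)) ψ0 := by
    intro ψ0
    have e1 := Polynomial.aeval_algHom_apply (θ : W (d + 1) (p ^ e) k →ₐ[k] W (d + 1) (p ^ e) k)
      (wx (d + 1) (p ^ e) k (Fin.last d)) ψ0
    have e2 : (θ : W (d + 1) (p ^ e) k →ₐ[k] W (d + 1) (p ^ e) k)
      (wx (d + 1) (p ^ e) k (Fin.last d)) = wx (d + 1) (p ^ e) k (Fin.last d) := hx
    rw [e2] at e1
    exact e1.symm
  refine ⟨θ, ψ - X ^ (2 * m + 2) * ρ, fun i => -r' i, ?_, ?_, ?_⟩
  · rw [coeff_sub, coeff_X_pow_mul', if_neg (by omega), sub_zero]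
  · rw [coeff_sub, coeff_X_pow_mul', if_neg (by omega), sub_zero]
  · simp only [map_add, map_mul, map_sum, map_pow, hx, hψ, map_neg, map_sub, aeval_X]
    generalize hx0 : wx (d + 1) (p ^ e) k (Fin.last d) = x at *
    have e3 : ∑ i : Fin d, θ (wx (d + 1) (p ^ e) k i.castSucc) ^ 2 =
        ∑ i : Fin d, wx (d + 1) (p ^ e) k i.castSucc ^ 2 +
          x ^ (m + 2) * ∑ i, r i * wx (d + 1) (p ^ e) k i.castSucc +
          x ^ (2 * (m + 2)) * (hf ^ 2 * ∑ i, r i ^ 2) := by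
      rw [Finset.mul_sum, Finset.mul_sum, Finset.mul_sum, ← Finset.sum_add_distrib,
        ← Finset.sum_add_distrib]
      refine Finset.sum_congr rfl fun i _ => ?_
      rw [hu i]
      have e4 : (wx (d + 1) (p ^ e) k i.castSucc + x ^ (m + 1 + 1) * (hf * r i)) ^ 2 =
          wx (d + 1) (p ^ e) k i.castSucc ^ 2 +
            x ^ (m + 2) * (2 * hf) * (r i * wx (d + 1) (p ^ e) k i.castSucc) +
            x ^ (2 * (m + 2)) * (hf ^ 2 * r i ^ 2) := by
        ring
      rw [e4, hhf, mul_one]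
    have e5 : ∑ i : Fin d, (-θ (r' i)) * θ (wx (d + 1) (p ^ e) k i.castSucc) =
        -∑ i : Fin d, θ (r' i) * θ (wx (d + 1) (p ^ e) k i.castSucc) := by
      rw [← Finset.sum_neg_distrib]
      refine Finset.sum_congr rfl fun i _ => ?_
      ring
    rw [e3, hs, e5]
    ring

end Pool.Agent.Lib.MP_1bbd88_ag.T
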