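import Pool.Agent.Lib.MP_1bbd88_ag.T.H4

set_option autoImplicit false

namespace Pool.Agent.Lib.MP_1bbd88_ag.T

open Module Polynomial Pool.Agent.Lib.MP_1bbd88_ag.S

variable {k : Type*} [Field k] {p : ℕ} [Fact p.Prime] [CharP k p]

private theorem H4b_iter (hp : p ≠ 2) (d e : ℕ) (ψ : k[X]) (r : Fin d → W (d + 1) (p ^ e) k)
    (t : ℕ) :
    ∃ (θ : W (d + 1) (p ^ e) k ≃ₐ[k] W (d + 1) (p ^ e) k) (ψ' : k[X])
      (r' : Fin d → W (d + 1) (p ^ e) k), ψ'.coeff 0 = ψ.coeff 0 ∧ ψ'.coeff 1 = ψ.coeff 1 ∧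
      θ (∑ i : Fin d, wx (d + 1) (p ^ e) k i.castSucc ^ 2 +
        wx (d + 1) (p ^ e) k (Fin.last d) ^ 2 * aeval (wx (d + 1) (p ^ e) k (Fin.last d)) ψ' +
        wx (d + 1) (p ^ e) k (Fin.last d) ^ (2 ^ (t + 1)) *
          ∑ i, r' i * wx (d + 1) (p ^ e) k i.castSucc) =
      ∑ i : Fin d, wx (d + 1) (p ^ e) k i.castSucc ^ 2 +
        wx (d + 1) (p ^ e) k (Fin.last d) ^ 2 * aeval (wx (d + 1) (p ^ e) k (Fin.last d)) ψ +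
        wx (d + 1) (p ^ e) k (Fin.last d) ^ 2 *
          ∑ i, r i * wx (d + 1) (p ^ e) k i.castSucc := by
  induction t with
  | zero => exact ⟨AlgEquiv.refl, ψ, r, rfl, rfl, rfl⟩
  | succ t ih =>
    obtain ⟨θ, ψ1, r1, h0, h1, hθ⟩ := ih
    have h2 : 2 ≤ 2 ^ (t + 1) := by
      have : 1 ≤ 2 ^ t := Nat.one_le_two_pow
      rw [pow_succ]
      omega
    obtain ⟨θ', ψ2, r2, h0', h1', hθ'⟩ := split_step hp d e (2 ^ (t + 1)) h2 ψ1 r1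
    refine ⟨θ'.trans θ, ψ2, r2, h0'.trans h0, h1'.trans h1, ?_⟩
    have e2 : 2 ^ (t + 1 + 1) = 2 * 2 ^ (t + 1) := by rw [pow_succ, mul_comm]
    rw [e2, AlgEquiv.trans_apply, hθ', hθ]

/-- the splitting lemma -/
theorem splitting (hp : p ≠ 2) (d e : ℕ) (g : W (d + 1) (p ^ e) k) (γ : k)
    (hg : g - algebraMap k (W (d + 1) (p ^ e) k) γ * wx (d + 1) (p ^ e) k (Fin.last d) ∈
      MM k d (p ^ e)) :
    ∃ (θ : W (d + 1) (p ^ e) k ≃ₐ[k] W (d + 1) (p ^ e) k) (ψ : k[X]),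
      ψ.coeff 0 = 0 ∧ ψ.coeff 1 = γ ∧
      θ (∑ i : Fin d, wx (d + 1) (p ^ e) k i.castSucc ^ 2 +
        wx (d + 1) (p ^ e) k (Fin.last d) ^ 2 * aeval (wx (d + 1) (p ^ e) k (Fin.last d)) ψ) =
      ∑ i : Fin d, wx (d + 1) (p ^ e) k i.castSucc ^ 2 +
        wx (d + 1) (p ^ e) k (Fin.last d) ^ 2 * g := by
  obtain ⟨ψ, r, h0, h1, hgr⟩ := exists_axis_of_mem d (p ^ e) g γ hg
  obtain ⟨θ, ψ', r', h0', h1', hθ⟩ := H4b_iter hp d e ψ r (p ^ e)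
  refine ⟨θ, ψ', h0'.trans h0, h1'.trans h1, ?_⟩
  have hz : wx (d + 1) (p ^ e) k (Fin.last d) ^ (2 ^ (p ^ e + 1)) = 0 := by
    have hle : p ^ e ≤ 2 ^ (p ^ e + 1) := by
      have h3 : p ^ e + 1 < 2 ^ (p ^ e + 1) := Nat.lt_two_pow_self
      omega
    obtain ⟨c, hc⟩ := Nat.exists_eq_add_of_le hle
    rw [hc, pow_add, U0_wx_pow, zero_mul]
  rw [hz, zero_mul, add_zero] at hθ
  rw [hθ, hgr]
  ring

end Pool.Agent.Lib.MP_1bbd88_ag.T
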