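import Pool.Agent.Lib.MP_1bbd88_ag.T.H0
import Pool.Agent.Lib.MP_1bbd88_ag.T.H4

set_option autoImplicit false

namespace Pool.Agent.Lib.MP_1bbd88_ag.T

open Module Polynomial Pool.Agent.Lib.MP_1bbd88_ag.S

variable {k : Type*} [Field k] {p : ℕ} [Fact p.Prime] [CharP k p]

theorem H5_axis (d q : ℕ) (g : W (d + 1) q k) (hg : g ∈ wm (d + 1) q k) :
    ∃ γ : k, g - algebraMap k (W (d + 1) q k) γ * wx (d + 1) q k (Fin.last d) ∈ MM k d q := by
  rw [wm, Ideal.mem_span_range_iff_exists_fun] at hg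
  obtain ⟨a, ha⟩ := hg
  obtain ⟨γ, hγ⟩ := exists_const (d + 1) q (a (Fin.last d))
  refine ⟨γ, ?_⟩
  rw [Fin.sum_univ_castSucc] at ha
  have e : g - algebraMap k (W (d + 1) q k) γ * wx (d + 1) q k (Fin.last d) =
      ∑ i : Fin d, a i.castSucc * wx (d + 1) q k i.castSucc +
        (a (Fin.last d) - algebraMap k (W (d + 1) q k) γ) * wx (d + 1) q k (Fin.last d) := by
    rw [← ha]
    ring
  rw [e, MM]
  refine Ideal.add_mem _ (Ideal.mem_sup_left (Ideal.sum_mem _ fun i _ =>
    Ideal.mul_mem_left _ _ (Ideal.subset_span ⟨i, rfl⟩))) (Ideal.mem_sup_right ?_)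
  rw [pow_two]
  exact Ideal.mul_mem_mul hγ (Ideal.subset_span ⟨Fin.last d, rfl⟩)

/-- normal form of an element whose quadratic part has vanishing last row and column -/
theorem expand_quad (hp : p ≠ 2) (d q : ℕ) (G : W (d + 1) q k)
    (h0 : Matrix (Fin (d + 1)) (Fin (d + 1)) k) (hs : h0.IsSymm) (hG : HasQ G h0)
    (hl : ∀ i, h0 i (Fin.last d) = 0) :
    ∃ (h : Matrix (Fin d) (Fin d) (W (d + 1) q k)) (b : Fin d → W (d + 1) q k)
      (g : W (d + 1) q k) (γ : k), h.IsSymm ∧
      (∀ i j, h i j - algebraMap k (W (d + 1) q k) (h0 i.castSucc j.castSucc) ∈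
        wm (d + 1) q k) ∧ (∀ i, b i ∈ wm (d + 1) q k) ∧
      g - algebraMap k (W (d + 1) q k) γ * wx (d + 1) q k (Fin.last d) ∈ MM k d q ∧
      G = ∑ i, ∑ j, h i j * (wx (d + 1) q k i.castSucc * wx (d + 1) q k j.castSucc) +
        2 * wx (d + 1) q k (Fin.last d) * ∑ i, b i * wx (d + 1) q k i.castSucc +
        wx (d + 1) q k (Fin.last d) ^ 2 * g := by
  obtain ⟨H, hHs, hHm, hH⟩ := exists_symm_of_cube hp (d + 1) q _ hG
  obtain ⟨γ, hγ⟩ := H5_axis d q _ (hHm (Fin.last d) (Fin.last d))
  have hl' : ∀ j, h0 (Fin.last d) j = 0 := fun j => by rw [← hs.apply, hl]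
  have hH' : ∀ j, H (Fin.last d) j = H j (Fin.last d) := fun j => hHs.apply _ _
  refine ⟨fun i j => algebraMap k (W (d + 1) q k) (h0 i.castSucc j.castSucc) +
    H i.castSucc j.castSucc, fun i => H i.castSucc (Fin.last d), H (Fin.last d) (Fin.last d), γ,
    ?_, ?_, fun i => hHm _ _, hγ, ?_⟩
  · refine Matrix.IsSymm.ext fun i j => ?_
    show algebraMap k (W (d + 1) q k) (h0 j.castSucc i.castSucc) + H j.castSucc i.castSucc =
      algebraMap k (W (d + 1) q k) (h0 i.castSucc j.castSucc) + H i.castSucc j.castSucc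
    rw [hs.apply, hHs.apply]
  · intro i j
    show algebraMap k (W (d + 1) q k) (h0 i.castSucc j.castSucc) + H i.castSucc j.castSucc -
      algebraMap k (W (d + 1) q k) (h0 i.castSucc j.castSucc) ∈ _
    rw [add_sub_cancel_left]
    exact hHm _ _
  · have e : G = ∑ i, ∑ j, algebraMap k (W (d + 1) q k) (h0 i j) *
        (wx (d + 1) q k i * wx (d + 1) q k j) +
        ∑ i, ∑ j, H i j * (wx (d + 1) q k i * wx (d + 1) q k j) := by
      rw [← hH]
      ring
    have e1 : ∑ i, ∑ j, algebraMap k (W (d + 1) q k) (h0 i j) *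
        (wx (d + 1) q k i * wx (d + 1) q k j) =
        ∑ i : Fin d, ∑ j : Fin d, algebraMap k (W (d + 1) q k) (h0 i.castSucc j.castSucc) *
          (wx (d + 1) q k i.castSucc * wx (d + 1) q k j.castSucc) := by
      rw [Fin.sum_univ_castSucc]
      simp only [hl', map_zero, zero_mul, Finset.sum_const_zero, add_zero]
      refine Finset.sum_congr rfl fun i _ => ?_
      rw [Fin.sum_univ_castSucc, hl, map_zero, zero_mul, add_zero]
    have e2 : ∑ i, ∑ j, H i j * (wx (d + 1) q k i * wx (d + 1) q k j) =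
        ∑ i : Fin d, ∑ j : Fin d, H i.castSucc j.castSucc *
          (wx (d + 1) q k i.castSucc * wx (d + 1) q k j.castSucc) +
        2 * wx (d + 1) q k (Fin.last d) * ∑ i : Fin d, H i.castSucc (Fin.last d) *
          wx (d + 1) q k i.castSucc +
        wx (d + 1) q k (Fin.last d) ^ 2 * H (Fin.last d) (Fin.last d) := by
      rw [Fin.sum_univ_castSucc]
      have e3 : ∑ i : Fin d, ∑ j, H i.castSucc j * (wx (d + 1) q k i.castSucc * wx (d + 1) q k j) =
          ∑ i : Fin d, ∑ j : Fin d, H i.castSucc j.castSucc *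
            (wx (d + 1) q k i.castSucc * wx (d + 1) q k j.castSucc) +
          wx (d + 1) q k (Fin.last d) * ∑ i : Fin d, H i.castSucc (Fin.last d) *
            wx (d + 1) q k i.castSucc := by
        rw [Finset.mul_sum, ← Finset.sum_add_distrib]
        refine Finset.sum_congr rfl fun i _ => ?_
        rw [Fin.sum_univ_castSucc]
        ring
      have e4 : ∑ j, H (Fin.last d) j * (wx (d + 1) q k (Fin.last d) * wx (d + 1) q k j) =
          wx (d + 1) q k (Fin.last d) * ∑ i : Fin d, H i.castSucc (Fin.last d) *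
            wx (d + 1) q k i.castSucc +
          wx (d + 1) q k (Fin.last d) ^ 2 * H (Fin.last d) (Fin.last d) := by
        rw [Fin.sum_univ_castSucc, Finset.mul_sum]
        refine congrArg₂ (· + ·) (Finset.sum_congr rfl fun j _ => ?_) (by ring)
        rw [hH']
        ring
      rw [e3, e4]
      ring
    have e5 : ∑ i : Fin d, ∑ j : Fin d, (algebraMap k (W (d + 1) q k) (h0 i.castSucc j.castSucc) +
        H i.castSucc j.castSucc) * (wx (d + 1) q k i.castSucc * wx (d + 1) q k j.castSucc) =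
        ∑ i : Fin d, ∑ j : Fin d, algebraMap k (W (d + 1) q k) (h0 i.castSucc j.castSucc) *
          (wx (d + 1) q k i.castSucc * wx (d + 1) q k j.castSucc) +
        ∑ i : Fin d, ∑ j : Fin d, H i.castSucc j.castSucc *
          (wx (d + 1) q k i.castSucc * wx (d + 1) q k j.castSucc) := by
      rw [← Finset.sum_add_distrib]
      refine Finset.sum_congr rfl fun i _ => ?_
      rw [← Finset.sum_add_distrib]
      exact Finset.sum_congr rfl fun j _ => add_mul _ _ _
    show G = ∑ i : Fin d, ∑ j : Fin d, (algebraMap k (W (d + 1) q k)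
      (h0 i.castSucc j.castSucc) + H i.castSucc j.castSucc) *
        (wx (d + 1) q k i.castSucc * wx (d + 1) q k j.castSucc) + _ + _
    rw [e5, e, e1, e2]
    ring

end Pool.Agent.Lib.MP_1bbd88_ag.T
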