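import Pool.Agent.Lib.MP_1bbd88_ag.T.G1
import Pool.Agent.Lib.MP_1bbd88_ag.T.G2
import Pool.Agent.Lib.MP_1bbd88_ag.T.H0
import Pool.Agent.Lib.MP_1bbd88_ag.T.H1
import Pool.Agent.Lib.MP_1bbd88_ag.T.H2
import Pool.Agent.Lib.MP_1bbd88_ag.T.H3
import Pool.Agent.Lib.MP_1bbd88_ag.T.H4b
import Pool.Agent.Lib.MP_1bbd88_ag.T.H5

set_option autoImplicit false

namespace Pool.Agent.Lib.MP_1bbd88_ag.T

open Module Polynomial Pool.Agent.Lib.MP_1bbd88_ag.S

variable {k : Type*} [Field k] [IsAlgClosed k] {p : ℕ} [Fact p.Prime] [CharP k p]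

omit [IsAlgClosed k] [Fact p.Prime] [CharP k p] in
private theorem H6_equiv {A B : Type*} [CommRing A] [Algebra k A] [CommRing B] [Algebra k B]
    (φ : A ≃ₐ[k] B) (a : A) :
    finrank k (A ⧸ Ideal.span {a}) = finrank k (B ⧸ Ideal.span {φ a}) := by
  have h : Ideal.span {φ a} = (Ideal.span {a}).map (φ : A →+* B) := by
    rw [Ideal.map_span, Set.image_singleton]
    rfl
  exact (Ideal.quotientEquivAlg _ _ φ h).toLinearEquiv.finrank_eq

omit [IsAlgClosed k] [Fact p.Prime] [CharP k p] in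
/-- the colength of `∑ u_i ^ 2 + x ^ 2 ψ(x)` -/
private theorem H6_finrank_split (d q : ℕ) (ψ : k[X]) (h0 : ψ.coeff 0 = 0) (h1 : ψ.coeff 1 ≠ 0) :
    finrank k (W (d + 1) q k ⧸ Ideal.span {∑ i : Fin d, wx (d + 1) q k i.castSucc ^ 2 +
      wx (d + 1) q k (Fin.last d) ^ 2 * aeval (wx (d + 1) q k (Fin.last d)) ψ}) =
      D3 (ph k d q) q := by
  obtain ⟨φ, hφ1, hφ2⟩ := exists_succ (k := k) d q
  have hψ : ψ = X * divX ψ := by
    have := X_mul_divX_add ψ
    rw [h0, C_0, add_zero] at this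
    exact this.symm
  have hε : (divX ψ).coeff 0 ≠ 0 := by
    rw [coeff_divX]
    exact h1
  have e1 : φ (∑ i : Fin d, wx (d + 1) q k i.castSucc ^ 2 +
      wx (d + 1) q k (Fin.last d) ^ 2 * aeval (wx (d + 1) q k (Fin.last d)) ψ) =
      tc q (sq k d q) + ty (W d q k) q ^ 3 * aeval (ty (W d q k) q) (divX ψ) := by
    have e2 : φ (aeval (wx (d + 1) q k (Fin.last d)) ψ) = aeval (ty (W d q k) q) ψ := by
      rw [← hφ2]
      exact (Polynomial.aeval_algHom_apply φ.toAlgHom _ ψ).symm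
    have e3 : aeval (ty (W d q k) q) ψ = ty (W d q k) q * aeval (ty (W d q k) q) (divX ψ) := by
      conv_lhs => rw [hψ]
      rw [map_mul, aeval_X]
    have e4 : tc q (sq k d q) = ∑ i : Fin d, tc q (wx d q k i) ^ 2 := by
      unfold tc sq
      rw [map_sum, map_sum]
      refine Finset.sum_congr rfl fun i _ => ?_
      rw [map_pow, map_pow]
    rw [map_add, map_sum, map_mul, map_pow, e2, e3, hφ2, e4]
    congr 1
    · refine Finset.sum_congr rfl fun i _ => ?_
      rw [map_pow, hφ1]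
    · ring
  rw [H6_equiv φ, e1, finrank_add_pow (sq k d q) q 3 (by norm_num) (divX ψ) hε]
  rw [Finset.sum_range_succ, Finset.sum_range_succ, Finset.sum_range_one]
  have a0 : (q - 0 + 3 - 1) / 3 = (q + 2) / 3 := by omega
  have a1 : (q - 1 + 3 - 1) / 3 = (q + 1) / 3 := by omega
  have a2 : (q - 2 + 3 - 1) / 3 = q / 3 := by omega
  rw [a0, a1, a2]
  rfl

/-- the colength of `∑ u_i ^ 2 + x ^ 2 ψ(x)` -/
theorem finrank_split (d q : ℕ) (ψ : k[X]) (h0 : ψ.coeff 0 = 0) (h1 : ψ.coeff 1 ≠ 0) :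
    finrank k (W (d + 1) q k ⧸ Ideal.span {∑ i : Fin d, wx (d + 1) q k i.castSucc ^ 2 +
      wx (d + 1) q k (Fin.last d) ^ 2 * aeval (wx (d + 1) q k (Fin.last d)) ψ}) =
      D3 (ph k d q) q := H6_finrank_split d q ψ h0 h1

/-- elements with degenerate quadratic part -/
theorem D3_le_of_degenerate (hp : p ≠ 2) (d e : ℕ) (G : W (d + 1) (p ^ e) k)
    (h0 : Matrix (Fin (d + 1)) (Fin (d + 1)) k) (hs : h0.IsSymm) (hG : HasQ G h0)
    (hd : h0.det = 0) :
    D3 (ph k d (p ^ e)) (p ^ e) ≤ finrank k (W (d + 1) (p ^ e) k ⧸ Ideal.span {G}) := by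
  obtain ⟨B, hB, hcol, hrow⟩ := exists_kernel_last d h0 hs hd
  obtain ⟨θ, _, hθG, _⟩ := hasQ_linear (d + 1) e G h0 hG B hB
  have hs' : (B.transpose * h0 * B).IsSymm := by
    unfold Matrix.IsSymm
    rw [Matrix.transpose_mul, Matrix.transpose_mul, Matrix.transpose_transpose, hs.eq, mul_assoc]
  obtain ⟨h, b, g, γ, hh1, hh2, hb, hg, hexp⟩ :=
    expand_quad hp d (p ^ e) (θ G) (B.transpose * h0 * B) hs' hθG hcol
  obtain ⟨h0', hh0'⟩ : ∃ h0' : Matrix (Fin d) (Fin d) k,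
      h0' = fun i j => (B.transpose * h0 * B) i.castSucc j.castSucc := ⟨_, rfl⟩
  have hs0' : h0'.IsSymm := by
    rw [hh0']
    ext i j
    exact hs'.apply i.castSucc j.castSucc
  obtain ⟨E, hE⟩ : ∃ E : k[X], E = (-h0').charpoly * (X + C γ) := ⟨_, rfl⟩
  have hE0 : E ≠ 0 := by
    rw [hE]
    exact mul_ne_zero (Matrix.charpoly_monic _).ne_zero (monic_X_add_C γ).ne_zero
  obtain ⟨c, hc, hle⟩ := exists_good d (p ^ e) (θ G) E hE0
  rw [hE, eval_mul, Matrix.eval_charpoly, eval_add, eval_X, eval_C] at hc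
  have hc1 := left_ne_zero_of_mul hc
  have hc2 := right_ne_zero_of_mul hc
  rw [sub_neg_eq_add] at hc1
  -- the matrix of the perturbed element
  obtain ⟨H0, hH0⟩ : ∃ H0 : Matrix (Fin d) (Fin d) k, H0 = Matrix.scalar (Fin d) c + h0' :=
    ⟨_, rfl⟩
  have hH0s : H0.IsSymm := by
    rw [hH0]
    unfold Matrix.IsSymm
    rw [Matrix.transpose_add, hs0'.eq]
    congr 1
    rw [Matrix.scalar_apply, Matrix.diagonal_transpose]
  have hH0d : IsUnit H0.det := by
    rw [hH0]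
    exact isUnit_iff_ne_zero.2 hc1
  obtain ⟨H, hH⟩ : ∃ H : Matrix (Fin d) (Fin d) (W (d + 1) (p ^ e) k),
      H = h + Matrix.scalar (Fin d) (algebraMap k (W (d + 1) (p ^ e) k) c) := ⟨_, rfl⟩
  have hHs : H.IsSymm := by
    rw [hH]
    unfold Matrix.IsSymm
    rw [Matrix.transpose_add, hh1.eq]
    congr 1
    rw [Matrix.scalar_apply, Matrix.diagonal_transpose]
  have hHH : ∀ i j, H i j - algebraMap k (W (d + 1) (p ^ e) k) (H0 i j) ∈
      wm (d + 1) (p ^ e) k := by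
    intro i j
    have e1 : H i j - algebraMap k (W (d + 1) (p ^ e) k) (H0 i j) =
        h i j - algebraMap k (W (d + 1) (p ^ e) k)
          ((B.transpose * h0 * B) i.castSucc j.castSucc) := by
      rw [hH, hH0, Matrix.add_apply, Matrix.add_apply, map_add, hh0', Matrix.scalar_apply,
        Matrix.scalar_apply, Matrix.diagonal_apply, Matrix.diagonal_apply]
      split_ifs with hij
      · ring
      · rw [map_zero]; ring
    rw [e1]
    exact hh2 i j
  have hgc : (g + algebraMap k (W (d + 1) (p ^ e) k) c * wx (d + 1) (p ^ e) k (Fin.last d)) -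
      algebraMap k (W (d + 1) (p ^ e) k) (c + γ) * wx (d + 1) (p ^ e) k (Fin.last d) ∈
      MM k d (p ^ e) := by
    have e1 : (g + algebraMap k (W (d + 1) (p ^ e) k) c * wx (d + 1) (p ^ e) k (Fin.last d)) -
        algebraMap k (W (d + 1) (p ^ e) k) (c + γ) * wx (d + 1) (p ^ e) k (Fin.last d) =
        g - algebraMap k (W (d + 1) (p ^ e) k) γ * wx (d + 1) (p ^ e) k (Fin.last d) := by
      rw [map_add]
      ring
    rw [e1]
    exact hg
  obtain ⟨θ2, g1, hθ2, hg1⟩ := split_block hp d e H0 hH0s hH0d H hHs hHH b hb _ (c + γ) hgc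
  obtain ⟨θ3, ψ, hψ0, hψ1, hθ3⟩ := splitting hp d e g1 (c + γ) hg1
  have hsum : ∑ i, ∑ j, H i j * (wx (d + 1) (p ^ e) k i.castSucc *
      wx (d + 1) (p ^ e) k j.castSucc) =
      ∑ i, ∑ j, h i j * (wx (d + 1) (p ^ e) k i.castSucc * wx (d + 1) (p ^ e) k j.castSucc) +
        algebraMap k (W (d + 1) (p ^ e) k) c *
          ∑ i : Fin d, wx (d + 1) (p ^ e) k i.castSucc ^ 2 := by
    rw [Finset.mul_sum, ← Finset.sum_add_distrib]
    refine Finset.sum_congr rfl fun i _ => ?_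
    have e1 : ∀ j, H i j * (wx (d + 1) (p ^ e) k i.castSucc * wx (d + 1) (p ^ e) k j.castSucc) =
        h i j * (wx (d + 1) (p ^ e) k i.castSucc * wx (d + 1) (p ^ e) k j.castSucc) +
          (if i = j then algebraMap k (W (d + 1) (p ^ e) k) c *
            (wx (d + 1) (p ^ e) k i.castSucc * wx (d + 1) (p ^ e) k j.castSucc) else 0) := by
      intro j
      rw [hH, Matrix.add_apply, Matrix.scalar_apply, Matrix.diagonal_apply, add_mul]
      split_ifs with hij
      · rfl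
      · rw [zero_mul]
    rw [Finset.sum_congr rfl fun j _ => e1 j, Finset.sum_add_distrib, Finset.sum_ite_eq,
      if_pos (Finset.mem_univ i), pow_two]
  have hfin : θ G + algebraMap k (W (d + 1) (p ^ e) k) c *
      (∑ i : Fin d, wx (d + 1) (p ^ e) k i.castSucc ^ 2 +
        wx (d + 1) (p ^ e) k (Fin.last d) ^ 3) =
      θ2 (θ3 (∑ i : Fin d, wx (d + 1) (p ^ e) k i.castSucc ^ 2 +
        wx (d + 1) (p ^ e) k (Fin.last d) ^ 2 *
          aeval (wx (d + 1) (p ^ e) k (Fin.last d)) ψ)) := by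
    rw [hθ3, hθ2, hsum, hexp]
    ring
  rw [hfin, ← H6_equiv θ2, ← H6_equiv θ3, finrank_split d (p ^ e) ψ hψ0 (by
    rw [hψ1]; exact hc2), ← H6_equiv θ] at hle
  exact hle

end Pool.Agent.Lib.MP_1bbd88_ag.T
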