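import Pool.Agent.Lib.MP_1bbd88_ag.T.TDefs

set_option autoImplicit false

namespace Pool.Agent.Lib.MP_1bbd88_ag.T

open Module Polynomial Pool.Agent.Lib.MP_1bbd88_ag.S

variable {k : Type*} [Field k] [IsAlgClosed k]

private theorem K1_extend {F V : Type*} [Field F] [AddCommGroup V] [Module F V]
    [FiniteDimensional F V] {m : ℕ} (w : Fin m → V) (hw : LinearIndependent F w) {m' : ℕ}
    (hm : m ≤ m') (hV : m' ≤ finrank F V) :
    ∃ w' : Fin m' → V, LinearIndependent F w' ∧ ∀ i : Fin m, w' (Fin.castLE hm i) = w i := by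
  induction m', hm using Nat.le_induction with
  | base => exact ⟨w, hw, fun i => rfl⟩
  | succ m' hm ih =>
    obtain ⟨w', hw', h⟩ := ih (by omega)
    obtain ⟨x, hx⟩ := exists_linearIndependent_snoc_of_lt_finrank hw' (Nat.lt_of_succ_le hV)
    refine ⟨_, hx, fun i => ?_⟩
    rw [← h i]
    exact Fin.snoc_castSucc (α := fun _ => V) x w' (Fin.castLE hm i)

private theorem K1_isotropic {N : ℕ} (i0 i1 : Fin N) (h01 : i0 ≠ i1)
    (h0 : Matrix (Fin N) (Fin N) k) :
    ∃ v : Fin N → k, v ≠ 0 ∧ dotProduct v (h0.mulVec v) = 0 := by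
  by_cases ha : h0 i0 i0 = 0
  · refine ⟨Pi.single i0 1, ?_, ?_⟩
    · intro h
      have := congrFun h i0
      simp at this
    · simp [ha]
  · obtain ⟨x, hx⟩ := IsAlgClosed.exists_root
      (C (h0 i0 i0) * X ^ 2 + C (h0 i0 i1 + h0 i1 i0) * X + C (h0 i1 i1))
      (by rw [degree_quadratic ha]; norm_num)
    refine ⟨Pi.single i0 x + Pi.single i1 1, ?_, ?_⟩
    · intro h
      have := congrFun h i1
      simp [h01.symm] at this
    · have h2 : h0 i0 i0 * x ^ 2 + (h0 i0 i1 + h0 i1 i0) * x + h0 i1 i1 = 0 := by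
        simpa [IsRoot] using hx
      rw [Matrix.mulVec_add, dotProduct_add, add_dotProduct, add_dotProduct]
      simp
      linear_combination h2

/-- a quadratic form in more than `D` variables is degenerate on some subspace of dimension `D` -/
theorem exists_degenerate_block (D s : ℕ) (hD : 0 < D) (hs : 0 < s)
    (h0 : Matrix (Fin (D + s)) (Fin (D + s)) k) (hsym : h0.IsSymm) :
    ∃ B : Matrix (Fin (D + s)) (Fin (D + s)) k, IsUnit B.det ∧
      (Matrix.of fun i j : Fin D =>
        (B.transpose * h0 * B) (Fin.castAdd s i) (Fin.castAdd s j)).det = 0 := by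
  obtain ⟨v, hv0, hv⟩ := K1_isotropic (⟨0, by omega⟩ : Fin (D + s)) ⟨1, by omega⟩
    (by simp) h0
  let φ : (Fin (D + s) → k) →ₗ[k] k :=
    { toFun := fun w => dotProduct v (h0.mulVec w)
      map_add' := fun a b => by rw [Matrix.mulVec_add, dotProduct_add]
      map_smul' := fun c a => by rw [Matrix.mulVec_smul, dotProduct_smul]; rfl }
  have hφ : ∀ w, φ w = dotProduct v (h0.mulVec w) := fun w => rfl
  let K := LinearMap.ker φ
  have hK : D ≤ finrank k K := by
    have h1 := LinearMap.finrank_range_add_finrank_ker φ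
    have h2 : finrank k (LinearMap.range φ) ≤ 1 := by
      have := Submodule.finrank_le (LinearMap.range φ)
      rwa [finrank_self] at this
    rw [finrank_fin_fun] at h1
    change D ≤ finrank k (LinearMap.ker φ)
    omega
  have hvK : v ∈ K := by
    change φ v = 0
    rw [hφ]
    exact hv
  let w0 : Fin 1 → K := fun _ => ⟨v, hvK⟩
  have hw0 : LinearIndependent k w0 := by
    rw [linearIndependent_unique_iff]
    intro h
    exact hv0 (congrArg Subtype.val h)
  obtain ⟨w1, hw1, h1⟩ := K1_extend w0 hw0 (Nat.succ_le_of_lt hD) hK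
  have hw1' : LinearIndependent k (fun i => (w1 i : Fin (D + s) → k)) :=
    hw1.map' K.subtype (Submodule.ker_subtype K)
  obtain ⟨w2, hw2, h2⟩ := K1_extend (fun i => (w1 i : Fin (D + s) → k)) hw1'
    (Nat.le_add_right D s) (by rw [finrank_fin_fun])
  have hcast : ∀ i : Fin D, w2 (Fin.castAdd s i) = w1 i := fun i => h2 i
  refine ⟨Matrix.of fun i j => w2 j i, ?_, ?_⟩
  · rw [← Matrix.isUnit_iff_isUnit_det, ← Matrix.linearIndependent_cols_iff_isUnit]
    exact hw2
  · refine Matrix.det_eq_zero_of_row_eq_zero ⟨0, hD⟩ fun j => ?_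
    have e : (((Matrix.of fun i j => w2 j i).transpose * h0 * Matrix.of fun i j => w2 j i)
        (Fin.castAdd s ⟨0, hD⟩) (Fin.castAdd s j)) =
        dotProduct (Matrix.vecMul (w2 (Fin.castAdd s ⟨0, hD⟩)) h0) (w2 (Fin.castAdd s j)) := rfl
    change (((Matrix.of fun i j => w2 j i).transpose * h0 * Matrix.of fun i j => w2 j i)
        (Fin.castAdd s ⟨0, hD⟩) (Fin.castAdd s j)) = 0
    rw [e, ← Matrix.dotProduct_mulVec, hcast, hcast]
    have h3 : (w1 ⟨0, hD⟩ : Fin (D + s) → k) = v := congrArg Subtype.val (h1 0)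
    rw [h3]
    exact (w1 j).2

end Pool.Agent.Lib.MP_1bbd88_ag.T
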