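import Pool.Agent.Lib.MP_1bbd88_ag.T.H0
import Pool.Agent.Lib.MP_1bbd88_ag.S.E2b

set_option autoImplicit false

namespace Pool.Agent.Lib.MP_1bbd88_ag.T

open Module Polynomial Pool.Agent.Lib.MP_1bbd88_ag.S

theorem K2_unit {k A : Type*} [Field k] [CommRing A] [Algebra k A] (I : Ideal A) (n : ℕ)
    (hn : I ^ n = ⊥) {m : ℕ} (d : Fin m → k) (hd : ∀ i, d i ≠ 0)
    (N : Matrix (Fin m) (Fin m) A) (hN : ∀ i l, N i l ∈ I) :
    IsUnit (Matrix.diagonal (fun i => algebraMap k A (d i)) + N).det := by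
  have h1 : (Matrix.diagonal (fun i => algebraMap k A (d i)) + N).det -
      algebraMap k A (∏ i, d i) ∈ I := by
    rw [← Ideal.Quotient.eq_zero_iff_mem, map_sub, sub_eq_zero]
    refine (RingHom.map_det (Ideal.Quotient.mk I) _).trans ?_
    have h2 : (Ideal.Quotient.mk I).mapMatrix
        (Matrix.diagonal (fun i => algebraMap k A (d i)) + N) =
        (Ideal.Quotient.mk I).mapMatrix
          (Matrix.diagonal (fun i => algebraMap k A (d i))) := by
      rw [map_add]
      have h3 : (Ideal.Quotient.mk I).mapMatrix N = 0 := by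
        ext i l
        rw [RingHom.mapMatrix_apply, Matrix.map_apply, Matrix.zero_apply]
        exact Ideal.Quotient.eq_zero_iff_mem.2 (hN i l)
      rw [h3, add_zero]
    rw [h2]
    refine (RingHom.map_det (Ideal.Quotient.mk I) _).symm.trans ?_
    rw [Matrix.det_diagonal, map_prod (algebraMap k A)]
  have h7 : (∏ i, d i) ≠ 0 := Finset.prod_ne_zero_iff.2 fun i _ => hd i
  have h8 : IsUnit (algebraMap k A (∏ i, d i)) := (isUnit_iff_ne_zero.2 h7).map _
  have h9 : IsNilpotent ((Matrix.diagonal (fun i => algebraMap k A (d i)) + N).det -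
      algebraMap k A (∏ i, d i)) := by
    refine ⟨n, ?_⟩
    have := Ideal.pow_mem_pow h1 n
    rw [hn] at this
    exact (Ideal.mem_bot).1 this
  have h10 := h9.isUnit_add_left_of_commute h8 (Commute.all _ _)
  rwa [add_sub_cancel] at h10

theorem K2_mat {k : Type*} [Field k] (D s q : ℕ) (H : Fin s → W (D + s) q k)
    (hH : ∀ j, H j ∈ wm (D + s) q k ^ 2) (c : k) (hc : c ≠ 0) :
    ∃ E : Matrix (Fin (D + s)) (Fin (D + s)) (W (D + s) q k), IsUnit E.det ∧
      (∀ i : Fin D, ∑ l, E (Fin.castAdd s i) l * wx (D + s) q k l =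
        wx (D + s) q k (Fin.castAdd s i)) ∧
      (∀ j : Fin s, ∑ l, E (Fin.natAdd D j) l * wx (D + s) q k l =
        H j + algebraMap k (W (D + s) q k) c * wx (D + s) q k (Fin.natAdd D j)) := by
  have h1 : ∀ j, ∃ h : Fin (D + s) → W (D + s) q k, (∀ l, h l ∈ wm (D + s) q k) ∧
      ∑ l, h l * wx (D + s) q k l = H j := by
    intro j
    have h2 : H j ∈ wm (D + s) q k • Submodule.span (W (D + s) q k)
        (Set.range (wx (D + s) q k)) := by
      have h3 := hH j
      rw [pow_two] at h3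
      exact h3
    obtain ⟨a, ha, ha2⟩ := (Submodule.mem_ideal_smul_span_iff_exists_sum (wm (D + s) q k)
      (wx (D + s) q k) (H j)).1 h2
    refine ⟨a, ha, ?_⟩
    rw [← ha2, Finsupp.sum_fintype]
    · rfl
    · intro i
      exact zero_smul _ _
  choose h hh1 hh2 using h1
  obtain ⟨n, hn⟩ := wm_nilp (k := k) (D + s) q
  refine ⟨Matrix.diagonal (fun i => algebraMap k (W (D + s) q k)
      (Fin.addCases (fun _ => 1) (fun _ => c) i)) +
    Matrix.of (fun i l => Fin.addCases (motive := fun _ => W (D + s) q k) (fun _ => 0)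
      (fun j => h j l) i), ?_, ?_, ?_⟩
  · refine K2_unit (wm (D + s) q k) n hn _ ?_ _ ?_
    · intro i
      refine Fin.addCases (fun i => ?_) (fun j => ?_) i
      · simp
      · simpa using hc
    · intro i l
      refine Fin.addCases (fun i => ?_) (fun j => ?_) i
      · simp
      · simpa using hh1 j l
  · intro i
    simp [Matrix.diagonal_apply]
  · intro j
    simp [Matrix.diagonal_apply, add_mul, Finset.sum_add_distrib, hh2, add_comm]

variable {k : Type*} [Field k] {p : ℕ} [Fact p.Prime] [CharP k p]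

/-- killing `s` coordinates, with the quadratic part -/
theorem kill_sq (D s e : ℕ) (G : W (D + s) (p ^ e) k)
    (h0 : Matrix (Fin (D + s)) (Fin (D + s)) k) (hG : HasQ G h0)
    (H : Fin s → W (D + s) (p ^ e) k) (hH : ∀ j, H j ∈ wm (D + s) (p ^ e) k ^ 2)
    (c : k) (hc : c ≠ 0) :
    ∃ G' : W D (p ^ e) k,
      HasQ G' (Matrix.of fun i j : Fin D => h0 (Fin.castAdd s i) (Fin.castAdd s j)) ∧
      finrank k (W D (p ^ e) k ⧸ Ideal.span {G'}) =
      finrank k (W (D + s) (p ^ e) k ⧸ (Ideal.span {G} ⊔ Ideal.span (Set.range fun j : Fin s =>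
        H j + algebraMap k (W (D + s) (p ^ e) k) c * wx (D + s) (p ^ e) k (Fin.natAdd D j)))) := by
  obtain ⟨E, hE, hE1, hE2⟩ := K2_mat D s (p ^ e) H hH c hc
  obtain ⟨θ, hθ⟩ := coord_change (k := k) (D + s) e E hE
  obtain ⟨π, hπs, hπ1, hπ2, hπk⟩ := exists_kill (k := k) D s (p ^ e)
    (pow_ne_zero e (Fact.out (p := p.Prime)).ne_zero)
  have h1 := E2b_ideal (wx (D + s) (p ^ e) k) E hE (θ : W (D + s) (p ^ e) k →ₐ[k] _) hθ
  have h4 : ∀ j, π (θ.symm (H j)) ∈ wm D (p ^ e) k ^ 2 := fun j =>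
    E2b_map _ _ π hπ1 hπ2 _ (E2b_symm _ θ h1 _ (hH j))
  have h5 : ∀ i : Fin D, π (θ.symm (wx (D + s) (p ^ e) k (Fin.castAdd s i))) =
      wx D (p ^ e) k i := by
    intro i
    have h6 : θ.symm (wx (D + s) (p ^ e) k (Fin.castAdd s i)) =
        wx (D + s) (p ^ e) k (Fin.castAdd s i) := by
      rw [AlgEquiv.symm_apply_eq, hθ, hE1]
    rw [h6, hπ1]
  have h7 : ∀ j : Fin s, π (θ.symm (wx (D + s) (p ^ e) k (Fin.natAdd D j))) ∈
      wm D (p ^ e) k ^ 2 := by
    intro j
    have h8 : θ.symm (H j + algebraMap k (W (D + s) (p ^ e) k) c *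
        wx (D + s) (p ^ e) k (Fin.natAdd D j)) = wx (D + s) (p ^ e) k (Fin.natAdd D j) := by
      rw [AlgEquiv.symm_apply_eq, hθ, hE2]
    have h9 := congrArg π h8
    rw [hπ2, map_add, map_add, map_mul, map_mul, AlgEquiv.commutes, AlgHom.commutes] at h9
    have h10 : π (θ.symm (wx (D + s) (p ^ e) k (Fin.natAdd D j))) =
        algebraMap k (W D (p ^ e) k) (-c⁻¹) * π (θ.symm (H j)) := by
      have h11 : algebraMap k (W D (p ^ e) k) c⁻¹ * algebraMap k (W D (p ^ e) k) c = 1 := by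
        rw [← map_mul, inv_mul_cancel₀ hc, map_one]
      rw [map_neg]
      linear_combination (algebraMap k (W D (p ^ e) k) c⁻¹) * h9 -
        (π (θ.symm (wx (D + s) (p ^ e) k (Fin.natAdd D j)))) * h11
    rw [h10]
    exact Ideal.mul_mem_left _ _ (h4 j)
  have h12 : ∀ i, π (θ.symm (wx (D + s) (p ^ e) k i)) ∈ wm D (p ^ e) k := by
    intro i
    refine Fin.addCases (fun i => ?_) (fun j => ?_) i
    · rw [h5]
      exact Ideal.subset_span ⟨i, rfl⟩
    · exact Ideal.pow_le_self two_ne_zero (h7 j)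
  refine ⟨π (θ.symm G), ?_, E2b_main _ _ θ π hπs hπk (fun j => ?_) G⟩
  · have h13 : (wm (D + s) (p ^ e) k).map
        ((π.comp (θ.symm : W (D + s) (p ^ e) k →ₐ[k] W (D + s) (p ^ e) k)) :
          W (D + s) (p ^ e) k →+* W D (p ^ e) k) ≤ wm D (p ^ e) k := by
      rw [wm, Ideal.map_span, Ideal.span_le]
      rintro _ ⟨_, ⟨i, rfl⟩, rfl⟩
      exact h12 i
    have h14 := Ideal.mem_map_of_mem ((π.comp (θ.symm : W (D + s) (p ^ e) k →ₐ[k]
      W (D + s) (p ^ e) k)) : W (D + s) (p ^ e) k →+* W D (p ^ e) k) hG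
    rw [Ideal.map_pow] at h14
    have h15 := Ideal.pow_right_mono h13 3 h14
    have h16 : π (θ.symm (G - ∑ i, ∑ j, algebraMap k (W (D + s) (p ^ e) k) (h0 i j) *
        (wx (D + s) (p ^ e) k i * wx (D + s) (p ^ e) k j))) ∈ wm D (p ^ e) k ^ 3 := h15
    have h17 : ∀ a b : W D (p ^ e) k, a ∈ wm D (p ^ e) k → b ∈ wm D (p ^ e) k ^ 2 →
        a * b ∈ wm D (p ^ e) k ^ 3 := by
      intro a b ha hb
      rw [pow_succ']
      exact Ideal.mul_mem_mul ha hb
    have h18 : π (θ.symm (G - ∑ i, ∑ j, algebraMap k (W (D + s) (p ^ e) k) (h0 i j) *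
        (wx (D + s) (p ^ e) k i * wx (D + s) (p ^ e) k j))) =
        π (θ.symm G) - ∑ i, ∑ j, algebraMap k (W D (p ^ e) k) (h0 i j) *
          (π (θ.symm (wx (D + s) (p ^ e) k i)) * π (θ.symm (wx (D + s) (p ^ e) k j))) := by
      simp only [map_sub, map_sum, map_mul, AlgEquiv.commutes, AlgHom.commutes]
    rw [h18] at h16
    unfold HasQ
    have h19 : π (θ.symm G) - ∑ i : Fin D, ∑ j : Fin D, algebraMap k (W D (p ^ e) k)
        (Matrix.of (fun i j : Fin D => h0 (Fin.castAdd s i) (Fin.castAdd s j)) i j) *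
          (wx D (p ^ e) k i * wx D (p ^ e) k j) =
        (π (θ.symm G) - ∑ i, ∑ j, algebraMap k (W D (p ^ e) k) (h0 i j) *
          (π (θ.symm (wx (D + s) (p ^ e) k i)) * π (θ.symm (wx (D + s) (p ^ e) k j)))) +
        ((∑ i : Fin D, ∑ j : Fin s, algebraMap k (W D (p ^ e) k)
          (h0 (Fin.castAdd s i) (Fin.natAdd D j)) *
          (π (θ.symm (wx (D + s) (p ^ e) k (Fin.castAdd s i))) *
            π (θ.symm (wx (D + s) (p ^ e) k (Fin.natAdd D j))))) +
          ∑ i : Fin s, ∑ j : Fin (D + s), algebraMap k (W D (p ^ e) k)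
          (h0 (Fin.natAdd D i) j) *
          (π (θ.symm (wx (D + s) (p ^ e) k (Fin.natAdd D i))) *
            π (θ.symm (wx (D + s) (p ^ e) k j)))) := by
      rw [Fin.sum_univ_add (fun i : Fin (D + s) => ∑ j, algebraMap k (W D (p ^ e) k) (h0 i j) *
          (π (θ.symm (wx (D + s) (p ^ e) k i)) * π (θ.symm (wx (D + s) (p ^ e) k j))))]
      have h20 : ∀ i : Fin D, ∑ j, algebraMap k (W D (p ^ e) k) (h0 (Fin.castAdd s i) j) *
          (π (θ.symm (wx (D + s) (p ^ e) k (Fin.castAdd s i))) *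
            π (θ.symm (wx (D + s) (p ^ e) k j))) =
          (∑ j : Fin D, algebraMap k (W D (p ^ e) k) (h0 (Fin.castAdd s i) (Fin.castAdd s j)) *
            (wx D (p ^ e) k i * wx D (p ^ e) k j)) +
          ∑ j : Fin s, algebraMap k (W D (p ^ e) k) (h0 (Fin.castAdd s i) (Fin.natAdd D j)) *
          (π (θ.symm (wx (D + s) (p ^ e) k (Fin.castAdd s i))) *
            π (θ.symm (wx (D + s) (p ^ e) k (Fin.natAdd D j)))) := by
        intro i
        rw [Fin.sum_univ_add]
        simp only [h5]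
      simp only [h20, Finset.sum_add_distrib, Matrix.of_apply]
      ring
    rw [h19]
    refine add_mem h16 (add_mem ?_ ?_)
    · exact Ideal.sum_mem _ fun i _ => Ideal.sum_mem _ fun j _ =>
        Ideal.mul_mem_left _ _ (h17 _ _ (h12 _) (h7 _))
    · refine Ideal.sum_mem _ fun i _ => Ideal.sum_mem _ fun j _ =>
        Ideal.mul_mem_left _ _ ?_
      rw [mul_comm]
      exact h17 _ _ (h12 _) (h7 _)
  · rw [hθ, hE2]

end Pool.Agent.Lib.MP_1bbd88_ag.T
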