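import Pool.Agent.Lib.MP_1bbd88_ag.T.K1
import Pool.Agent.Lib.MP_1bbd88_ag.T.K2
import Pool.Agent.Lib.MP_1bbd88_ag.T.H6

set_option autoImplicit false

namespace Pool.Agent.Lib.MP_1bbd88_ag.T

open Module Polynomial Pool.Agent.Lib.MP_1bbd88_ag.S

variable {k : Type*} [Field k] [IsAlgClosed k] {p : ℕ} [Fact p.Prime] [CharP k p]

private theorem K3_symm {R : Type*} [CommRing R] {D s : ℕ}
    (h0 B : Matrix (Fin (D + s)) (Fin (D + s)) R) (hsym : h0.IsSymm) :
    (Matrix.of fun i j : Fin D =>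
      (B.transpose * h0 * B) (Fin.castAdd s i) (Fin.castAdd s j)).IsSymm := by
  have h1 : (B.transpose * h0 * B).IsSymm := by
    rw [Matrix.IsSymm, Matrix.transpose_mul, Matrix.transpose_mul, Matrix.transpose_transpose,
      hsym.eq, Matrix.mul_assoc]
  ext i j
  rw [Matrix.transpose_apply, Matrix.of_apply, Matrix.of_apply]
  exact h1.apply _ _

private theorem K3_theta {m q s : ℕ} (θ : W m q k ≃ₐ[k] W m q k) (G : W m q k)
    (H : Fin s → W m q k) :
    finrank k (W m q k ⧸ (Ideal.span {θ G} ⊔ Ideal.span (Set.range fun j => θ (H j)))) =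
      finrank k (W m q k ⧸ (Ideal.span {G} ⊔ Ideal.span (Set.range H))) := by
  rw [← finrank_theta θ (Ideal.span {G} ⊔ Ideal.span (Set.range H)), Ideal.map_sup,
    Ideal.map_span, Ideal.map_span, Set.image_singleton, ← Set.range_comp]
  rfl

private theorem K3_path {m q s : ℕ} (G : W m q k) (H x : Fin s → W m q k)
    [FiniteDimensional k (W m q k)] : ∃ c : k, c ≠ 0 ∧
    finrank k (W m q k ⧸ (Ideal.span {G} ⊔ Ideal.span (Set.range fun j : Fin s =>
        H j + algebraMap k (W m q k) c * x j))) ≤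
      finrank k (W m q k ⧸ (Ideal.span {G} ⊔ Ideal.span (Set.range H))) := by
  obtain ⟨c, hc1, hc2⟩ := semicont_avoid (k := k) (A := W m q k)
    (fun o : Option (Fin s) => o.elim (Polynomial.C G) fun j =>
      Polynomial.C (H j) + Polynomial.X * Polynomial.C (x j))
    (Polynomial.X : k[X]) Polynomial.X_ne_zero
  rw [Polynomial.eval_X] at hc1
  refine ⟨c, hc1, ?_⟩
  have hrange : ∀ v : W m q k,
      Ideal.span (Set.range fun o : Option (Fin s) => Polynomial.eval v
        (o.elim (Polynomial.C G) fun j => Polynomial.C (H j) +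
          Polynomial.X * Polynomial.C (x j))) =
      Ideal.span {G} ⊔ Ideal.span (Set.range fun j => H j + v * x j) := by
    intro v
    rw [← Ideal.span_union]
    congr 1
    ext y
    constructor
    · rintro ⟨o, rfl⟩
      rcases o with _ | j
      · left
        simp
      · right
        exact ⟨j, by simp [mul_comm]⟩
    · rintro (hy | ⟨j, rfl⟩)
      · rw [Set.mem_singleton_iff] at hy
        exact ⟨none, by simp [hy]⟩
      · exact ⟨some j, by simp [mul_comm]⟩
  rw [hrange, hrange] at hc2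
  have h3 : (fun j => H j + 0 * x j) = H := by
    funext j
    rw [zero_mul, add_zero]
  rw [h3] at hc2
  exact hc2

/-- complete intersections of codimension at least two -/
theorem D3_le_of_codim (hp : p ≠ 2) (d s e : ℕ) (hs : 0 < s) (G : W (d + 1 + s) (p ^ e) k)
    (hG : G ∈ wm (d + 1 + s) (p ^ e) k ^ 2)
    (H : Fin s → W (d + 1 + s) (p ^ e) k) (hH : ∀ j, H j ∈ wm (d + 1 + s) (p ^ e) k ^ 2) :
    D3 (ph k d (p ^ e)) (p ^ e) ≤ finrank k (W (d + 1 + s) (p ^ e) k ⧸
      (Ideal.span {G} ⊔ Ideal.span (Set.range H))) := by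
  obtain ⟨h0, hsym, hQ⟩ := exists_hasQ hp (d + 1 + s) (p ^ e) G hG
  obtain ⟨B, hB, hdet⟩ := exists_degenerate_block (d + 1) s (Nat.succ_pos d) hs h0 hsym
  obtain ⟨θ, _, hθ2, hθ3⟩ := hasQ_linear (d + 1 + s) e G h0 hQ B hB
  obtain ⟨c, hc, hle⟩ := K3_path (θ G) (fun j => θ (H j))
    (fun j => wx (d + 1 + s) (p ^ e) k (Fin.natAdd (d + 1) j))
  obtain ⟨G', hG', heq⟩ := kill_sq (d + 1) s e (θ G) (B.transpose * h0 * B) hθ2
    (fun j => θ (H j)) (fun j => hθ3 2 _ (hH j)) c hc
  have h1 := D3_le_of_degenerate hp d e G' _ (K3_symm h0 B hsym) hG' hdet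
  rw [heq] at h1
  exact h1.trans (hle.trans (K3_theta θ G H).le)

end Pool.Agent.Lib.MP_1bbd88_ag.T
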