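import Pool.Agent.Lib.MP_1bbd88_ag.T.M1
import Pool.Agent.Lib.MP_1bbd88_ag.PS
import Pool.Agent.Lib.MP_1bbd88_ag.S.A5

set_option autoImplicit false

namespace Pool.Agent.Lib.MP_1bbd88_ag.T

open Module Polynomial IsLocalRing Pool.Agent.Lib.MP_1bbd88_ag.S

variable {k : Type*} [Field k]

private theorem L1_mem_powI {D q : ℕ} (f : MvPolynomial (Fin D) k) :
    ((f : MvPowerSeries (Fin D) k) ∈ psI (Fin D) k q) ↔ f ∈ powI (Fin D) k q := by
  constructor
  · intro h
    rw [mem_psI_iff] at h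
    rw [f.as_sum]
    refine Ideal.sum_mem _ fun v hv => ?_
    have hv' : MvPolynomial.coeff v f ≠ 0 := MvPolynomial.mem_support_iff.1 hv
    have h0 : ∃ i, q ≤ v i := by
      by_contra hc
      push Not at hc
      exact hv' (by rw [← MvPolynomial.coeff_coe]; exact h v hc)
    obtain ⟨i, hi⟩ := h0
    have h1 : MvPolynomial.monomial v (MvPolynomial.coeff v f) =
        MvPolynomial.monomial (v - Finsupp.single i q) (MvPolynomial.coeff v f) *
          (MvPolynomial.X i : MvPolynomial (Fin D) k) ^ q := by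
      rw [MvPolynomial.X_pow_eq_monomial, MvPolynomial.monomial_mul, mul_one,
        tsub_add_cancel_of_le (by simpa using hi)]
    rw [h1]
    exact Ideal.mul_mem_left _ _ (Ideal.subset_span ⟨i, rfl⟩)
  · intro h
    have h2 : powI (Fin D) k q ≤
        (psI (Fin D) k q).comap MvPolynomial.coeToMvPowerSeries.ringHom := by
      rw [powI, Ideal.span_le]
      rintro _ ⟨i, rfl⟩
      change (((MvPolynomial.X i : MvPolynomial (Fin D) k) ^ q : MvPolynomial (Fin D) k) :
        MvPowerSeries (Fin D) k) ∈ psI (Fin D) k q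
      rw [MvPolynomial.coe_pow, MvPolynomial.coe_X]
      exact Ideal.subset_span ⟨i, rfl⟩
    exact h2 h

private theorem L1_trunc {D q : ℕ} (h : MvPowerSeries (Fin D) k) :
    ∃ h' : MvPolynomial (Fin D) k, h - (h' : MvPowerSeries (Fin D) k) ∈ psI (Fin D) k q := by
  classical
  let u : (Fin D → Fin q) → (Fin D →₀ ℕ) :=
    fun v => Finsupp.equivFunOnFinite.symm fun i => (v i : ℕ)
  refine ⟨∑ v : Fin D → Fin q, MvPolynomial.monomial (u v) (MvPowerSeries.coeff (u v) h), ?_⟩
  rw [mem_psI_iff]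
  intro α hα
  have hu : u (fun i => ⟨α i, hα i⟩) = α := by ext i; rfl
  rw [map_sub, MvPolynomial.coeff_coe, MvPolynomial.coeff_sum,
    Finset.sum_eq_single (fun i => ⟨α i, hα i⟩)]
  · rw [MvPolynomial.coeff_monomial, hu, if_pos rfl, sub_self]
  · intro v _ hv
    rw [MvPolynomial.coeff_monomial, if_neg]
    intro h1
    apply hv
    funext i
    apply Fin.ext
    change (v i : ℕ) = α i
    rw [← h1]
    rfl
  · intro h1
    exact absurd (Finset.mem_univ _) h1

/-- polynomials in the truncated power series ring -/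
private noncomputable def L1_iota (k : Type*) [Field k] (n q : ℕ) :
    MvPolynomial (Fin n) k →ₐ[k] (MvPowerSeries (Fin n) k ⧸ psI (Fin n) k q) :=
  (Ideal.Quotient.mkₐ k (psI (Fin n) k q)).comp (MvPolynomial.coeToMvPowerSeries.algHom k)

private theorem L1_iota_apply (n q : ℕ) (f : MvPolynomial (Fin n) k) :
    L1_iota k n q f = Ideal.Quotient.mk (psI (Fin n) k q) (f : MvPowerSeries (Fin n) k) := by
  change Ideal.Quotient.mk _ (MvPolynomial.coeToMvPowerSeries.algHom k f) = _
  rw [MvPolynomial.coeToMvPowerSeries.algHom_apply, Algebra.algebraMap_self,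
    MvPowerSeries.map_id, RingHom.id_apply]

private theorem L1_iota_surj (n q : ℕ) : Function.Surjective (L1_iota k n q) := by
  intro b
  obtain ⟨b, rfl⟩ := Ideal.Quotient.mk_surjective b
  obtain ⟨b', hb'⟩ := L1_trunc (q := q) b
  refine ⟨b', ?_⟩
  rw [L1_iota_apply]
  symm
  exact Ideal.Quotient.eq.2 hb'

private theorem L1_iota_ker (n q : ℕ) : RingHom.ker (L1_iota k n q) = powI (Fin n) k q := by
  ext f
  rw [RingHom.mem_ker, L1_iota_apply, Ideal.Quotient.eq_zero_iff_mem, L1_mem_powI]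

/-- truncated polynomials are truncated power series -/
private noncomputable def L1_e (k : Type*) [Field k] (n q : ℕ) :
    W n q k ≃ₐ[k] (MvPowerSeries (Fin n) k ⧸ psI (Fin n) k q) :=
  (Ideal.quotientEquivAlgOfEq k (L1_iota_ker (k := k) n q).symm).trans
    (Ideal.quotientKerAlgEquivOfSurjective (L1_iota_surj (k := k) n q))

private theorem L1_e_mk (n q : ℕ) (f : MvPolynomial (Fin n) k) :
    L1_e k n q (Ideal.Quotient.mk (powI (Fin n) k q) f) =
      Ideal.Quotient.mk (psI (Fin n) k q) (f : MvPowerSeries (Fin n) k) := by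
  rw [← L1_iota_apply]
  rfl

/-- from power series to truncated polynomials -/
theorem exists_toW (n q : ℕ) (hq : q ≠ 0) : ∃ π : MvPowerSeries (Fin n) k →ₐ[k] W n q k,
    Function.Surjective π ∧ (∀ i, π (MvPowerSeries.X i) = wx n q k i) ∧
    RingHom.ker π = psI (Fin n) k q ∧
    ∀ N, ∀ g ∈ maximalIdeal (MvPowerSeries (Fin n) k) ^ N, π g ∈ wm n q k ^ N := by
  let π : MvPowerSeries (Fin n) k →ₐ[k] W n q k :=
    (L1_e k n q).symm.toAlgHom.comp (Ideal.Quotient.mkₐ k (psI (Fin n) k q))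
  have hπ : ∀ g, π g = (L1_e k n q).symm (Ideal.Quotient.mk (psI (Fin n) k q) g) := fun g => rfl
  have hX : ∀ i, π (MvPowerSeries.X i) = wx n q k i := by
    intro i
    rw [hπ, AlgEquiv.symm_apply_eq]
    change _ = L1_e k n q (Ideal.Quotient.mk (powI (Fin n) k q) (MvPolynomial.X i))
    rw [L1_e_mk, MvPolynomial.coe_X]
  refine ⟨π, ?_, hX, ?_, ?_⟩
  · intro w
    obtain ⟨g, hg⟩ := Ideal.Quotient.mk_surjective (L1_e k n q w)
    refine ⟨g, ?_⟩
    rw [hπ, hg, AlgEquiv.symm_apply_apply]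
  · ext g
    rw [RingHom.mem_ker, hπ, map_eq_zero_iff _ (L1_e k n q).symm.injective,
      Ideal.Quotient.eq_zero_iff_mem]
  · intro N g hg
    have hm : (maximalIdeal (MvPowerSeries (Fin n) k)).map
        (π : MvPowerSeries (Fin n) k →+* W n q k) ≤ wm n q k := by
      rw [A5_maximalIdeal, psI, Ideal.map_span, Ideal.span_le]
      rintro _ ⟨_, ⟨i, rfl⟩, rfl⟩
      change π ((MvPowerSeries.X i : MvPowerSeries (Fin n) k) ^ 1) ∈ wm n q k
      rw [pow_one, hX]
      exact Ideal.subset_span ⟨i, rfl⟩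
    have h1 := Ideal.mem_map_of_mem (π : MvPowerSeries (Fin n) k →+* W n q k) hg
    rw [Ideal.map_pow] at h1
    exact Ideal.pow_right_mono hm N h1

theorem finrank_toW (n q : ℕ) (π : MvPowerSeries (Fin n) k →ₐ[k] W n q k)
    (hs : Function.Surjective π) (hker : RingHom.ker π = psI (Fin n) k q)
    (J : Ideal (MvPowerSeries (Fin n) k)) :
    finrank k (MvPowerSeries (Fin n) k ⧸ (J ⊔ psI (Fin n) k q)) =
      finrank k (W n q k ⧸ J.map (π : MvPowerSeries (Fin n) k →+* W n q k)) := by
  let I := J.map (π : MvPowerSeries (Fin n) k →+* W n q k)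
  let f : MvPowerSeries (Fin n) k →ₐ[k] (W n q k ⧸ I) := (Ideal.Quotient.mkₐ k I).comp π
  have hf : Function.Surjective f := (Ideal.Quotient.mkₐ_surjective k I).comp hs
  have hkf : J ⊔ psI (Fin n) k q = RingHom.ker f := by
    have h1 : RingHom.ker f = I.comap (π : MvPowerSeries (Fin n) k →+* W n q k) := by
      ext g
      rw [RingHom.mem_ker, Ideal.mem_comap]
      exact Ideal.Quotient.eq_zero_iff_mem
    have h2 := Ideal.comap_map_of_surjective (π : MvPowerSeries (Fin n) k →+* W n q k) hs J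
    rw [h1, h2, ← hker]
    rfl
  exact ((Ideal.quotientEquivAlgOfEq k hkf).trans
    (Ideal.quotientKerAlgEquivOfSurjective hf)).toLinearEquiv.finrank_eq

end Pool.Agent.Lib.MP_1bbd88_ag.T
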