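import Pool.Agent.Lib.MP_1bbd88_ag.T.M1

set_option autoImplicit false

namespace Pool.Agent.Lib.MP_1bbd88_ag.T

open Module Polynomial IsLocalRing Pool.Agent.Lib.MP_1bbd88_ag.S

variable {k : Type*} [Field k] {p : ℕ} [Fact p.Prime] [CharP k p] {D : ℕ}

private theorem M0_cc {k : Type*} [Field k] {D : ℕ} (f : MvPowerSeries (Fin D) k) :
    f ∈ maximalIdeal (MvPowerSeries (Fin D) k) ↔ MvPowerSeries.constantCoeff f = 0 := by
  rw [mem_maximalIdeal, mem_nonunits_iff, MvPowerSeries.isUnit_iff_constantCoeff,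
    isUnit_iff_ne_zero, not_not]

private theorem M0_span {k : Type*} [Field k] {D : ℕ} :
    maximalIdeal (MvPowerSeries (Fin D) k) =
      Ideal.span (Set.range fun i : Fin D => (MvPowerSeries.X i : MvPowerSeries (Fin D) k)) := by
  apply le_antisymm
  · intro f hf
    have h1 := mem_psI_one_of_constantCoeff ((M0_cc f).1 hf)
    rw [psI] at h1
    simpa only [pow_one] using h1
  · rw [Ideal.span_le]
    rintro _ ⟨i, rfl⟩
    exact (M0_cc _).2 (MvPowerSeries.constantCoeff_X i)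

private theorem M0_add {k : Type*} [Field k] {D : ℕ} (I : Ideal (MvPowerSeries (Fin D) k))
    {x y : MvPowerSeries (Fin D) k}
    (hx : ∃ a : Fin D → Fin D → MvPowerSeries (Fin D) k, (∀ i j, a i j ∈ I) ∧
      x = ∑ i, ∑ j, a i j * (MvPowerSeries.X i * MvPowerSeries.X j))
    (hy : ∃ a : Fin D → Fin D → MvPowerSeries (Fin D) k, (∀ i j, a i j ∈ I) ∧
      y = ∑ i, ∑ j, a i j * (MvPowerSeries.X i * MvPowerSeries.X j)) :
    ∃ a : Fin D → Fin D → MvPowerSeries (Fin D) k, (∀ i j, a i j ∈ I) ∧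
      x + y = ∑ i, ∑ j, a i j * (MvPowerSeries.X i * MvPowerSeries.X j) := by
  obtain ⟨a, ha, ea⟩ := hx
  obtain ⟨b, hb, eb⟩ := hy
  refine ⟨fun i j => a i j + b i j, fun i j => I.add_mem (ha i j) (hb i j), ?_⟩
  rw [ea, eb, ← Finset.sum_add_distrib]
  refine Finset.sum_congr rfl fun i _ => ?_
  rw [← Finset.sum_add_distrib]
  exact Finset.sum_congr rfl fun j _ => by ring

private theorem M0_two {k : Type*} [Field k] {D : ℕ} (f : MvPowerSeries (Fin D) k)
    (hf : f ∈ maximalIdeal (MvPowerSeries (Fin D) k) ^ 2) :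
    ∃ a : Fin D → Fin D → MvPowerSeries (Fin D) k, (∀ i j, a i j ∈ (⊤ : Ideal _)) ∧
      f = ∑ i, ∑ j, a i j * (MvPowerSeries.X i * MvPowerSeries.X j) := by
  rw [pow_two, M0_span] at hf
  refine Submodule.mul_induction_on hf ?_ fun x y hx hy => M0_add _ hx hy
  intro r hr s hs
  obtain ⟨b, rfl⟩ := Ideal.mem_span_range_iff_exists_fun.1 hr
  obtain ⟨c, rfl⟩ := Ideal.mem_span_range_iff_exists_fun.1 hs
  refine ⟨fun i j => b i * c j, fun i j => Submodule.mem_top, ?_⟩
  rw [Finset.sum_mul_sum]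
  exact Finset.sum_congr rfl fun i _ => Finset.sum_congr rfl fun j _ => by ring

private theorem M0_three {k : Type*} [Field k] {D : ℕ} (f : MvPowerSeries (Fin D) k)
    (hf : f ∈ maximalIdeal (MvPowerSeries (Fin D) k) ^ 3) :
    ∃ a : Fin D → Fin D → MvPowerSeries (Fin D) k,
      (∀ i j, a i j ∈ maximalIdeal (MvPowerSeries (Fin D) k)) ∧
      f = ∑ i, ∑ j, a i j * (MvPowerSeries.X i * MvPowerSeries.X j) := by
  rw [show (3 : ℕ) = 2 + 1 from rfl, pow_succ'] at hf
  refine Submodule.mul_induction_on hf ?_ fun x y hx hy => M0_add _ hx hy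
  intro r hr s hs
  obtain ⟨b, -, hb⟩ := M0_two s hs
  refine ⟨fun i j => r * b i j, fun i j => Ideal.mul_mem_right _ _ hr, ?_⟩
  rw [hb, Finset.mul_sum]
  refine Finset.sum_congr rfl fun i _ => ?_
  rw [Finset.mul_sum]
  exact Finset.sum_congr rfl fun j _ => by ring

private theorem M0_symm {k : Type*} [Field k] {p : ℕ} [Fact p.Prime] [CharP k p] {D : ℕ}
    (hp : p ≠ 2) (I : Ideal (MvPowerSeries (Fin D) k)) (f : MvPowerSeries (Fin D) k)
    (hf : ∃ a : Fin D → Fin D → MvPowerSeries (Fin D) k, (∀ i j, a i j ∈ I) ∧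
      f = ∑ i, ∑ j, a i j * (MvPowerSeries.X i * MvPowerSeries.X j)) :
    ∃ h : Matrix (Fin D) (Fin D) (MvPowerSeries (Fin D) k), h.IsSymm ∧ (∀ i j, h i j ∈ I) ∧
      f = ∑ i, ∑ j, h i j * (MvPowerSeries.X i * MvPowerSeries.X j) := by
  have h2 : (2 : k) ≠ 0 := by
    intro h
    have h3 : ((2 : ℕ) : k) = 0 := by exact_mod_cast h
    rw [CharP.cast_eq_zero_iff k p] at h3
    exact hp ((Nat.prime_dvd_prime_iff_eq Fact.out Nat.prime_two).1 h3)
  obtain ⟨a, haI, ha⟩ := hf
  set c : MvPowerSeries (Fin D) k := MvPowerSeries.C 2⁻¹ with hc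
  have hc2 : c * 2 = 1 := by
    have h3 : (2 : MvPowerSeries (Fin D) k) = MvPowerSeries.C 2 := by rw [map_ofNat]
    rw [hc, h3, ← map_mul, inv_mul_cancel₀ h2, map_one]
  refine ⟨Matrix.of fun i j => c * (a i j + a j i), ?_, ?_, ?_⟩
  · refine Matrix.ext fun i j => ?_
    simp only [Matrix.transpose_apply, Matrix.of_apply]
    rw [add_comm]
  · intro i j
    rw [Matrix.of_apply]
    exact I.mul_mem_left _ (I.add_mem (haI i j) (haI j i))
  · have h4 : ∑ i, ∑ j, a j i * (MvPowerSeries.X i * MvPowerSeries.X j) = f := by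
      rw [Finset.sum_comm, ha]
      exact Finset.sum_congr rfl fun i _ => Finset.sum_congr rfl fun j _ => by ring
    have h5 : ∑ i, ∑ j, Matrix.of (fun i j => c * (a i j + a j i)) i j *
        (MvPowerSeries.X i * MvPowerSeries.X j) =
        c * (∑ i, ∑ j, a i j * (MvPowerSeries.X i * MvPowerSeries.X j) +
          ∑ i, ∑ j, a j i * (MvPowerSeries.X i * MvPowerSeries.X j)) := by
      rw [← Finset.sum_add_distrib, Finset.mul_sum]
      refine Finset.sum_congr rfl fun i _ => ?_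
      rw [← Finset.sum_add_distrib, Finset.mul_sum]
      refine Finset.sum_congr rfl fun j _ => ?_
      rw [Matrix.of_apply]
      ring
    rw [h5, h4, ← ha]
    calc f = (c * 2) * f := by rw [hc2, one_mul]
      _ = c * (f + f) := by ring

theorem exists_symm_ps (hp : p ≠ 2) (f : MvPowerSeries (Fin D) k)
    (hf : f ∈ maximalIdeal (MvPowerSeries (Fin D) k) ^ 3) :
    ∃ h : Matrix (Fin D) (Fin D) (MvPowerSeries (Fin D) k), h.IsSymm ∧
      (∀ i j, h i j ∈ maximalIdeal (MvPowerSeries (Fin D) k)) ∧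
      f = ∑ i, ∑ j, h i j * (MvPowerSeries.X i * MvPowerSeries.X j) := by
  exact M0_symm hp _ f (M0_three f hf)

theorem exists_hasQ_ps (hp : p ≠ 2) (f : MvPowerSeries (Fin D) k)
    (hf : f ∈ maximalIdeal (MvPowerSeries (Fin D) k) ^ 2) :
    ∃ h0 : Matrix (Fin D) (Fin D) k, h0.IsSymm ∧
      f - ∑ i, ∑ j, MvPowerSeries.C (h0 i j) * (MvPowerSeries.X i * MvPowerSeries.X j) ∈
        maximalIdeal (MvPowerSeries (Fin D) k) ^ 3 := by
  obtain ⟨h, hs, -, hh⟩ := M0_symm hp _ f (M0_two f hf)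
  refine ⟨h.map MvPowerSeries.constantCoeff, ?_, ?_⟩
  · have h1 : h.transpose = h := hs
    have h2 : (h.map MvPowerSeries.constantCoeff).transpose =
        h.transpose.map MvPowerSeries.constantCoeff := rfl
    exact h2.trans (by rw [h1])
  · have h3 : f - ∑ i, ∑ j, MvPowerSeries.C ((h.map MvPowerSeries.constantCoeff) i j) *
        (MvPowerSeries.X i * MvPowerSeries.X j) =
        ∑ i, ∑ j, (h i j - MvPowerSeries.C (MvPowerSeries.constantCoeff (h i j))) *
          (MvPowerSeries.X i * MvPowerSeries.X j) := by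
      conv_lhs => rw [hh]
      rw [← Finset.sum_sub_distrib]
      refine Finset.sum_congr rfl fun i _ => ?_
      rw [← Finset.sum_sub_distrib]
      refine Finset.sum_congr rfl fun j _ => ?_
      rw [sub_mul, Matrix.map_apply]
    rw [h3]
    refine Ideal.sum_mem _ fun i _ => Ideal.sum_mem _ fun j _ => ?_
    rw [show (3 : ℕ) = 2 + 1 from rfl, pow_succ', pow_two]
    refine Ideal.mul_mem_mul ?_ (Ideal.mul_mem_mul ?_ ?_)
    · rw [M0_cc, map_sub, MvPowerSeries.constantCoeff_C, sub_self]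
    · exact (M0_cc _).2 (MvPowerSeries.constantCoeff_X i)
    · exact (M0_cc _).2 (MvPowerSeries.constantCoeff_X j)

end Pool.Agent.Lib.MP_1bbd88_ag.T
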