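import Pool.Agent.Lib.MP_1bbd88_ag.T.TDefs

set_option autoImplicit false

namespace Pool.Agent.Lib.MP_1bbd88_ag.T

open Module Polynomial IsLocalRing Pool.Agent.Lib.MP_1bbd88_ag.S

variable {k : Type*} [Field k] {D : ℕ}

theorem M1_mem_max {g : MvPowerSeries (Fin D) k} :
    g ∈ maximalIdeal (MvPowerSeries (Fin D) k) ↔ MvPowerSeries.constantCoeff g = 0 := by
  rw [mem_maximalIdeal, mem_nonunits_iff, MvPowerSeries.isUnit_iff_constantCoeff, isUnit_iff_ne_zero,
    not_not]

theorem M1_order_of_mem_pow (n : ℕ) : ∀ g : MvPowerSeries (Fin D) k,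
    g ∈ maximalIdeal (MvPowerSeries (Fin D) k) ^ n → (n : ℕ∞) ≤ g.order := by
  induction n with
  | zero => intro g _; simp
  | succ n ih =>
    intro g hg
    rw [pow_succ] at hg
    refine Submodule.mul_induction_on hg ?_ ?_
    · intro r hr s hs
      refine le_trans ?_ MvPowerSeries.le_order_mul
      rw [Nat.cast_succ]
      exact add_le_add (ih r hr) (MvPowerSeries.one_le_order_iff_constCoeff_eq_zero.2 (M1_mem_max.1 hs))
    · intro r s hr hs
      exact le_trans (le_min hr hs) MvPowerSeries.min_order_le_add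

/-- the part of `g` which is divided by `X i` -/
noncomputable def M1_part (g : MvPowerSeries (Fin D) k) (i : Fin D) : MvPowerSeries (Fin D) k :=
  open Classical in fun β => if ∀ j < i, β j = 0 then MvPowerSeries.coeff (β + Finsupp.single i 1) g else 0

theorem M1_coeff_part (g : MvPowerSeries (Fin D) k) (i : Fin D) (β : Fin D →₀ ℕ) :
    MvPowerSeries.coeff β (M1_part g i) =
      open Classical in if ∀ j < i, β j = 0 then MvPowerSeries.coeff (β + Finsupp.single i 1) g else 0 := rfl

theorem M1_coeff_X_mul (g : MvPowerSeries (Fin D) k) (i : Fin D) (α : Fin D →₀ ℕ) :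
    MvPowerSeries.coeff α (MvPowerSeries.X i * M1_part g i) =
      open Classical in if α i ≠ 0 ∧ ∀ j < i, α j = 0 then MvPowerSeries.coeff α g else 0 := by
  classical
  rw [MvPowerSeries.X_def, MvPowerSeries.coeff_monomial_mul]
  by_cases h : α i = 0
  · rw [if_neg, if_neg]
    · intro h'; exact h'.1 h
    · intro h'
      have := h' i
      rw [Finsupp.single_eq_same] at this
      omega
  · have hle : Finsupp.single i 1 ≤ α := by
      rw [Finsupp.single_le_iff]
      omega
    rw [if_pos hle, one_mul, M1_coeff_part, tsub_add_cancel_of_le hle]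
    refine if_congr ?_ rfl rfl
    constructor
    · intro h1
      refine ⟨h, fun j hj => ?_⟩
      have h2 := h1 j hj
      rw [Finsupp.tsub_apply, Finsupp.single_eq_of_ne (ne_of_lt hj)] at h2
      exact h2
    · rintro ⟨_, h1⟩ j hj
      rw [Finsupp.tsub_apply, h1 j hj]
      exact Nat.zero_sub _

theorem M1_decomp (g : MvPowerSeries (Fin D) k) (h0 : MvPowerSeries.constantCoeff g = 0) :
    g = ∑ i, MvPowerSeries.X i * M1_part g i := by
  classical
  ext α
  rw [map_sum]
  simp only [M1_coeff_X_mul]
  by_cases hα : α = 0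
  · subst hα
    rw [MvPowerSeries.coeff_zero_eq_constantCoeff_apply, h0]
    symm
    refine Finset.sum_eq_zero fun i _ => ?_
    rw [if_neg]
    rintro ⟨h, _⟩
    exact h rfl
  · obtain ⟨i₀, hi₀⟩ : ∃ i, α i ≠ 0 := by
      by_contra hcon
      push Not at hcon
      exact hα (Finsupp.ext hcon)
    let S : Finset (Fin D) := Finset.univ.filter fun i => α i ≠ 0
    have hS : S.Nonempty := ⟨i₀, by simp [S, hi₀]⟩
    have hmin := S.min'_mem hS
    have hminle : ∀ j ∈ S, S.min' hS ≤ j := fun j hj => S.min'_le j hj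
    have h1 : α (S.min' hS) ≠ 0 := (Finset.mem_filter.1 hmin).2
    have h2 : ∀ j < S.min' hS, α j = 0 := by
      intro j hj
      by_contra hne
      exact absurd (hminle j (Finset.mem_filter.2 ⟨Finset.mem_univ _, hne⟩)) (not_le.2 hj)
    rw [Finset.sum_eq_single (S.min' hS)]
    · rw [if_pos ⟨h1, h2⟩]
    · intro j _ hj
      rw [if_neg]
      rintro ⟨h3, h4⟩
      rcases lt_trichotomy j (S.min' hS) with h5 | h5 | h5
      · exact h3 (h2 j h5)
      · exact hj h5
      · exact h1 (h4 _ h5)
    · intro h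
      exact absurd (Finset.mem_univ _) h

theorem mem_pow_iff (n : ℕ) (g : MvPowerSeries (Fin D) k) :
    g ∈ maximalIdeal (MvPowerSeries (Fin D) k) ^ n ↔
      ∀ α : Fin D →₀ ℕ, α.degree < n → MvPowerSeries.coeff α g = 0 := by
  constructor
  · intro h α hα
    refine MvPowerSeries.coeff_of_lt_order ?_
    refine lt_of_lt_of_le ?_ (M1_order_of_mem_pow n g h)
    exact_mod_cast hα
  · induction n generalizing g with
    | zero => intro _; rw [pow_zero, Ideal.one_eq_top]; trivial
    | succ n ih =>
      intro h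
      have h0 : MvPowerSeries.constantCoeff g = 0 := by
        rw [← MvPowerSeries.coeff_zero_eq_constantCoeff_apply]
        refine h 0 ?_
        rw [map_zero]
        exact Nat.succ_pos n
      rw [M1_decomp g h0]
      refine Ideal.sum_mem _ fun i _ => ?_
      rw [pow_succ']
      refine Ideal.mul_mem_mul ?_ (ih _ ?_)
      · exact M1_mem_max.2 (MvPowerSeries.constantCoeff_X i)
      · intro β hβ
        rw [M1_coeff_part]
        split_ifs with h1
        · refine h _ ?_
          rw [map_add, Finsupp.degree_single]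
          omega
        · rfl

theorem eq_zero_of_mem_pow (g : MvPowerSeries (Fin D) k)
    (h : ∀ n, g ∈ maximalIdeal (MvPowerSeries (Fin D) k) ^ n) : g = 0 := by
  ext α
  rw [map_zero]
  exact (mem_pow_iff (α.degree + 1) g).1 (h _) α (Nat.lt_succ_self _)

theorem exists_limit (a : ℕ → MvPowerSeries (Fin D) k)
    (h : ∀ n, a (n + 1) - a n ∈ maximalIdeal (MvPowerSeries (Fin D) k) ^ n) :
    ∃ x, ∀ n, x - a n ∈ maximalIdeal (MvPowerSeries (Fin D) k) ^ n := by
  let x : MvPowerSeries (Fin D) k := fun α => MvPowerSeries.coeff α (a (α.degree + 1))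
  have hx : ∀ α, MvPowerSeries.coeff α x = MvPowerSeries.coeff α (a (α.degree + 1)) := fun _ => rfl
  have key : ∀ (α : Fin D →₀ ℕ) (n : ℕ), α.degree + 1 ≤ n →
      MvPowerSeries.coeff α (a n) = MvPowerSeries.coeff α (a (α.degree + 1)) := by
    intro α n hn
    induction n, hn using Nat.le_induction with
    | base => rfl
    | succ n hn ih =>
      have h1 := (mem_pow_iff n _).1 (h n) α hn
      rw [map_sub, sub_eq_zero] at h1
      rw [h1, ih]
  refine ⟨x, fun n => (mem_pow_iff n _).2 fun α hα => ?_⟩
  rw [map_sub, hx, key α n hα, sub_self]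

end Pool.Agent.Lib.MP_1bbd88_ag.T
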