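import Pool.Agent.Lib.MP_1bbd88_ag.T.M1

set_option autoImplicit false

namespace Pool.Agent.Lib.MP_1bbd88_ag.T

open Module Polynomial IsLocalRing Pool.Agent.Lib.MP_1bbd88_ag.S

variable {k : Type*} [Field k] {p : ℕ} [Fact p.Prime] [CharP k p] {D : ℕ}

/-- powers of a matrix with entries in `I` -/
private theorem M2_pow {m : ℕ} {R : Type*} [CommRing R] (I : Ideal R)
    (Z : Matrix (Fin m) (Fin m) R) (hZ : ∀ i j, Z i j ∈ I) :
    ∀ (N : ℕ) (i j : Fin m), (Z ^ N) i j ∈ I ^ N := by
  intro N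
  induction N with
  | zero => intro i j; simp
  | succ N ih =>
    intro i j
    rw [show Z ^ (N + 1) = Z ^ N * Z from pow_succ Z N, Matrix.mul_apply, pow_succ]
    exact Ideal.sum_mem _ fun l _ => Ideal.mul_mem_mul (ih i l) (hZ l j)

private theorem M2_comm {m : ℕ} {R : Type*} [CommRing R] (H0 A : Matrix (Fin m) (Fin m) R)
    (h : A.transpose * H0 = H0 * A) : ∀ n : ℕ, (A ^ n).transpose * H0 = H0 * A ^ n := by
  intro n
  induction n with
  | zero => simp
  | succ n ih =>
    calc (A ^ (n + 1)).transpose * H0 = A.transpose * ((A ^ n).transpose * H0) := by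
          rw [pow_succ, Matrix.transpose_mul, Matrix.mul_assoc]
      _ = A.transpose * H0 * A ^ n := by rw [ih, Matrix.mul_assoc]
      _ = H0 * A ^ (n + 1) := by rw [h, Matrix.mul_assoc, ← pow_succ']

/-- matrices which agree modulo an ideal -/
private theorem M2_map {m : ℕ} {R : Type*} [CommRing R] (I : Ideal R)
    (A B : Matrix (Fin m) (Fin m) R) :
    (Ideal.Quotient.mk I).mapMatrix A = (Ideal.Quotient.mk I).mapMatrix B ↔
      ∀ i j, A i j - B i j ∈ I := by
  constructor
  · intro h i j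
    have h1 := congrFun (congrFun h i) j
    exact Ideal.Quotient.eq.1 h1
  · intro h
    ext i j
    exact Ideal.Quotient.eq.2 (h i j)

/-- square roots of matrices congruent to one -/
theorem exists_sqrt_ps (hp : p ≠ 2) (h0 Z : Matrix (Fin D) (Fin D) (MvPowerSeries (Fin D) k))
    (hs0 : h0.IsSymm) (hZ : ∀ i j, Z i j ∈ maximalIdeal (MvPowerSeries (Fin D) k))
    (hs : (h0 * Z).IsSymm) :
    ∃ C : Matrix (Fin D) (Fin D) (MvPowerSeries (Fin D) k), IsUnit C.det ∧
      C.transpose * h0 * C = h0 * (1 + Z) := by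
  rcases Nat.eq_zero_or_pos D with hD | hD
  · subst hD
    refine ⟨1, by simp, ?_⟩
    ext i
    exact i.elim0
  have hne : Nonempty (Fin D) := ⟨⟨0, hD⟩⟩
  have hprime : p.Prime := Fact.out
  have hchar : CharP (MvPowerSeries (Fin D) k) p :=
    charP_of_injective_algebraMap (algebraMap k (MvPowerSeries (Fin D) k)).injective p
  have hodd : ∀ n, Odd (p ^ n) := fun n => (hprime.odd_of_ne_two hp).pow
  -- the exponents
  have he : ∀ n, (p ^ n + 1) / 2 + (p ^ n + 1) / 2 = p ^ n + 1 := by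
    intro n
    obtain ⟨a, ha⟩ := hodd n
    omega
  have he2 : ∀ n, (p ^ (n + 1) + 1) / 2 = (p ^ n + 1) / 2 + p ^ n * ((p - 1) / 2) := by
    intro n
    obtain ⟨a, ha⟩ := hodd n
    obtain ⟨b, hb⟩ := hprime.odd_of_ne_two hp
    have e1 : (p ^ n + 1) / 2 = a + 1 := by omega
    have e2 : (p - 1) / 2 = b := by omega
    have e3 : p ^ (n + 1) = 2 * (p ^ n * b + a) + 1 := by
      calc p ^ (n + 1) = p ^ n * p := pow_succ _ _
        _ = p ^ n * (2 * b + 1) := by rw [← hb]
        _ = 2 * (p ^ n * b) + p ^ n := by ring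
        _ = 2 * (p ^ n * b + a) + 1 := by omega
    rw [e1, e2, e3]
    omega
  have hpow : ∀ n, (1 + Z) ^ p ^ n = 1 + Z ^ p ^ n := fun n => by
    rw [add_pow_char_pow_of_commute p n (Commute.one_left Z), one_pow]
  have hZn : ∀ n, (Ideal.Quotient.mk (maximalIdeal (MvPowerSeries (Fin D) k) ^ n)).mapMatrix
      (Z ^ p ^ n) = 0 := by
    intro n
    have h1 : (Ideal.Quotient.mk (maximalIdeal (MvPowerSeries (Fin D) k) ^ n)).mapMatrix
      (Z ^ p ^ n) = (Ideal.Quotient.mk (maximalIdeal (MvPowerSeries (Fin D) k) ^ n)).mapMatrix 0 := by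
      rw [M2_map]
      intro i j
      rw [Matrix.zero_apply, sub_zero]
      exact Ideal.pow_le_pow_right (Nat.lt_pow_self hprime.one_lt).le (M2_pow _ Z hZ (p ^ n) i j)
    rw [h1, map_zero]
  have hA : ∀ n, (Ideal.Quotient.mk (maximalIdeal (MvPowerSeries (Fin D) k) ^ n)).mapMatrix
      ((1 + Z) ^ ((p ^ (n + 1) + 1) / 2)) =
      (Ideal.Quotient.mk (maximalIdeal (MvPowerSeries (Fin D) k) ^ n)).mapMatrix
      ((1 + Z) ^ ((p ^ n + 1) / 2)) := by
    intro n
    rw [he2, pow_add, pow_mul, hpow, map_mul, map_pow _ (1 + Z ^ p ^ n), map_add, map_one, hZn,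
      add_zero, one_pow, mul_one]
  have hlim : ∀ i j, ∃ x : MvPowerSeries (Fin D) k, ∀ n,
      x - ((1 + Z) ^ ((p ^ n + 1) / 2)) i j ∈ maximalIdeal (MvPowerSeries (Fin D) k) ^ n :=
    fun i j => exists_limit _ fun n => (M2_map _ _ _).1 (hA n) i j
  choose c hc using hlim
  have hC : ∀ n, (Ideal.Quotient.mk (maximalIdeal (MvPowerSeries (Fin D) k) ^ n)).mapMatrix
      (Matrix.of c) = (Ideal.Quotient.mk (maximalIdeal (MvPowerSeries (Fin D) k) ^ n)).mapMatrix
      ((1 + Z) ^ ((p ^ n + 1) / 2)) := fun n => (M2_map _ _ _).2 fun i j => hc i j n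
  have h4 : (1 + Z).transpose * h0 = h0 * (1 + Z) := by
    have h5 : Z.transpose * h0 = h0 * Z := by
      have h6 : (h0 * Z).transpose = h0 * Z := hs
      rw [Matrix.transpose_mul, show h0.transpose = h0 from hs0] at h6
      exact h6
    rw [Matrix.transpose_add, Matrix.transpose_one, add_mul, mul_add, h5, one_mul, mul_one]
  refine ⟨Matrix.of c, ?_, ?_⟩
  · have h1 : (Ideal.Quotient.mk (maximalIdeal (MvPowerSeries (Fin D) k) ^ 1)).mapMatrix
        (Matrix.of c) = 1 := by
      have h2 : (Ideal.Quotient.mk (maximalIdeal (MvPowerSeries (Fin D) k) ^ 1)).mapMatrix Z =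
          0 := by
        have h3 : (Ideal.Quotient.mk (maximalIdeal (MvPowerSeries (Fin D) k) ^ 1)).mapMatrix Z =
            (Ideal.Quotient.mk (maximalIdeal (MvPowerSeries (Fin D) k) ^ 1)).mapMatrix 0 := by
          rw [M2_map]
          intro i j
          rw [Matrix.zero_apply, sub_zero, pow_one]
          exact hZ i j
        rw [h3, map_zero]
      rw [hC 1, map_pow, map_add, map_one, h2, add_zero, one_pow]
    have h2 : (Ideal.Quotient.mk (maximalIdeal (MvPowerSeries (Fin D) k) ^ 1)) (Matrix.of c).det =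
        1 := by
      rw [RingHom.map_det, h1, Matrix.det_one]
    by_contra hu
    have h3 : (Matrix.of c).det ∈ maximalIdeal (MvPowerSeries (Fin D) k) :=
      (mem_maximalIdeal _).2 hu
    have h5 : (Ideal.Quotient.mk (maximalIdeal (MvPowerSeries (Fin D) k) ^ 1)) (Matrix.of c).det =
        0 := Ideal.Quotient.eq_zero_iff_mem.2 (by rw [pow_one]; exact h3)
    rw [h2, ← map_one (Ideal.Quotient.mk (maximalIdeal (MvPowerSeries (Fin D) k) ^ 1)),
      Ideal.Quotient.eq_zero_iff_mem, pow_one] at h5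
    exact (mem_maximalIdeal _).1 h5 isUnit_one
  · refine Matrix.ext fun i j => ?_
    rw [← sub_eq_zero]
    apply eq_zero_of_mem_pow
    intro n
    refine (M2_map _ ((Matrix.of c).transpose * h0 * Matrix.of c) (h0 * (1 + Z))).1 ?_ i j
    have h5 : (Ideal.Quotient.mk (maximalIdeal (MvPowerSeries (Fin D) k) ^ n)).mapMatrix
        (Matrix.of c).transpose =
        (Ideal.Quotient.mk (maximalIdeal (MvPowerSeries (Fin D) k) ^ n)).mapMatrix
          ((1 + Z) ^ ((p ^ n + 1) / 2)).transpose := by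
      rw [M2_map]
      intro i j
      exact hc j i n
    rw [map_mul, map_mul, hC n, h5, ← map_mul, ← map_mul, M2_comm h0 (1 + Z) h4, Matrix.mul_assoc,
      ← pow_add, he n, pow_succ, hpow, map_mul, map_mul, map_add, map_one, hZn, add_zero, one_mul,
      ← map_mul]

end Pool.Agent.Lib.MP_1bbd88_ag.T
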