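import Pool.Agent.Lib.MP_1bbd88_ag.T.M1

set_option autoImplicit false

namespace Pool.Agent.Lib.MP_1bbd88_ag.T

open Module Polynomial IsLocalRing Pool.Agent.Lib.MP_1bbd88_ag.S

variable {k : Type*} [Field k] {D : ℕ}

theorem M3_mem_iff (g : MvPowerSeries (Fin D) k) :
    g ∈ maximalIdeal (MvPowerSeries (Fin D) k) ↔ MvPowerSeries.constantCoeff g = 0 := by
  rw [mem_maximalIdeal, mem_nonunits_iff, MvPowerSeries.isUnit_iff_constantCoeff, isUnit_iff_ne_zero,
    not_not]

/-- endomorphisms with given values on the variables -/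
theorem exists_endo (w : Fin D → MvPowerSeries (Fin D) k)
    (hw : ∀ i, w i ∈ maximalIdeal (MvPowerSeries (Fin D) k)) :
    ∃ θ : MvPowerSeries (Fin D) k →ₐ[k] MvPowerSeries (Fin D) k,
      ∀ i, θ (MvPowerSeries.X i) = w i := by
  have h : MvPowerSeries.HasSubst w :=
    MvPowerSeries.hasSubst_of_constantCoeff_zero fun i => (M3_mem_iff _).mp (hw i)
  exact ⟨MvPowerSeries.substAlgHom h, fun i => MvPowerSeries.substAlgHom_X h i⟩

theorem M3_C (θ : MvPowerSeries (Fin D) k →ₐ[k] MvPowerSeries (Fin D) k) (c : k) :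
    θ (MvPowerSeries.C c) = MvPowerSeries.C c := θ.commutes c

theorem M3_sub_C (f : MvPowerSeries (Fin D) k) :
    f - MvPowerSeries.C (MvPowerSeries.constantCoeff f) ∈
      maximalIdeal (MvPowerSeries (Fin D) k) := by
  rw [M3_mem_iff, map_sub, MvPowerSeries.constantCoeff_C, sub_self]

theorem M3_map (θ : MvPowerSeries (Fin D) k →ₐ[k] MvPowerSeries (Fin D) k)
    {f : MvPowerSeries (Fin D) k} (hf : f ∈ maximalIdeal (MvPowerSeries (Fin D) k)) :
    θ f ∈ maximalIdeal (MvPowerSeries (Fin D) k) := by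
  by_contra h
  have h1 : MvPowerSeries.constantCoeff (θ f) ≠ 0 := fun h0 => h ((M3_mem_iff _).mpr h0)
  have h2 : IsUnit (f - MvPowerSeries.C (MvPowerSeries.constantCoeff (θ f))) := by
    rw [MvPowerSeries.isUnit_iff_constantCoeff, map_sub, MvPowerSeries.constantCoeff_C,
      (M3_mem_iff _).mp hf, zero_sub, IsUnit.neg_iff]
    exact isUnit_iff_ne_zero.mpr h1
  have h3 := h2.map θ
  rw [map_sub, M3_C] at h3
  exact ((mem_maximalIdeal _).mp (M3_sub_C (θ f))) h3

theorem M3_map_pow (θ : MvPowerSeries (Fin D) k →ₐ[k] MvPowerSeries (Fin D) k) (n : ℕ)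
    {f : MvPowerSeries (Fin D) k} (hf : f ∈ maximalIdeal (MvPowerSeries (Fin D) k) ^ n) :
    θ f ∈ maximalIdeal (MvPowerSeries (Fin D) k) ^ n := by
  have h1 := Ideal.mem_map_of_mem (θ : MvPowerSeries (Fin D) k →+* MvPowerSeries (Fin D) k) hf
  rw [Ideal.map_pow] at h1
  have h2 : Ideal.map (θ : MvPowerSeries (Fin D) k →+* MvPowerSeries (Fin D) k)
      (maximalIdeal (MvPowerSeries (Fin D) k)) ≤ maximalIdeal (MvPowerSeries (Fin D) k) :=
    Ideal.map_le_iff_le_comap.mpr fun g hg => M3_map θ hg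
  exact Ideal.pow_right_mono h2 n h1

theorem M3_step (θ : MvPowerSeries (Fin D) k →ₐ[k] MvPowerSeries (Fin D) k)
    (hw : Ideal.span (Set.range fun i => θ (MvPowerSeries.X i)) =
      maximalIdeal (MvPowerSeries (Fin D) k)) (n : ℕ) : ∀ f : MvPowerSeries (Fin D) k,
      f ∈ maximalIdeal (MvPowerSeries (Fin D) k) ^ n →
      ∃ g ∈ maximalIdeal (MvPowerSeries (Fin D) k) ^ n,
        f - θ g ∈ maximalIdeal (MvPowerSeries (Fin D) k) ^ (n + 1) := by
  induction n with
  | zero =>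
    intro f _
    refine ⟨MvPowerSeries.C (MvPowerSeries.constantCoeff f), by rw [pow_zero, Ideal.one_eq_top]; trivial, ?_⟩
    rw [M3_C, zero_add, pow_one]
    exact M3_sub_C f
  | succ n ih =>
    intro f hf
    have hX : ∀ i : Fin D, (MvPowerSeries.X i : MvPowerSeries (Fin D) k) ∈
        maximalIdeal (MvPowerSeries (Fin D) k) := fun i => by
      rw [M3_mem_iff, MvPowerSeries.constantCoeff_X]
    rw [pow_succ] at hf
    refine Submodule.mul_induction_on hf (fun a ha b hb => ?_) (fun f f' hf hf' => ?_)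
    · rw [← hw, Ideal.mem_span_range_iff_exists_fun] at hb
      obtain ⟨c, rfl⟩ := hb
      have h1 : ∀ i, ∃ g ∈ maximalIdeal (MvPowerSeries (Fin D) k) ^ n,
          a * c i - θ g ∈ maximalIdeal (MvPowerSeries (Fin D) k) ^ (n + 1) := fun i =>
        ih _ (Ideal.mul_mem_right _ _ ha)
      choose g hg hg' using h1
      refine ⟨∑ i, g i * MvPowerSeries.X i, Ideal.sum_mem _ fun i _ => ?_, ?_⟩
      · rw [pow_succ]
        exact Ideal.mul_mem_mul (hg i) (hX i)
      · have h2 : a * ∑ i, c i * θ (MvPowerSeries.X i) - θ (∑ i, g i * MvPowerSeries.X i) =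
            ∑ i, (a * c i - θ (g i)) * θ (MvPowerSeries.X i) := by
          rw [map_sum, Finset.mul_sum, ← Finset.sum_sub_distrib]
          refine Finset.sum_congr rfl fun i _ => ?_
          rw [map_mul]
          ring
        rw [h2]
        refine Ideal.sum_mem _ fun i _ => ?_
        rw [pow_succ _ (n + 1)]
        exact Ideal.mul_mem_mul (hg' i) (M3_map θ (hX i))
    · obtain ⟨g, hg, h1⟩ := hf
      obtain ⟨g', hg', h1'⟩ := hf'
      refine ⟨g + g', Ideal.add_mem _ hg hg', ?_⟩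
      rw [map_add, add_sub_add_comm]
      exact Ideal.add_mem _ h1 h1'

/-- an endomorphism whose values generate the maximal ideal is surjective -/
theorem surjective_of_span (θ : MvPowerSeries (Fin D) k →ₐ[k] MvPowerSeries (Fin D) k)
    (hw : Ideal.span (Set.range fun i => θ (MvPowerSeries.X i)) =
      maximalIdeal (MvPowerSeries (Fin D) k)) : Function.Surjective θ := by
  intro f
  have h1 : ∀ (n : ℕ) (b : {b : MvPowerSeries (Fin D) k //
      f - θ b ∈ maximalIdeal (MvPowerSeries (Fin D) k) ^ n}),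
      ∃ c : {b : MvPowerSeries (Fin D) k //
        f - θ b ∈ maximalIdeal (MvPowerSeries (Fin D) k) ^ (n + 1)},
        (c : MvPowerSeries (Fin D) k) - b ∈ maximalIdeal (MvPowerSeries (Fin D) k) ^ n := by
    rintro n ⟨b, hb⟩
    obtain ⟨g, hg, hg'⟩ := M3_step θ hw n _ hb
    refine ⟨⟨b + g, ?_⟩, ?_⟩
    · rw [map_add, ← sub_sub]
      exact hg'
    · show b + g - b ∈ _
      rwa [add_sub_cancel_left]
  choose F hF using h1
  obtain ⟨a, ha, ha'⟩ : ∃ a : ℕ → MvPowerSeries (Fin D) k,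
      (∀ n, f - θ (a n) ∈ maximalIdeal (MvPowerSeries (Fin D) k) ^ n) ∧
      ∀ n, a (n + 1) - a n ∈ maximalIdeal (MvPowerSeries (Fin D) k) ^ n := by
    let A : ∀ n : ℕ, {b : MvPowerSeries (Fin D) k //
        f - θ b ∈ maximalIdeal (MvPowerSeries (Fin D) k) ^ n} :=
      Nat.rec ⟨0, by rw [pow_zero, Ideal.one_eq_top]; trivial⟩ F
    exact ⟨fun n => (A n).1, fun n => (A n).2, fun n => hF n (A n)⟩
  obtain ⟨x, hx⟩ := exists_limit a ha'
  refine ⟨x, ?_⟩
  have h2 : f - θ x = 0 := by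
    refine eq_zero_of_mem_pow _ fun n => ?_
    have h3 : f - θ x = (f - θ (a n)) - θ (x - a n) := by
      rw [map_sub]
      ring
    rw [h3]
    exact Ideal.sub_mem _ (ha n) (M3_map_pow θ n (hx n))
  exact (sub_eq_zero.mp h2).symm

end Pool.Agent.Lib.MP_1bbd88_ag.T
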