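import Pool.Agent.Lib.MP_1bbd88_ag.T.M3

set_option autoImplicit false

namespace Pool.Agent.Lib.MP_1bbd88_ag.T

open Module Polynomial IsLocalRing Pool.Agent.Lib.MP_1bbd88_ag.S

/-- surjective endomorphisms of noetherian rings are injective -/
theorem injective_of_surjective_endo {R : Type*} [CommRing R] [IsNoetherianRing R] (θ : R →+* R)
    (h : Function.Surjective θ) : Function.Injective θ := by
  have hc : ∀ (n : ℕ) (x : R), (θ ^ (n + 1)) x = (θ ^ n) (θ x) := fun n x => by
    rw [pow_succ]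
    rfl
  have hc' : ∀ (n : ℕ) (x : R), (θ ^ (n + 1)) x = θ ((θ ^ n) x) := fun n x => by
    rw [pow_succ']
    rfl
  have hm : Monotone fun n : ℕ => RingHom.ker (θ ^ n) := by
    refine monotone_nat_of_le_succ fun n x hx => ?_
    rw [RingHom.mem_ker] at hx ⊢
    rw [hc', hx, map_zero]
  obtain ⟨n, hn⟩ := monotone_stabilizes_iff_noetherian.mpr (inferInstance : IsNoetherian R R)
    (⟨fun n : ℕ => RingHom.ker (θ ^ n), hm⟩ : ℕ →o Ideal R)
  have hs : Function.Surjective (θ ^ n) := by
    clear hn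
    induction n with
    | zero => exact fun x => ⟨x, rfl⟩
    | succ n ih =>
      intro x
      obtain ⟨y, rfl⟩ := h x
      obtain ⟨z, rfl⟩ := ih y
      exact ⟨z, hc' n z⟩
  rw [injective_iff_map_eq_zero]
  intro x hx
  obtain ⟨y, rfl⟩ := hs x
  rw [← hc'] at hx
  have h1 : RingHom.ker (θ ^ n) = RingHom.ker (θ ^ (n + 1)) := hn (n + 1) n.le_succ
  have h2 : y ∈ RingHom.ker (θ ^ (n + 1)) := (RingHom.mem_ker).2 hx
  rw [← h1] at h2
  exact (RingHom.mem_ker).1 h2

variable {k : Type*} [Field k] {D : ℕ}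

/-- the maximal ideal is generated by the variables -/
private theorem M3b_span : Ideal.span (Set.range fun i : Fin D => (MvPowerSeries.X i : MvPowerSeries (Fin D) k)) =
    maximalIdeal (MvPowerSeries (Fin D) k) := by
  apply le_antisymm
  · rw [Ideal.span_le]
    rintro _ ⟨i, rfl⟩
    show (MvPowerSeries.X i : MvPowerSeries (Fin D) k) ∈ maximalIdeal (MvPowerSeries (Fin D) k)
    rw [mem_maximalIdeal, mem_nonunits_iff, MvPowerSeries.isUnit_iff_constantCoeff,
      MvPowerSeries.constantCoeff_X]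
    exact not_isUnit_zero
  · intro g hg
    rw [mem_maximalIdeal, mem_nonunits_iff, MvPowerSeries.isUnit_iff_constantCoeff, isUnit_iff_ne_zero,
      not_not] at hg
    have h := mem_psI_one_of_constantCoeff hg
    unfold psI at h
    simpa using h

/-- change of coordinates -/
theorem ps_coord (E : Matrix (Fin D) (Fin D) (MvPowerSeries (Fin D) k)) (hE : IsUnit E.det) :
    ∃ θ : MvPowerSeries (Fin D) k ≃ₐ[k] MvPowerSeries (Fin D) k,
      ∀ i, θ (MvPowerSeries.X i) = ∑ j, E i j * MvPowerSeries.X j := by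
  have hX : ∀ j : Fin D, (MvPowerSeries.X j : MvPowerSeries (Fin D) k) ∈
      maximalIdeal (MvPowerSeries (Fin D) k) := by
    intro j
    rw [← M3b_span]
    exact Ideal.subset_span ⟨j, rfl⟩
  have hw : ∀ i, ∑ j, E i j * (MvPowerSeries.X j : MvPowerSeries (Fin D) k) ∈
      maximalIdeal (MvPowerSeries (Fin D) k) :=
    fun i => Ideal.sum_mem _ fun j _ => Ideal.mul_mem_left _ _ (hX j)
  obtain ⟨θ, hθ⟩ := exists_endo (k := k) (fun i => ∑ j, E i j * MvPowerSeries.X j) hw
  have hsp : Ideal.span (Set.range fun i => θ (MvPowerSeries.X i)) =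
      maximalIdeal (MvPowerSeries (Fin D) k) := by
    apply le_antisymm
    · rw [Ideal.span_le]
      rintro _ ⟨i, rfl⟩
      show θ (MvPowerSeries.X i) ∈ maximalIdeal (MvPowerSeries (Fin D) k)
      rw [hθ]
      exact hw i
    · rw [← M3b_span, Ideal.span_le]
      rintro _ ⟨i, rfl⟩
      have h1 : (MvPowerSeries.X i : MvPowerSeries (Fin D) k) =
          ∑ l, E⁻¹ i l * θ (MvPowerSeries.X l) := by
        have h2 : (fun l => θ (MvPowerSeries.X l)) = E.mulVec fun j => MvPowerSeries.X j := by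
          funext l
          rw [hθ]
          rfl
        have h3 : (E⁻¹).mulVec (E.mulVec fun j => (MvPowerSeries.X j : MvPowerSeries (Fin D) k)) =
            fun j => MvPowerSeries.X j := by
          rw [Matrix.mulVec_mulVec, Matrix.nonsing_inv_mul E hE, Matrix.one_mulVec]
        rw [← h2] at h3
        exact (congrFun h3 i).symm
      show (MvPowerSeries.X i : MvPowerSeries (Fin D) k) ∈ _
      rw [h1]
      exact Ideal.sum_mem _ fun l _ => Ideal.mul_mem_left _ _ (Ideal.subset_span ⟨l, rfl⟩)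
  have hs := surjective_of_span θ hsp
  have hi : Function.Injective θ :=
    injective_of_surjective_endo (θ : MvPowerSeries (Fin D) k →+* MvPowerSeries (Fin D) k) hs
  refine ⟨AlgEquiv.ofBijective θ ⟨hi, hs⟩, fun i => ?_⟩
  rw [AlgEquiv.coe_ofBijective]
  exact hθ i

end Pool.Agent.Lib.MP_1bbd88_ag.T
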