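import Pool.Agent.Lib.MP_1bbd88_ag.T.M0
import Pool.Agent.Lib.MP_1bbd88_ag.T.M2
import Pool.Agent.Lib.MP_1bbd88_ag.T.M3b
import Pool.Agent.Lib.MP_1bbd88_ag.S.E3c

set_option autoImplicit false

namespace Pool.Agent.Lib.MP_1bbd88_ag.T

open Module Polynomial IsLocalRing Pool.Agent.Lib.MP_1bbd88_ag.S

variable {k : Type*} [Field k] [IsAlgClosed k] {p : ℕ} [Fact p.Prime] [CharP k p] {D : ℕ}

theorem M4_sum {m : ℕ} {R : Type*} [CommRing R] (E H : Matrix (Fin m) (Fin m) R)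
    (x : Fin m → R) (h : E.transpose * E = H) :
    ∑ i, (∑ j, E i j * x j) ^ 2 = ∑ i, ∑ j, H i j * (x i * x j) := by
  have h1 : ∀ i, (∑ j, E i j * x j) ^ 2 = ∑ a, ∑ b, E i a * E i b * (x a * x b) := by
    intro i
    rw [pow_two, Finset.sum_mul_sum]
    refine Finset.sum_congr rfl fun a _ => Finset.sum_congr rfl fun b _ => ?_
    ring
  rw [Finset.sum_congr rfl fun i _ => h1 i, Finset.sum_comm]
  refine Finset.sum_congr rfl fun a _ => ?_
  rw [Finset.sum_comm]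
  refine Finset.sum_congr rfl fun b _ => ?_
  rw [← Finset.sum_mul, ← h, Matrix.mul_apply]
  rfl

theorem M4_two {k : Type*} [Field k] {p : ℕ} [Fact p.Prime] [CharP k p] (hp : p ≠ 2) :
    (2 : k) ≠ 0 := by
  intro h
  have h3 : ((2 : ℕ) : k) = 0 := by exact_mod_cast h
  rw [CharP.cast_eq_zero_iff k p] at h3
  rcases (Nat.dvd_prime Nat.prime_two).1 h3 with h4 | h4
  · exact (Fact.out : p.Prime).one_lt.ne' h4
  · exact hp h4

/-- the Morse lemma for power series -/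
theorem ps_morse (hp : p ≠ 2) (f : MvPowerSeries (Fin D) k) (h0 : Matrix (Fin D) (Fin D) k)
    (hs : h0.IsSymm) (hf : f - ∑ i, ∑ j, MvPowerSeries.C (h0 i j) *
      (MvPowerSeries.X i * MvPowerSeries.X j) ∈ maximalIdeal (MvPowerSeries (Fin D) k) ^ 3)
    (hd : IsUnit h0.det) :
    Nonempty ((MvPowerSeries (Fin D) k ⧸ Ideal.span {f}) ≃+* (MvPowerSeries (Fin D) k ⧸
      Ideal.span {∑ i : Fin D, (MvPowerSeries.X i : MvPowerSeries (Fin D) k) ^ 2})) := by
  have h2 : (2 : k) ≠ 0 := M4_two (p := p) hp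
  obtain ⟨B, hB, hH0⟩ := exists_transpose_mul h2 h0 hs hd
  obtain ⟨H1, hs1, h1, hf1⟩ := exists_symm_ps hp _ hf
  obtain ⟨A0, hA0⟩ : ∃ A0 : Matrix (Fin D) (Fin D) (MvPowerSeries (Fin D) k),
    A0 = h0.map MvPowerSeries.C := ⟨_, rfl⟩
  obtain ⟨B0, hB0⟩ : ∃ B0 : Matrix (Fin D) (Fin D) (MvPowerSeries (Fin D) k),
    B0 = B.map MvPowerSeries.C := ⟨_, rfl⟩
  have hAs : A0.IsSymm := by
    rw [hA0, Matrix.IsSymm, ← Matrix.transpose_map, hs]
  have hAd : IsUnit A0.det := by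
    rw [hA0]
    have h3 := hd.map (MvPowerSeries.C (σ := Fin D) (R := k))
    rwa [RingHom.map_det] at h3
  have hBd : IsUnit B0.det := by
    rw [hB0]
    have h3 := hB.map (MvPowerSeries.C (σ := Fin D) (R := k))
    rwa [RingHom.map_det] at h3
  have hAB : A0 = B0.transpose * B0 := by
    rw [hA0, hB0, hH0, Matrix.map_mul, Matrix.transpose_map]
  have hAZ : A0 * (A0⁻¹ * H1) = H1 := Matrix.mul_nonsing_inv_cancel_left A0 H1 hAd
  have hZ : ∀ i j, (A0⁻¹ * H1) i j ∈ maximalIdeal (MvPowerSeries (Fin D) k) := by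
    intro i j
    rw [Matrix.mul_apply]
    exact Ideal.sum_mem _ fun l _ => Ideal.mul_mem_left _ _ (h1 l j)
  obtain ⟨C, hC, hCH⟩ := exists_sqrt_ps (p := p) hp A0 (A0⁻¹ * H1) hAs hZ
    (by rw [hAZ]; exact hs1)
  have hE : IsUnit (B0 * C).det := by
    rw [Matrix.det_mul]
    exact hBd.mul hC
  have hEE : (B0 * C).transpose * (B0 * C) = A0 + H1 := by
    rw [Matrix.transpose_mul]
    calc C.transpose * B0.transpose * (B0 * C) = C.transpose * (B0.transpose * B0) * C := by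
          simp only [Matrix.mul_assoc]
      _ = A0 * (1 + A0⁻¹ * H1) := by rw [← hAB, hCH]
      _ = A0 + H1 := by rw [Matrix.mul_add, Matrix.mul_one, hAZ]
  obtain ⟨θ, hθ⟩ := ps_coord (B0 * C) hE
  have hff : θ (∑ i : Fin D, (MvPowerSeries.X i : MvPowerSeries (Fin D) k) ^ 2) = f := by
    rw [map_sum]
    have h5 : ∀ i, θ ((MvPowerSeries.X i : MvPowerSeries (Fin D) k) ^ 2) =
        (∑ j, (B0 * C) i j * MvPowerSeries.X j) ^ 2 := by
      intro i
      rw [map_pow, hθ i]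
    rw [Finset.sum_congr rfl fun i _ => h5 i, M4_sum (B0 * C) (A0 + H1) _ hEE]
    have h6 : ∀ i j, (A0 + H1) i j * ((MvPowerSeries.X i : MvPowerSeries (Fin D) k) *
        MvPowerSeries.X j) = MvPowerSeries.C (h0 i j) * (MvPowerSeries.X i * MvPowerSeries.X j) +
        H1 i j * (MvPowerSeries.X i * MvPowerSeries.X j) := by
      intro i j
      rw [Matrix.add_apply, hA0, Matrix.map_apply, add_mul]
    simp only [h6, Finset.sum_add_distrib]
    rw [← hf1]
    ring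
  refine ⟨(Ideal.quotientEquiv _ _ θ.toRingEquiv ?_).symm⟩
  rw [Ideal.map_span, Set.image_singleton]
  congr 2
  exact hff.symm

end Pool.Agent.Lib.MP_1bbd88_ag.T
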