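import Pool.Agent.Lib.MP_1bbd88_ag.T.TDefs

set_option autoImplicit false

namespace Pool.Agent.Lib.MP_1bbd88_ag.T

open Module Polynomial Pool.Agent.Lib.MP_1bbd88_ag.S

theorem N1_step (f : ℕ → ℕ) (hc : ∀ t, f t + f (t + 2) ≤ 2 * f (t + 1)) (y s : ℕ) :
    f (y + s + 1) + f y ≤ f (y + 1) + f (y + s) := by
  induction s with
  | zero => rw [add_zero]
  | succ s ih =>
    have h := hc (y + s)
    have e1 : y + (s + 1) + 1 = y + s + 2 := by ring
    have e2 : y + (s + 1) = y + s + 1 := by ring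
    rw [e1, e2]
    omega

theorem N1_four (f : ℕ → ℕ) (hc : ∀ t, f t + f (t + 2) ≤ 2 * f (t + 1)) (x s t : ℕ) :
    f x + f (x + s + t) ≤ f (x + s) + f (x + t) := by
  induction t with
  | zero =>
    rw [add_zero, add_zero, add_comm]
  | succ t ih =>
    have h := N1_step f hc (x + t) s
    have e1 : x + s + (t + 1) = x + t + s + 1 := by ring
    have e2 : x + (t + 1) = x + t + 1 := by ring
    have e3 : x + s + t = x + t + s := by ring
    rw [e3] at ih
    rw [e1, e2]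
    omega

/-- majorisation -/
theorem D2_le_D3 (f : ℕ → ℕ) (h0 : f 0 = 0) (hc : ∀ t, f t + f (t + 2) ≤ 2 * f (t + 1))
    (q : ℕ) : D2 f q ≤ D3 f q := by
  unfold D2 D3
  obtain ⟨x, s, t, h1, h2, h3, h4⟩ : ∃ x s t, (q + 2) / 3 + x = (q + 1) / 2 ∧ x + s + t = q / 2 ∧
      x + s = q / 3 ∧ x + t = (q + 1) / 3 := by
    have h6 : q = 6 * (q / 6) + q % 6 := (Nat.div_add_mod q 6).symm
    have h7 : q % 6 < 6 := Nat.mod_lt _ (by norm_num)
    refine ⟨(q + 1) / 2 - (q + 2) / 3, q / 3 - ((q + 1) / 2 - (q + 2) / 3),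
      (q + 1) / 3 - ((q + 1) / 2 - (q + 2) / 3), ?_⟩
    generalize q / 6 = k at h6
    generalize q % 6 = ρ at h6 h7
    subst h6
    have h8 : ρ = 0 ∨ ρ = 1 ∨ ρ = 2 ∨ ρ = 3 ∨ ρ = 4 ∨ ρ = 5 := by omega
    rcases h8 with rfl | rfl | rfl | rfl | rfl | rfl <;> refine ⟨?_, ?_, ?_, ?_⟩ <;> omega
  have h6 := N1_four f hc 0 ((q + 2) / 3) x
  rw [zero_add, zero_add, h1, h0] at h6
  have h7 := N1_four f hc x s t
  rw [h2, h3, h4] at h7
  omega

/-- slopes of a concave function -/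
theorem slope_le (f : ℕ → ℕ) (h0 : f 0 = 0) (hc : ∀ t, f t + f (t + 2) ≤ 2 * f (t + 1))
    (t j : ℕ) : f (t + j) ≤ f t + j * f 1 := by
  induction j with
  | zero => rw [add_zero, zero_mul, add_zero]
  | succ j ih =>
    have h := N1_step f hc 0 (t + j)
    rw [zero_add, zero_add, h0] at h
    have e : t + (j + 1) = t + j + 1 := by ring
    rw [e, add_mul, one_mul]
    omega

end Pool.Agent.Lib.MP_1bbd88_ag.T
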