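import Pool.Agent.Lib.MP_1bbd88_ag.T.N1

set_option autoImplicit false

namespace Pool.Agent.Lib.MP_1bbd88_ag.T

open Module Polynomial Pool.Agent.Lib.MP_1bbd88_ag.S

private theorem N2_mono (Γ : ℕ → ℕ → ℕ) (hm : ∀ a t, Γ a t ≤ Γ (a + 1) t)
    (a i t : ℕ) : Γ a t ≤ Γ (a + i) t := by
  induction i with
  | zero => exact le_refl _
  | succ i ih => exact ih.trans (hm (a + i) t)

private theorem N2_lip (q : ℕ) (Γ : ℕ → ℕ → ℕ) (hl : ∀ a t, Γ (a + 1) t ≤ Γ a t + q)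
    (a i t : ℕ) : Γ (a + i) t ≤ Γ a t + i * q := by
  induction i with
  | zero => simp
  | succ i ih =>
    have h := hl (a + i) t
    have e : a + (i + 1) = a + i + 1 := by ring
    rw [e, add_mul, one_mul]
    omega

private theorem N2_one (q M : ℕ) (Γ : ℕ → ℕ → ℕ)
    (hm : ∀ a t, Γ a t ≤ Γ (a + 1) t) (hl : ∀ a t, Γ (a + 1) t ≤ Γ a t + q)
    (hM : D2 (fun t => Γ ((q + 1) / 2) t + Γ (q / 2) t) q + M ≤
      D3 (fun t => Γ ((q + 1) / 2) t + Γ (q / 2) t) q)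
    (L : ℕ) (hLM : 4 * (2 * L + 1) * q ≤ M) (i : ℕ) (hi : i < L) :
    2 * D2 (Γ ((q + 1) / 2 + i)) q + M / 4 ≤ 2 * D3 (Γ ((q + 1) / 2 + i)) q := by
  have hlow : ∀ t, Γ ((q + 1) / 2) t + Γ (q / 2) t ≤ 2 * Γ ((q + 1) / 2 + i) t := by
    intro t
    have h1 := N2_mono Γ hm ((q + 1) / 2) i t
    have h2 : Γ (q / 2) t ≤ Γ ((q + 1) / 2) t := by
      have h3 := N2_mono Γ hm (q / 2) ((q + 1) / 2 - q / 2) t
      rwa [Nat.add_sub_cancel' (by omega : q / 2 ≤ (q + 1) / 2)] at h3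
    omega
  have hup : ∀ t, 2 * Γ ((q + 1) / 2 + i) t ≤
      Γ ((q + 1) / 2) t + Γ (q / 2) t + (2 * i + 1) * q := by
    intro t
    have h1 := N2_lip q Γ hl ((q + 1) / 2) i t
    have h2 : Γ ((q + 1) / 2) t ≤ Γ (q / 2) t + q := by
      have h3 := N2_lip q Γ hl (q / 2) ((q + 1) / 2 - q / 2) t
      rw [Nat.add_sub_cancel' (by omega : q / 2 ≤ (q + 1) / 2)] at h3
      have h4 : ((q + 1) / 2 - q / 2) * q ≤ 1 * q := Nat.mul_le_mul_right q (by omega)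
      omega
    have h5 : (2 * i + 1) * q = 2 * (i * q) + q := by ring
    omega
  have hq : (2 * i + 1) * q ≤ (2 * L + 1) * q := Nat.mul_le_mul_right q (by omega)
  have hM2 : 4 * ((2 * L + 1) * q) ≤ M := by rw [← mul_assoc]; exact hLM
  unfold D2 D3 at hM ⊢
  have l1 := hlow ((q + 2) / 3)
  have l2 := hlow ((q + 1) / 3)
  have l3 := hlow (q / 3)
  have u1 := hup ((q + 1) / 2)
  have u2 := hup (q / 2)
  have hM4 : 4 * (M / 4) ≤ M := Nat.mul_div_le M 4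
  simp only at hM
  omega

/-- numerical form of the case `d = 3` of the gap -/
theorem gap_three_num (q M : ℕ) (Γ : ℕ → ℕ → ℕ) (h0 : ∀ a, Γ a 0 = 0)
    (hc : ∀ a t, Γ a t + Γ a (t + 2) ≤ 2 * Γ a (t + 1))
    (hm : ∀ a t, Γ a t ≤ Γ (a + 1) t) (hl : ∀ a t, Γ (a + 1) t ≤ Γ a t + q)
    (hM : D2 (fun t => Γ ((q + 1) / 2) t + Γ (q / 2) t) q + M ≤
      D3 (fun t => Γ ((q + 1) / 2) t + Γ (q / 2) t) q)
    (L : ℕ) (hL : (q + 1) / 2 + L ≤ q) (hLM : 4 * (2 * L + 1) * q ≤ M) :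
    D2 (fun t => Γ q t + 2 * ∑ a ∈ Finset.Ico 1 q, Γ a t) q + L * (M / 4) ≤
      D3 (fun t => Γ q t + 2 * ∑ a ∈ Finset.Ico 1 q, Γ a t) q := by
  have e2 : D2 (fun t => Γ q t + 2 * ∑ a ∈ Finset.Ico 1 q, Γ a t) q =
      D2 (Γ q) q + ∑ a ∈ Finset.Ico 1 q, 2 * D2 (Γ a) q := by
    unfold D2
    rw [← Finset.mul_sum, Finset.sum_add_distrib]
    ring
  have e3 : D3 (fun t => Γ q t + 2 * ∑ a ∈ Finset.Ico 1 q, Γ a t) q =
      D3 (Γ q) q + ∑ a ∈ Finset.Ico 1 q, 2 * D3 (Γ a) q := by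
    unfold D3
    rw [← Finset.mul_sum, Finset.sum_add_distrib, Finset.sum_add_distrib]
    ring
  rw [e2, e3]
  have hq0 := D2_le_D3 (Γ q) (h0 q) (hc q) q
  have hsum : (∑ a ∈ Finset.Ico 1 q, 2 * D2 (Γ a) q) + L * (M / 4) ≤
      ∑ a ∈ Finset.Ico 1 q, 2 * D3 (Γ a) q := by
    have hb : ∀ a ∈ Finset.Ico 1 q, 2 * D2 (Γ a) q +
        (if a ∈ Finset.Ico ((q + 1) / 2) ((q + 1) / 2 + L) then M / 4 else 0) ≤
          2 * D3 (Γ a) q := by
      intro a _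
      by_cases ha : a ∈ Finset.Ico ((q + 1) / 2) ((q + 1) / 2 + L)
      · rw [if_pos ha]
        obtain ⟨h1, h2⟩ := Finset.mem_Ico.1 ha
        have h3 := N2_one q M Γ hm hl hM L hLM (a - (q + 1) / 2) (by omega)
        rwa [Nat.add_sub_cancel' h1] at h3
      · rw [if_neg ha]
        have h3 := D2_le_D3 (Γ a) (h0 a) (hc a) q
        omega
    have h1 := Finset.sum_le_sum hb
    rw [Finset.sum_add_distrib] at h1
    have h2 : (∑ a ∈ Finset.Ico 1 q,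
        (if a ∈ Finset.Ico ((q + 1) / 2) ((q + 1) / 2 + L) then M / 4 else 0)) = L * (M / 4) := by
      rcases Nat.eq_zero_or_pos L with rfl | hLpos
      · simp
      · rw [← Finset.sum_filter]
        have hf : (Finset.Ico 1 q).filter
            (fun a => a ∈ Finset.Ico ((q + 1) / 2) ((q + 1) / 2 + L)) =
            Finset.Ico ((q + 1) / 2) ((q + 1) / 2 + L) := by
          ext a
          simp only [Finset.mem_filter, Finset.mem_Ico]
          omega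
        rw [hf, Finset.sum_const, Nat.card_Ico, smul_eq_mul]
        congr 1
        omega
    rw [h2] at h1
    exact h1
  omega

end Pool.Agent.Lib.MP_1bbd88_ag.T
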