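import Pool.Agent.Lib.MP_1bbd88_ag.T.N1

set_option autoImplicit false

namespace Pool.Agent.Lib.MP_1bbd88_ag.T

open Module Polynomial Pool.Agent.Lib.MP_1bbd88_ag.S

private theorem N3_shift (f : ℕ → ℕ) (h0 : f 0 = 0) (hc : ∀ t, f t + f (t + 2) ≤ 2 * f (t + 1))
    {s : ℕ} (hs : f 1 ≤ s) (a t : ℕ) (ha : 1 ≤ a) : f t ≤ f (t + 1 - a) + (a - 1) * s := by
  rcases Nat.lt_or_ge (a - 1) t with h | h
  · have h1 := slope_le f h0 hc (t + 1 - a) (a - 1)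
    have e : t + 1 - a + (a - 1) = t := by omega
    rw [e] at h1
    exact h1.trans (Nat.add_le_add_left (Nat.mul_le_mul_left _ hs) _)
  · have h1 := slope_le f h0 hc 0 t
    rw [zero_add, h0, zero_add] at h1
    have h2 : t * f 1 ≤ (a - 1) * s := Nat.mul_le_mul h hs
    omega

private theorem N3_shift' (f : ℕ → ℕ) (h0 : f 0 = 0) (hc : ∀ t, f t + f (t + 2) ≤ 2 * f (t + 1))
    {s : ℕ} (hs : f 1 ≤ s) (a t : ℕ) (ha : 1 ≤ a) : f (t + a - 1) ≤ f t + (a - 1) * s := by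
  have h1 := slope_le f h0 hc t (a - 1)
  have e : t + (a - 1) = t + a - 1 := by omega
  rw [e] at h1
  exact h1.trans (Nat.add_le_add_left (Nat.mul_le_mul_left _ hs) _)

private theorem N3_one (q M s : ℕ) (f : ℕ → ℕ) (hf0 : f 0 = 0)
    (hfc : ∀ t, f t + f (t + 2) ≤ 2 * f (t + 1)) (hs : f 1 ≤ s) (Γ : ℕ → ℕ → ℕ)
    (hu : ∀ a t, 1 ≤ a → Γ a t ≤ a * f (t + a - 1)) (hl : ∀ a t, a * f (t + 1 - a) ≤ Γ a t)
    (hM : D2 f q + M ≤ D3 f q) (L : ℕ) (hLM : 10 * L * s ≤ M) (a : ℕ) (ha : 1 ≤ a)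
    (haL : a ≤ L) : D2 (Γ a) q + a * (M / 2) ≤ D3 (Γ a) q := by
  unfold D2 D3 at *
  set c := (a - 1) * s with hc
  have hc5 : 5 * c ≤ M / 2 := by
    have h1 : (a - 1) * s ≤ L * s := Nat.mul_le_mul_right s (by omega)
    have h2 : 10 * L * s = 10 * (L * s) := by ring
    omega
  have l1 := hl a ((q + 2) / 3)
  have l2 := hl a ((q + 1) / 3)
  have l3 := hl a (q / 3)
  have u1 := hu a ((q + 1) / 2) ha
  have u2 := hu a (q / 2) ha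
  have s1 := Nat.mul_le_mul_left a (N3_shift f hf0 hfc hs a ((q + 2) / 3) ha)
  have s2 := Nat.mul_le_mul_left a (N3_shift f hf0 hfc hs a ((q + 1) / 3) ha)
  have s3 := Nat.mul_le_mul_left a (N3_shift f hf0 hfc hs a (q / 3) ha)
  have t1 := Nat.mul_le_mul_left a (N3_shift' f hf0 hfc hs a ((q + 1) / 2) ha)
  have t2 := Nat.mul_le_mul_left a (N3_shift' f hf0 hfc hs a (q / 2) ha)
  rw [← hc] at s1 s2 s3 t1 t2
  have m1 := Nat.mul_le_mul_left a hM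
  have m2 : a * (5 * c + M / 2) ≤ a * M := Nat.mul_le_mul_left a (by omega)
  rw [Nat.mul_add] at s1 s2 s3 t1 t2
  rw [Nat.mul_add, Nat.mul_add, Nat.mul_add, Nat.mul_add] at m1
  have e5 : a * (5 * c + M / 2) = 5 * (a * c) + a * (M / 2) := by ring
  rw [e5] at m2
  omega

private theorem N3_gauss (L m : ℕ) :
    L ^ 2 * m ≤ 2 * ∑ a ∈ Finset.Ico 1 (L + 1), a * m := by
  have h : ∀ L : ℕ, 2 * ∑ a ∈ Finset.Ico 1 (L + 1), a * m = L * (L + 1) * m := by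
    intro L
    induction L with
    | zero => simp
    | succ L ih =>
      rw [Finset.sum_Ico_succ_top (by omega), Nat.mul_add, ih]
      ring
  rw [h, pow_two]
  exact Nat.mul_le_mul_right m (Nat.mul_le_mul_left L (by omega))

private theorem N3_D2 (Γ : ℕ → ℕ → ℕ) (q : ℕ) :
    D2 (fun t => Γ q t + 2 * ∑ a ∈ Finset.Ico 1 q, Γ a t) q =
      D2 (Γ q) q + 2 * ∑ a ∈ Finset.Ico 1 q, D2 (Γ a) q := by
  unfold D2
  rw [Finset.sum_add_distrib]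
  ring

private theorem N3_D3 (Γ : ℕ → ℕ → ℕ) (q : ℕ) :
    D3 (fun t => Γ q t + 2 * ∑ a ∈ Finset.Ico 1 q, Γ a t) q =
      D3 (Γ q) q + 2 * ∑ a ∈ Finset.Ico 1 q, D3 (Γ a) q := by
  unfold D3
  rw [Finset.sum_add_distrib, Finset.sum_add_distrib]
  ring

/-- numerical form of the induction step of the gap -/
theorem gap_step_num (q M s : ℕ) (f : ℕ → ℕ) (hf0 : f 0 = 0)
    (hfc : ∀ t, f t + f (t + 2) ≤ 2 * f (t + 1)) (hs : f 1 ≤ s) (Γ : ℕ → ℕ → ℕ)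
    (h0 : ∀ a, Γ a 0 = 0) (hc : ∀ a t, Γ a t + Γ a (t + 2) ≤ 2 * Γ a (t + 1))
    (hu : ∀ a t, 1 ≤ a → Γ a t ≤ a * f (t + a - 1)) (hl : ∀ a t, a * f (t + 1 - a) ≤ Γ a t)
    (hM : D2 f q + M ≤ D3 f q) (L : ℕ) (hL : L < q) (hLM : 10 * L * s ≤ M) :
    D2 (fun t => Γ q t + 2 * ∑ a ∈ Finset.Ico 1 q, Γ a t) q + L ^ 2 * (M / 2) ≤
      D3 (fun t => Γ q t + 2 * ∑ a ∈ Finset.Ico 1 q, Γ a t) q := by
  rw [N3_D2, N3_D3]
  have hq := D2_le_D3 (Γ q) (h0 q) (hc q) q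
  have hg := N3_gauss L (M / 2)
  have hsum : ∑ a ∈ Finset.Ico 1 q, D2 (Γ a) q + ∑ a ∈ Finset.Ico 1 (L + 1), a * (M / 2) ≤
      ∑ a ∈ Finset.Ico 1 q, D3 (Γ a) q := by
    have h1 : (1 : ℕ) ≤ L + 1 := by omega
    have h2 : L + 1 ≤ q := hL
    rw [← Finset.sum_Ico_consecutive (fun a => D2 (Γ a) q) h1 h2,
      ← Finset.sum_Ico_consecutive (fun a => D3 (Γ a) q) h1 h2]
    have a1 : ∑ a ∈ Finset.Ico 1 (L + 1), D2 (Γ a) q + ∑ a ∈ Finset.Ico 1 (L + 1), a * (M / 2) ≤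
        ∑ a ∈ Finset.Ico 1 (L + 1), D3 (Γ a) q := by
      rw [← Finset.sum_add_distrib]
      refine Finset.sum_le_sum fun a ha => ?_
      rw [Finset.mem_Ico] at ha
      exact N3_one q M s f hf0 hfc hs Γ hu hl hM L hLM a ha.1 (by omega)
    have a2 : ∑ a ∈ Finset.Ico (L + 1) q, D2 (Γ a) q ≤ ∑ a ∈ Finset.Ico (L + 1) q, D3 (Γ a) q :=
      Finset.sum_le_sum fun a _ => D2_le_D3 (Γ a) (h0 a) (hc a) q
    omega
  omega

end Pool.Agent.Lib.MP_1bbd88_ag.T
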