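import Pool.Agent.Lib.MP_1bbd88_ag.T.G5
import Pool.Agent.Lib.MP_1bbd88_ag.T.G9
import Pool.Agent.Lib.MP_1bbd88_ag.T.N2
import Pool.Agent.Lib.MP_1bbd88_ag.T.N3

set_option autoImplicit false

namespace Pool.Agent.Lib.MP_1bbd88_ag.T

open Module Polynomial Pool.Agent.Lib.MP_1bbd88_ag.S

/-- the case of two variables -/
private theorem N4_two_nat (q : ℕ) (hq : 3 ≤ q) (f : ℕ → ℕ)
    (hf : ∀ t, t ≤ q → f t + t ^ 2 = 2 * q * t) : 12 * D2 f q + q ^ 2 ≤ 12 * D3 f q := by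
  unfold D2 D3
  have h1 := hf ((q + 2) / 3) (by omega)
  have h2 := hf ((q + 1) / 3) (by omega)
  have h3 := hf (q / 3) (by omega)
  have h4 := hf ((q + 1) / 2) (by omega)
  have h5 := hf (q / 2) (by omega)
  obtain ⟨m, r, hr, hqr⟩ : ∃ m r, r < 6 ∧ q = 6 * m + r := ⟨q / 6, q % 6, by omega, by omega⟩
  have key : ∀ a b c x y : ℕ, (q + 2) / 3 = a → (q + 1) / 3 = b → q / 3 = c →
      (q + 1) / 2 = x → q / 2 = y → 12 * (a ^ 2 + b ^ 2 + c ^ 2) + q ^ 2 ≤ 12 * (x ^ 2 + y ^ 2) →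
      a + b + c = q → x + y = q →
      12 * (f ((q + 1) / 2) + f (q / 2)) + q ^ 2 ≤
        12 * (f ((q + 2) / 3) + f ((q + 1) / 3) + f (q / 3)) := by
    intro a b c x y ha hb hc hx hy h hs1 hs2
    rw [ha] at h1 ⊢
    rw [hb] at h2 ⊢
    rw [hc] at h3 ⊢
    rw [hx] at h4 ⊢
    rw [hy] at h5 ⊢
    have e1 : f a + f b + f c + (a ^ 2 + b ^ 2 + c ^ 2) = 2 * q * q := by
      calc f a + f b + f c + (a ^ 2 + b ^ 2 + c ^ 2) =
          (f a + a ^ 2) + (f b + b ^ 2) + (f c + c ^ 2) := by ring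
        _ = 2 * q * (a + b + c) := by rw [h1, h2, h3]; ring
        _ = 2 * q * q := by rw [hs1]
    have e2 : f x + f y + (x ^ 2 + y ^ 2) = 2 * q * q := by
      calc f x + f y + (x ^ 2 + y ^ 2) = (f x + x ^ 2) + (f y + y ^ 2) := by ring
        _ = 2 * q * (x + y) := by rw [h4, h5]; ring
        _ = 2 * q * q := by rw [hs2]
    omega
  interval_cases r
  · exact key (2 * m) (2 * m) (2 * m) (3 * m) (3 * m) (by omega) (by omega) (by omega)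
      (by omega) (by omega) (by subst hqr; nlinarith) (by omega) (by omega)
  · exact key (2 * m + 1) (2 * m) (2 * m) (3 * m + 1) (3 * m) (by omega) (by omega) (by omega)
      (by omega) (by omega) (by
        have hm : 1 ≤ m := by omega
        subst hqr; nlinarith) (by omega) (by omega)
  · exact key (2 * m + 1) (2 * m + 1) (2 * m) (3 * m + 1) (3 * m + 1) (by omega) (by omega)
      (by omega) (by omega) (by omega) (by
        have hm : 1 ≤ m := by omega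
        subst hqr; nlinarith) (by omega) (by omega)
  · exact key (2 * m + 1) (2 * m + 1) (2 * m + 1) (3 * m + 2) (3 * m + 1) (by omega) (by omega)
      (by omega) (by omega) (by omega) (by subst hqr; nlinarith) (by omega) (by omega)
  · exact key (2 * m + 2) (2 * m + 1) (2 * m + 1) (3 * m + 2) (3 * m + 2) (by omega) (by omega)
      (by omega) (by omega) (by omega) (by subst hqr; nlinarith) (by omega) (by omega)
  · exact key (2 * m + 2) (2 * m + 2) (2 * m + 1) (3 * m + 3) (3 * m + 2) (by omega) (by omega)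
      (by omega) (by omega) (by omega) (by subst hqr; nlinarith) (by omega) (by omega)

private theorem N4_two (q : ℕ) (hq : 3 ≤ q) (f : ℕ → ℕ)
    (hf : ∀ t, t ≤ q → f t + t ^ 2 = 2 * q * t) :
    (D2 f q : ℝ) + 1 / 12 * (q : ℝ) ^ 2 ≤ (D3 f q : ℝ) := by
  have h : ((12 * D2 f q + q ^ 2 : ℕ) : ℝ) ≤ ((12 * D3 f q : ℕ) : ℝ) := by
    exact_mod_cast N4_two_nat q hq f hf
  push_cast at h
  linarith

private theorem N4_div (n m : ℕ) (hm : 0 < m) : ((n : ℝ) - (m - 1)) / m ≤ ((n / m : ℕ) : ℝ) := by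
  have h1 : n + 1 ≤ m * (n / m) + m := by
    have := Nat.div_add_mod n m
    have := Nat.mod_lt n hm
    omega
  have h2 : ((n : ℝ) + 1) ≤ m * ((n / m : ℕ) : ℝ) + m := by exact_mod_cast h1
  have hm' : (0 : ℝ) < m := by exact_mod_cast hm
  rw [div_le_iff₀ hm']
  nlinarith

/-- the case of three variables, numerically -/
private theorem N4_three (q M L : ℕ) (x y : ℝ) (hx : x + (L * (M / 4) : ℕ) ≤ y) (hq : 400 ≤ q)
    (hM : M = ⌊1 / 12 * (q : ℝ) ^ 2⌋₊) (hL : L = q / 200) :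
    x + 1 / 38400 * (q : ℝ) ^ 3 ≤ y := by
  have hq' : (400 : ℝ) ≤ q := by exact_mod_cast hq
  have hL1 : (q : ℝ) / 400 ≤ L := by
    have h := N4_div q 200 (by norm_num)
    rw [← hL] at h
    push_cast at h
    linarith
  have hM1 : 1 / 12 * (q : ℝ) ^ 2 - 1 ≤ M := by
    have h := Nat.lt_floor_add_one (1 / 12 * (q : ℝ) ^ 2)
    rw [← hM] at h
    linarith
  have hM2 : 1 / 96 * (q : ℝ) ^ 2 ≤ ((M / 4 : ℕ) : ℝ) := by
    have h := N4_div M 4 (by norm_num)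
    push_cast at h
    nlinarith
  have h1 : (q : ℝ) / 400 * (1 / 96 * (q : ℝ) ^ 2) ≤ (L : ℝ) * ((M / 4 : ℕ) : ℝ) :=
    mul_le_mul hL1 hM2 (by positivity) (by positivity)
  push_cast at hx
  have h2 : ((M / 4 : ℕ) : ℝ) = ((M / 4 : ℕ) : ℝ) := rfl
  nlinarith

/-- the induction step, numerically -/
private theorem N4_step (q d M L : ℕ) (ε x y : ℝ) (hε : 0 < ε)
    (hx : x + (L ^ 2 * (M / 2) : ℕ) ≤ y) (hd : 1 ≤ d) (hq : 40 / min ε 1 ≤ q)
    (hM : M = ⌊ε * (q : ℝ) ^ d⌋₊) (hL : L = ⌊min ε 1 * q / 20⌋₊) :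
    x + (min ε 1 / 40) ^ 2 * (ε / 4) * (q : ℝ) ^ (d + 2) ≤ y := by
  set δ := min ε 1 with hδ
  have hδ0 : 0 < δ := lt_min hε one_pos
  have hδε : δ ≤ ε := min_le_left _ _
  have hδ1 : δ ≤ 1 := min_le_right _ _
  have hq40 : 40 ≤ δ * q := by
    rw [div_le_iff₀ hδ0] at hq
    linarith
  have hq1 : (1 : ℝ) ≤ q := by
    by_contra hc
    push Not at hc
    have : δ * q ≤ 1 * 1 := mul_le_mul hδ1 hc.le (Nat.cast_nonneg q) zero_le_one
    linarith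
  have hL1 : δ / 40 * q ≤ L := by
    have h := Nat.lt_floor_add_one (δ * q / 20)
    rw [← hL] at h
    linarith
  have hqd : (q : ℝ) ≤ (q : ℝ) ^ d := by
    calc (q : ℝ) = (q : ℝ) ^ 1 := (pow_one _).symm
      _ ≤ (q : ℝ) ^ d := pow_le_pow_right₀ hq1 hd
  have h40 : 40 ≤ ε * (q : ℝ) ^ d := by
    calc (40 : ℝ) ≤ δ * q := hq40
      _ ≤ ε * (q : ℝ) ^ d := mul_le_mul hδε hqd (by positivity) hε.le
  have hM1 : ε * (q : ℝ) ^ d - 1 ≤ M := by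
    have h := Nat.lt_floor_add_one (ε * (q : ℝ) ^ d)
    rw [← hM] at h
    linarith
  have hM2 : ε / 4 * (q : ℝ) ^ d ≤ ((M / 2 : ℕ) : ℝ) := by
    have h := N4_div M 2 (by norm_num)
    push_cast at h
    linarith
  have h2 : (δ / 40 * q) ^ 2 ≤ (L : ℝ) ^ 2 := pow_le_pow_left₀ (by positivity) hL1 2
  have h1 : (δ / 40 * q) ^ 2 * (ε / 4 * (q : ℝ) ^ d) ≤ (L : ℝ) ^ 2 * ((M / 2 : ℕ) : ℝ) :=
    mul_le_mul h2 hM2 (by positivity) (by positivity)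
  rw [Nat.cast_mul, Nat.cast_pow] at hx
  have h3 : (δ / 40) ^ 2 * (ε / 4) * (q : ℝ) ^ (d + 2) =
      (δ / 40 * q) ^ 2 * (ε / 4 * (q : ℝ) ^ d) := by ring
  linarith

variable {k : Type*} [Field k] {p : ℕ} [Fact p.Prime] [CharP k p]

private theorem N4_pow_ge (e : ℕ) : e ≤ p ^ e :=
  (Nat.lt_pow_self (Nat.Prime.one_lt Fact.out)).le

/-- the case `d = 2` -/
private theorem N4_base2 (hp : p ≠ 2) {ι : k} (hι : ι ^ 2 = -1) :
    ∃ (ε : ℝ) (e0 : ℕ), 0 < ε ∧ ∀ e, e0 ≤ e →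
      (D2 (ph k 2 (p ^ e)) (p ^ e) : ℝ) + ε * ((p : ℝ) ^ e) ^ 2 ≤
        (D3 (ph k 2 (p ^ e)) (p ^ e) : ℝ) := by
  refine ⟨1 / 12, 3, by norm_num, fun e he => ?_⟩
  have h := N4_two (p ^ e) (he.trans (N4_pow_ge e)) (ph k 2 (p ^ e))
    (fun t ht => ph_two hp hι e t ht)
  push_cast at h
  exact h

/-- the case `d = 3` -/
private theorem N4_base3 (hp : p ≠ 2) {ι : k} (hι : ι ^ 2 = -1) :
    ∃ (ε : ℝ) (e0 : ℕ), 0 < ε ∧ ∀ e, e0 ≤ e →
      (D2 (ph k 3 (p ^ e)) (p ^ e) : ℝ) + ε * ((p : ℝ) ^ e) ^ 3 ≤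
        (D3 (ph k 3 (p ^ e)) (p ^ e) : ℝ) := by
  refine ⟨1 / 38400, 400, by norm_num, fun e he => ?_⟩
  have hq : 400 ≤ p ^ e := he.trans (N4_pow_ge e)
  have h2 := N4_two (p ^ e) (by omega) (ph k 2 (p ^ e)) (fun t ht => ph_two hp hι e t ht)
  generalize hQ : p ^ e = q at *
  have hcast : ((p : ℝ) ^ e) = (q : ℝ) := by rw [← hQ]; push_cast; rfl
  have e2 : (fun t => Ga k (sq k 1 q) ((q + 1) / 2) t + Ga k (sq k 1 q) (q / 2) t) =
      ph k 2 q := by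
    funext t
    exact (ph_succ 1 q t).symm
  have e3 : (fun t => Ga k (sq k 1 q) q t + 2 * ∑ a ∈ Finset.Ico 1 q, Ga k (sq k 1 q) a t) =
      ph k 3 q := by
    funext t
    subst hQ
    exact (ph_add_two hp hι 1 e t).symm
  have hq' : (400 : ℝ) ≤ q := by exact_mod_cast hq
  have hL1 : ((q / 200 : ℕ) : ℝ) ≤ q / 200 := by
    have := @Nat.cast_div_le ℝ _ _ _ q 200
    push_cast at this
    exact this
  have h3 := gap_three_num q ⌊1 / 12 * (q : ℝ) ^ 2⌋₊ (fun a t => Ga k (sq k 1 q) a t)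
    (fun a => co_zero _) (fun a t => co_concave _ t) (fun a t => Ga_mono _ a t)
    (fun a t => by
      have h := Ga_succ_le (k := k) (sq k 1 q) a t
      rw [finrank_W, pow_one] at h
      exact h)
    (by
      rw [e2]
      have h4 : ((⌊1 / 12 * (q : ℝ) ^ 2⌋₊ : ℕ) : ℝ) ≤ 1 / 12 * (q : ℝ) ^ 2 :=
        Nat.floor_le (by positivity)
      have h5 : ((D2 (ph k 2 q) q + ⌊1 / 12 * (q : ℝ) ^ 2⌋₊ : ℕ) : ℝ) ≤
          ((D3 (ph k 2 q) q : ℕ) : ℝ) := by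
        push_cast
        linarith
      exact_mod_cast h5)
    (q / 200) (by omega)
    (by
      apply Nat.le_floor
      push_cast
      nlinarith)
  rw [e3] at h3
  rw [hcast]
  refine N4_three q _ _ _ _ ?_ hq rfl rfl
  exact_mod_cast h3

/-- the induction step -/
private theorem N4_ind (hp : p ≠ 2) {ι : k} (hι : ι ^ 2 = -1) (d : ℕ) (hd : 1 ≤ d)
    (ih : ∃ (ε : ℝ) (e0 : ℕ), 0 < ε ∧ ∀ e, e0 ≤ e →
      (D2 (ph k d (p ^ e)) (p ^ e) : ℝ) + ε * ((p : ℝ) ^ e) ^ d ≤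
        (D3 (ph k d (p ^ e)) (p ^ e) : ℝ)) :
    ∃ (ε : ℝ) (e0 : ℕ), 0 < ε ∧ ∀ e, e0 ≤ e →
      (D2 (ph k (d + 2) (p ^ e)) (p ^ e) : ℝ) + ε * ((p : ℝ) ^ e) ^ (d + 2) ≤
        (D3 (ph k (d + 2) (p ^ e)) (p ^ e) : ℝ) := by
  obtain ⟨ε, e0, hε, h⟩ := ih
  have hδ : 0 < min ε 1 := lt_min hε one_pos
  refine ⟨(min ε 1 / 40) ^ 2 * (ε / 4), e0 + ⌈40 / min ε 1⌉₊, by positivity, fun e he => ?_⟩
  have h0 := h e (by omega)
  have hqq : 40 / min ε 1 ≤ ((p ^ e : ℕ) : ℝ) := by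
    calc 40 / min ε 1 ≤ (⌈40 / min ε 1⌉₊ : ℝ) := Nat.le_ceil _
      _ ≤ ((p ^ e : ℕ) : ℝ) := by
        have := N4_pow_ge (p := p) e
        exact_mod_cast (by omega : ⌈40 / min ε 1⌉₊ ≤ p ^ e)
  have hcast : ((p : ℝ) ^ e) = ((p ^ e : ℕ) : ℝ) := by push_cast; rfl
  rw [hcast] at h0 ⊢
  generalize hQ : p ^ e = q at *
  obtain ⟨c, rfl⟩ : ∃ c, d = c + 1 := ⟨d - 1, by omega⟩
  have e3 : (fun t => Ga k (sq k (c + 1) q) q t +
      2 * ∑ a ∈ Finset.Ico 1 q, Ga k (sq k (c + 1) q) a t) = ph k (c + 1 + 2) q := by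
    funext t
    subst hQ
    exact (ph_add_two hp hι (c + 1) e t).symm
  have hδ1 : min ε 1 ≤ 1 := min_le_right _ _
  have hδε : min ε 1 ≤ ε := min_le_left _ _
  have hq0 : (0 : ℝ) < q := lt_of_lt_of_le (by positivity) hqq
  have hLle : ((⌊min ε 1 * q / 20⌋₊ : ℕ) : ℝ) ≤ min ε 1 * q / 20 := Nat.floor_le (by positivity)
  have hstep := gap_step_num q ⌊ε * (q : ℝ) ^ (c + 1)⌋₊ (2 * q ^ c) (ph k (c + 1) q)
    (co_zero _) (fun t => co_concave _ t) (ph_one_le c q) (fun a t => Ga k (sq k (c + 1) q) a t)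
    (fun a => co_zero _) (fun a t => co_concave _ t) (fun a t ha => Ga_le _ a t ha)
    (fun a t => le_Ga _ a t)
    (by
      have h4 : ((⌊ε * (q : ℝ) ^ (c + 1)⌋₊ : ℕ) : ℝ) ≤ ε * (q : ℝ) ^ (c + 1) :=
        Nat.floor_le (by positivity)
      have h5 : ((D2 (ph k (c + 1) q) q + ⌊ε * (q : ℝ) ^ (c + 1)⌋₊ : ℕ) : ℝ) ≤
          ((D3 (ph k (c + 1) q) q : ℕ) : ℝ) := by
        push_cast
        linarith
      exact_mod_cast h5)
    ⌊min ε 1 * q / 20⌋₊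
    (by
      have h6 : ((⌊min ε 1 * q / 20⌋₊ : ℕ) : ℝ) < (q : ℝ) := by
        have : min ε 1 * q ≤ 1 * q := mul_le_mul_of_nonneg_right hδ1 hq0.le
        linarith
      exact_mod_cast h6)
    (by
      apply Nat.le_floor
      push_cast
      have h7 : ((⌊min ε 1 * q / 20⌋₊ : ℕ) : ℝ) * (20 * (q : ℝ) ^ c) ≤
          min ε 1 * q / 20 * (20 * (q : ℝ) ^ c) :=
        mul_le_mul_of_nonneg_right hLle (by positivity)
      have h8 : min ε 1 * (q : ℝ) ^ (c + 1) ≤ ε * (q : ℝ) ^ (c + 1) :=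
        mul_le_mul_of_nonneg_right hδε (by positivity)
      have h9 : min ε 1 * q / 20 * (20 * (q : ℝ) ^ c) = min ε 1 * (q : ℝ) ^ (c + 1) := by ring
      calc 10 * ((⌊min ε 1 * q / 20⌋₊ : ℕ) : ℝ) * (2 * (q : ℝ) ^ c) =
          ((⌊min ε 1 * q / 20⌋₊ : ℕ) : ℝ) * (20 * (q : ℝ) ^ c) := by ring
        _ ≤ ε * (q : ℝ) ^ (c + 1) := by linarith)
  rw [e3] at hstep
  refine N4_step q (c + 1) _ _ ε _ _ hε ?_ (by omega) hqq rfl rfl
  exact_mod_cast hstep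

/-- the gap between the `A_1` and the `A_2` singularity -/
theorem gap (hp : p ≠ 2) {ι : k} (hι : ι ^ 2 = -1) (d : ℕ) (hd : 2 ≤ d) :
    ∃ (ε : ℝ) (e0 : ℕ), 0 < ε ∧ ∀ e, e0 ≤ e →
      (D2 (ph k d (p ^ e)) (p ^ e) : ℝ) + ε * ((p : ℝ) ^ e) ^ d ≤
        (D3 (ph k d (p ^ e)) (p ^ e) : ℝ) := by
  induction d using Nat.strong_induction_on with
  | _ d ih =>
    by_cases h2 : d = 2
    · subst h2
      exact N4_base2 hp hι
    · by_cases h3 : d = 3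
      · subst h3
        exact N4_base3 hp hι
      · obtain ⟨c, rfl⟩ : ∃ c, d = c + 2 := ⟨d - 2, by omega⟩
        exact N4_ind hp hι c (by omega) (ih c (by omega) (by omega))

end Pool.Agent.Lib.MP_1bbd88_ag.T
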