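import Pool.Agent.Lib.MP_1bbd88_ag.S.U0
import Pool.Agent.Lib.MP_1bbd88_ag.S.CC
import Pool.Agent.Lib.MP_1bbd88_ag.S.SC

/-! Definitions for the uniqueness theorem. -/

set_option autoImplicit false

namespace Pool.Agent.Lib.MP_1bbd88_ag.T

open Module Polynomial Pool.Agent.Lib.MP_1bbd88_ag.S

/-- The colength of `z ^ t` in `B`. -/
noncomputable def co (k : Type*) {B : Type*} [Field k] [CommRing B] [Algebra k B] (z : B)
    (t : ℕ) : ℕ := finrank k (B ⧸ Ideal.span {z ^ t})

/-- The truncated polynomial ring `B[y]/(y^a)`. -/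
abbrev TP (B : Type*) [CommRing B] (a : ℕ) : Type _ := B[X] ⧸ Ideal.span {(X : B[X]) ^ a}

/-- The variable of `TP B a`. -/
noncomputable def ty (B : Type*) [CommRing B] (a : ℕ) : TP B a := Ideal.Quotient.mk _ X

/-- Constants of `TP B a`. -/
noncomputable def tc {B : Type*} [CommRing B] (a : ℕ) (b : B) : TP B a :=
  Ideal.Quotient.mk _ (C b)

/-- The colength of `(y + z)^t` in `B[y]/(y^a)`. -/
noncomputable def Ga (k : Type*) {B : Type*} [Field k] [CommRing B] [Algebra k B] (z : B)
    (a t : ℕ) : ℕ := co k (ty B a + tc a z) t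

/-- The sum of squares of the variables of `W d q k`. -/
noncomputable def sq (k : Type*) [Field k] (d q : ℕ) : W d q k := ∑ i, wx d q k i ^ 2

/-- The colength of powers of the sum of squares. -/
noncomputable def ph (k : Type*) [Field k] (d q t : ℕ) : ℕ := co k (sq k d q) t

/-- The sum of three values of `f` at arguments near `q / 3`. -/
def D3 (f : ℕ → ℕ) (q : ℕ) : ℕ := f ((q + 2) / 3) + f ((q + 1) / 3) + f (q / 3)

/-- The sum of two values of `f` at arguments near `q / 2`. -/
def D2 (f : ℕ → ℕ) (q : ℕ) : ℕ := f ((q + 1) / 2) + f (q / 2)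

/-- `G` has the quadratic part `h0`. -/
def HasQ {k : Type*} [Field k] {m q : ℕ} (G : W m q k) (h0 : Matrix (Fin m) (Fin m) k) : Prop :=
  G - ∑ i, ∑ j, algebraMap k (W m q k) (h0 i j) * (wx m q k i * wx m q k j) ∈ wm m q k ^ 3

/-- The ideal `(u_1, …, u_d) + wm ^ 2` of `W (d + 1) q k`. -/
noncomputable def MM (k : Type*) [Field k] (d q : ℕ) : Ideal (W (d + 1) q k) :=
  Ideal.span (Set.range fun i : Fin d => wx (d + 1) q k i.castSucc) ⊔ wm (d + 1) q k ^ 2

end Pool.Agent.Lib.MP_1bbd88_ag.T
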