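import Pool.Agent.Lib.MP_1bbd88_ag.T.H6
import Pool.Agent.Lib.MP_1bbd88_ag.T.K3
import Pool.Agent.Lib.MP_1bbd88_ag.T.M0
import Pool.Agent.Lib.MP_1bbd88_ag.T.M4
import Pool.Agent.Lib.MP_1bbd88_ag.T.L1
import Pool.Agent.Lib.MP_1bbd88_ag.T.G9

set_option autoImplicit false

namespace Pool.Agent.Lib.MP_1bbd88_ag.T

open Module Polynomial IsLocalRing Pool.Agent.Lib.MP_1bbd88_ag.S

section

variable {k : Type*} [Field k]

/-- the image of an element with a given quadratic part -/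
theorem Y1_hasQ (n q : ℕ) (π : MvPowerSeries (Fin n) k →ₐ[k] W n q k)
    (hX : ∀ i, π (MvPowerSeries.X i) = wx n q k i)
    (hN : ∀ N, ∀ g ∈ maximalIdeal (MvPowerSeries (Fin n) k) ^ N, π g ∈ wm n q k ^ N)
    (f : MvPowerSeries (Fin n) k) (h0 : Matrix (Fin n) (Fin n) k)
    (hf : f - ∑ i, ∑ j, MvPowerSeries.C (h0 i j) * (MvPowerSeries.X i * MvPowerSeries.X j) ∈
      maximalIdeal (MvPowerSeries (Fin n) k) ^ 3) : HasQ (π f) h0 := by
  unfold HasQ
  have h1 := hN 3 _ hf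
  have h2 : ∀ a : k, π (MvPowerSeries.C a) = algebraMap k (W n q k) a := by
    intro a
    have h3 : (MvPowerSeries.C a : MvPowerSeries (Fin n) k) = algebraMap k (MvPowerSeries (Fin n) k) a := rfl
    rw [h3, AlgHom.commutes]
  rw [map_sub, map_sum] at h1
  have h4 : ∑ i, π (∑ j, MvPowerSeries.C (h0 i j) * (MvPowerSeries.X i * MvPowerSeries.X j)) =
      ∑ i, ∑ j, algebraMap k (W n q k) (h0 i j) * (wx n q k i * wx n q k j) := by
    refine Finset.sum_congr rfl fun i _ => ?_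
    rw [map_sum]
    refine Finset.sum_congr rfl fun j _ => ?_
    rw [map_mul, map_mul, h2, hX, hX]
  rw [h4] at h1
  exact h1

theorem Y1_range {A : Type*} {s : ℕ} (F : Fin (s + 1) → A) :
    Set.range F = insert (F 0) (Set.range fun j : Fin s => F j.succ) := by
  ext x
  constructor
  · rintro ⟨j, rfl⟩
    refine Fin.cases ?_ (fun i => ?_) j
    · exact Set.mem_insert _ _
    · exact Set.mem_insert_of_mem _ ⟨i, rfl⟩
  · rintro (rfl | ⟨i, rfl⟩)
    · exact ⟨0, rfl⟩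
    · exact ⟨i.succ, rfl⟩

end

variable {k : Type*} [Field k] [IsAlgClosed k] {p : ℕ} [Fact p.Prime] [CharP k p]

theorem Y1_codim (hp : p ≠ 2) (n d s e : ℕ) (hn : n = d + 1 + s) (hs : 0 < s)
    (F : Fin (s + 1) → W n (p ^ e) k) (hF : ∀ j, F j ∈ wm n (p ^ e) k ^ 2) :
    D3 (ph k d (p ^ e)) (p ^ e) ≤ finrank k (W n (p ^ e) k ⧸ Ideal.span (Set.range F)) := by
  subst hn
  rw [Y1_range F, Ideal.span_insert]
  exact D3_le_of_codim hp d s e hs (F 0) (hF 0) (fun j => F j.succ) fun j => hF j.succ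

omit [IsAlgClosed k] in
theorem Y1_image {n q : ℕ} (π : MvPowerSeries (Fin n) k →ₐ[k] W n q k) {c : ℕ}
    (f : Fin c → MvPowerSeries (Fin n) k) :
    (Ideal.span (Set.range f)).map (π : MvPowerSeries (Fin n) k →+* W n q k) =
      Ideal.span (Set.range fun j => π (f j)) := by
  rw [Ideal.map_span, ← Set.range_comp]
  rfl

/-- the colength of a complete intersection which is not the quadric -/
theorem D3_le_ci (hp : p ≠ 2) (d c e : ℕ) (hc : 0 < c)
    (f : Fin c → MvPowerSeries (Fin (d + c)) k)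
    (hf : ∀ j, f j ∈ maximalIdeal (MvPowerSeries (Fin (d + c)) k) ^ 2)
    (hq : ¬ Nonempty ((MvPowerSeries (Fin (d + c)) k ⧸ Ideal.span (Set.range f)) ≃+*
      (MvPowerSeries (Fin (d + 1)) k ⧸ Ideal.span
        {∑ i : Fin (d + 1), (MvPowerSeries.X i : MvPowerSeries (Fin (d + 1)) k) ^ 2}))) :
    D3 (ph k d (p ^ e)) (p ^ e) ≤ finrank k (MvPowerSeries (Fin (d + c)) k ⧸
      (Ideal.span (Set.range f) ⊔ psI (Fin (d + c)) k (p ^ e))) := by
  have hp0 : p ^ e ≠ 0 := pow_ne_zero e (Nat.Prime.ne_zero Fact.out)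
  obtain ⟨π, hsurj, hX, hker, hN⟩ := exists_toW (k := k) (d + c) (p ^ e) hp0
  rw [finrank_toW (d + c) (p ^ e) π hsurj hker, Y1_image π f]
  obtain ⟨s, rfl⟩ : ∃ s, c = s + 1 := ⟨c - 1, by omega⟩
  rcases Nat.eq_zero_or_pos s with rfl | hs
  · have hr : Set.range f = {f 0} := by
      ext x
      constructor
      · rintro ⟨j, rfl⟩
        rw [Set.mem_singleton_iff]
        exact congrArg f (Subsingleton.elim (α := Fin 1) j 0)
      · rintro rfl
        exact ⟨0, rfl⟩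
    have hr2 : Set.range (fun j => π (f j)) = {π (f 0)} := by
      ext x
      constructor
      · rintro ⟨j, rfl⟩
        rw [Set.mem_singleton_iff]
        exact congrArg (fun j => π (f j)) (Subsingleton.elim (α := Fin 1) j 0)
      · rintro rfl
        exact ⟨0, rfl⟩
    rw [hr2]
    obtain ⟨h0, hsym, hf0⟩ := exists_hasQ_ps hp (f 0) (hf 0)
    by_cases hd : h0.det = 0
    · exact D3_le_of_degenerate hp d e (π (f 0)) h0 hsym
        (Y1_hasQ (d + (0 + 1)) (p ^ e) π hX hN (f 0) h0 hf0) hd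
    · exfalso
      apply hq
      rw [hr]
      exact ps_morse hp (f 0) h0 hsym hf0 (isUnit_iff_ne_zero.mpr hd)
  · exact Y1_codim hp (d + (s + 1)) d s e (by ring) hs (fun j => π (f j)) fun j => hN 2 _ (hf j)

/-- the power series form of `cusp_eq` -/
theorem cusp_ps (d q : ℕ) (hq : q ≠ 0) : finrank k (MvPowerSeries (Fin (d + 1)) k ⧸
    (Ideal.span {∑ i : Fin d, (MvPowerSeries.X i.castSucc : MvPowerSeries (Fin (d + 1)) k) ^ 2 +
      (MvPowerSeries.X (Fin.last d) : MvPowerSeries (Fin (d + 1)) k) ^ 3} ⊔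
      psI (Fin (d + 1)) k q)) = D3 (ph k d q) q := by
  obtain ⟨π, hsurj, hX, hker, _⟩ := exists_toW (k := k) (d + 1) q hq
  rw [finrank_toW (d + 1) q π hsurj hker, Ideal.map_span, Set.image_singleton]
  have h1 : (π : MvPowerSeries (Fin (d + 1)) k →+* W (d + 1) q k)
      (∑ i : Fin d, (MvPowerSeries.X i.castSucc : MvPowerSeries (Fin (d + 1)) k) ^ 2 +
        (MvPowerSeries.X (Fin.last d) : MvPowerSeries (Fin (d + 1)) k) ^ 3) =
      ∑ i : Fin d, wx (d + 1) q k i.castSucc ^ 2 + wx (d + 1) q k (Fin.last d) ^ 3 := by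
    show π _ = _
    rw [map_add, map_sum, map_pow, hX]
    congr 1
    refine Finset.sum_congr rfl fun i _ => ?_
    rw [map_pow, hX]
  rw [h1]
  exact cusp_eq d q

end Pool.Agent.Lib.MP_1bbd88_ag.T
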